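import Mathlib

set_option autoImplicit false

/-!
Stepanov's method, part A: Hasse derivatives of products of powers of linear factors.
-/

namespace Pool.Agent.helper82.Weil

open Polynomial

variable {K : Type*} [Field K]

lemma hasseDeriv_X_sub_C_pow (a : K) (c i : ℕ) :
    hasseDeriv i ((X - C a) ^ c) = (c.choose i : K) • (X - C a) ^ (c - i) := by
  induction c generalizing i with
  | zero =>
    rcases Nat.eq_zero_or_pos i with rfl | hi
    · simp
    · rw [pow_zero, hasseDeriv_apply_one i hi, Nat.choose_eq_zero_of_lt hi]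
      simp
  | succ c ih =>
    rw [pow_succ, hasseDeriv_mul]
    rcases Nat.eq_zero_or_pos i with rfl | hi
    · simp [pow_succ]
    · obtain ⟨j, rfl⟩ : ∃ j, i = j + 1 := ⟨i - 1, by omega⟩
      have h1 : ∀ ij ∈ Finset.HasAntidiagonal.antidiagonal (j + 1), ij ∉ ({(j + 1, 0), (j, 1)} : Finset (ℕ × ℕ)) →
          hasseDeriv ij.1 ((X - C a) ^ c) * hasseDeriv ij.2 (X - C a) = 0 := by
        intro ij hij hn
        rw [Finset.HasAntidiagonal.mem_antidiagonal] at hij
        have h2 : 1 < ij.2 := by
          by_contra hcon
          apply hn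
          rcases ij with ⟨u, v⟩
          simp only at hij hcon
          simp only [Finset.mem_insert, Finset.mem_singleton, Prod.mk.injEq]
          omega
        rw [map_sub, hasseDeriv_X (hk := h2), hasseDeriv_C (hk := by omega)]
        simp
      have hsub : ({(j + 1, 0), (j, 1)} : Finset (ℕ × ℕ)) ⊆ Finset.HasAntidiagonal.antidiagonal (j + 1) := by
        intro x hx
        simp only [Finset.mem_insert, Finset.mem_singleton] at hx
        rw [Finset.HasAntidiagonal.mem_antidiagonal]
        rcases hx with rfl | rfl <;> simp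
      rw [← Finset.sum_subset hsub h1, Finset.sum_pair (by simp)]
      simp only [hasseDeriv_zero', hasseDeriv_one', derivative_sub, derivative_X, derivative_C,
        sub_zero, mul_one]
      rw [ih, ih, Nat.choose_succ_succ']
      push_cast
      rw [add_smul]
      rw [add_comm ((c.choose j : K) • (X - C a) ^ (c - j))]
      congr 1
      rcases Nat.lt_or_ge c (j + 1) with h | h
      · rw [Nat.choose_eq_zero_of_lt h]; simp
      · have e2 : c - j = (c - (j + 1)) + 1 := by omega
        rw [e2, pow_succ, smul_mul_assoc]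

/-- `W L = ∏ (X - a) ^ c` over the list. -/
noncomputable def W (L : List (K × ℕ)) : K[X] := (L.map (fun ac => (X - C ac.1) ^ ac.2)).prod

/-- `FF L = ∏ (X - a)` over the list. -/
noncomputable def FF (L : List (K × ℕ)) : K[X] := (L.map (fun ac => (X - C ac.1))).prod

/-- `Wm L l = ∏ (X - a) ^ (c - l)`. -/
noncomputable def Wm (L : List (K × ℕ)) (l : ℕ) : K[X] :=
  (L.map (fun ac => (X - C ac.1) ^ (ac.2 - l))).prod

/-- The operator with `hasseDeriv l (W L * h) = Wm L l * T L l h`. -/
noncomputable def T : List (K × ℕ) → ℕ → K[X] →ₗ[K] K[X]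
  | [], l => hasseDeriv l
  | (a, c) :: L, l => ∑ u ∈ Finset.range (l + 1),
      (c.choose u : K) • (LinearMap.mulLeft K ((X - C a) ^ (l - u) * (FF L) ^ u)).comp (T L (l - u))

lemma Wm_eq (L : List (K × ℕ)) (l u : ℕ) (hu : u ≤ l) (hL : ∀ ac ∈ L, l ≤ ac.2) :
    Wm L (l - u) = Wm L l * (FF L) ^ u := by
  induction L with
  | nil => simp [Wm, FF]
  | cons ac L ih =>
    have h1 := ih (fun x hx => hL x (by simp [hx]))
    have h2 := hL ac (by simp)
    simp only [Wm, FF, List.map_cons, List.prod_cons] at h1 ⊢
    rw [h1, mul_pow]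
    have : ac.2 - (l - u) = (ac.2 - l) + u := by omega
    rw [this, pow_add]
    ring

lemma hasseDeriv_W_mul (L : List (K × ℕ)) (l : ℕ) (hL : ∀ ac ∈ L, l ≤ ac.2) (h : K[X]) :
    hasseDeriv l (W L * h) = Wm L l * T L l h := by
  induction L generalizing l h with
  | nil => simp [W, Wm, T]
  | cons ac L ih =>
    obtain ⟨a, c⟩ := ac
    have hc : l ≤ c := hL (a, c) (by simp)
    have hL' : ∀ ac ∈ L, l ≤ ac.2 := fun x hx => hL x (by simp [hx])
    have e1 : W ((a, c) :: L) * h = (X - C a) ^ c * (W L * h) := by
      simp [W, mul_assoc]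
    rw [e1, hasseDeriv_mul, Finset.Nat.sum_antidiagonal_eq_sum_range_succ_mk]
    simp only [T, LinearMap.sum_apply, LinearMap.smul_apply, LinearMap.comp_apply,
      LinearMap.mulLeft_apply, Finset.mul_sum]
    refine Finset.sum_congr rfl fun u hu => ?_
    have hul : u ≤ l := by
      rw [Finset.mem_range] at hu; omega
    rw [hasseDeriv_X_sub_C_pow, ih (l - u) (fun x hx => (Nat.sub_le _ _).trans (hL' x hx)),
      Wm_eq L l u hul hL']
    have e2 : Wm ((a, c) :: L) l = (X - C a) ^ (c - l) * Wm L l := by simp [Wm]
    rw [e2]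
    have e3 : c - u = (c - l) + (l - u) := by omega
    rw [e3, pow_add, smul_mul_assoc, mul_smul_comm]
    congr 1
    ring

lemma natDegree_FF_le (L : List (K × ℕ)) : (FF L).natDegree ≤ L.length := by
  unfold FF
  refine (natDegree_list_prod_le _).trans ?_
  rw [List.map_map]
  have : ((L.map (natDegree ∘ fun ac : K × ℕ => X - C ac.1))).sum ≤ L.length := by
    have h2 : L.map (natDegree ∘ fun ac : K × ℕ => X - C ac.1) = L.map (fun _ => 1) := by
      apply List.map_congr_left
      intro ac _
      simp
    rw [h2]; simp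
  exact this

lemma natDegree_T_le (L : List (K × ℕ)) (l : ℕ) (h : K[X]) :
    (T L l h).natDegree ≤ h.natDegree + l * L.length := by
  induction L generalizing l h with
  | nil =>
    simp only [T, List.length_nil, mul_zero, add_zero]
    exact (natDegree_hasseDeriv_le h l).trans (Nat.sub_le _ _)
  | cons ac L ih =>
    obtain ⟨a, c⟩ := ac
    simp only [T, LinearMap.sum_apply, LinearMap.smul_apply, LinearMap.comp_apply,
      LinearMap.mulLeft_apply]
    refine natDegree_sum_le_of_forall_le _ _ fun u hu => ?_
    rw [Finset.mem_range] at hu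
    refine (natDegree_smul_le _ _).trans ?_
    refine natDegree_mul_le.trans ?_
    have h1 : ((X - C a) ^ (l - u) * (FF L) ^ u).natDegree ≤ (l - u) + u * L.length := by
      refine natDegree_mul_le.trans ?_
      have h2 : ((X - C a) ^ (l - u)).natDegree ≤ l - u := by
        refine natDegree_pow_le.trans ?_
        simp
      have h3 : ((FF L) ^ u).natDegree ≤ u * L.length := by
        refine natDegree_pow_le.trans ?_
        exact Nat.mul_le_mul_left _ (natDegree_FF_le L)
      omega
    have h4 := ih (l - u) h
    rw [List.length_cons]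
    have h5 : (l - u) + u * L.length + (h.natDegree + (l - u) * L.length) ≤
        h.natDegree + l * (L.length + 1) := by
      have h6 : u * L.length + (l - u) * L.length = l * L.length := by
        rw [← add_mul]; congr 1; omega
      have h7 : l * (L.length + 1) = l * L.length + l := by ring
      omega
    omega

end Pool.Agent.helper82.Weil
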