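import Mathlib
import Pool.Agent.helper82.Weil.A

set_option autoImplicit false

/-!
Stepanov's method, part B: the auxiliary polynomial.
-/

namespace Pool.Agent.helper82.Weil

open Polynomial

section gen
variable {K : Type*} [Field K]

/-- exponents `M + s * c`. -/
def LL (A : List (K × ℕ)) (M s : ℕ) : List (K × ℕ) := A.map (fun ac => (ac.1, M + s * ac.2))

lemma W_LL (A : List (K × ℕ)) (M s : ℕ) : W (LL A M s) = (FF A) ^ M * (W A) ^ s := by
  induction A with
  | nil => simp [W, LL, FF]
  | cons ac A ih =>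
    simp only [W, LL, FF, List.map_cons, List.prod_cons, List.map_map] at ih ⊢
    rw [ih]
    rw [mul_pow, mul_pow, pow_add, ← pow_mul, mul_comm ac.2 s]
    ring

lemma Wm_LL (A : List (K × ℕ)) (M s l : ℕ) (hl : l ≤ M) :
    Wm (LL A M s) l = (FF A) ^ (M - l) * (W A) ^ s := by
  induction A with
  | nil => simp [W, LL, FF, Wm]
  | cons ac A ih =>
    simp only [W, LL, FF, Wm, List.map_cons, List.prod_cons, List.map_map] at ih ⊢
    rw [ih]
    have : M + s * ac.2 - l = (M - l) + s * ac.2 := by omega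
    rw [this, mul_pow, mul_pow, pow_add, ← pow_mul, mul_comm ac.2 s]
    ring

lemma LL_ge (A : List (K × ℕ)) (M s l : ℕ) (hl : l ≤ M) : ∀ ac ∈ LL A M s, l ≤ ac.2 := by
  intro ac hac
  simp only [LL, List.mem_map] at hac
  obtain ⟨b, _, rfl⟩ := hac
  simp only
  omega

lemma length_LL (A : List (K × ℕ)) (M s : ℕ) : (LL A M s).length = A.length := by
  simp [LL]

lemma natDegree_W_le (A : List (K × ℕ)) : (W A).natDegree ≤ (A.map Prod.snd).sum := by
  induction A with
  | nil => simp [W]
  | cons ac A ih =>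
    simp only [W, List.map_cons, List.prod_cons, List.sum_cons] at ih ⊢
    refine natDegree_mul_le.trans ?_
    have : ((X - C ac.1) ^ ac.2).natDegree ≤ ac.2 := by
      refine natDegree_pow_le.trans ?_
      simp
    omega

end gen

section fin
variable {K : Type*} [Field K] [Fintype K]

lemma X_add_C_pow_card (x : K) (j : ℕ) :
    ((X : K[X]) + C x) ^ (j * Fintype.card K) = (X ^ Fintype.card K + C x) ^ j := by
  obtain ⟨p, hp⟩ := CharP.exists K
  obtain ⟨n, hpp, hn⟩ := FiniteField.card K p
  have : Fact p.Prime := ⟨hpp⟩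
  rw [mul_comm, pow_mul]
  congr 1
  rw [hn, add_pow_char_pow, ← C_pow, ← hn, FiniteField.pow_card]

lemma eval_hasseDeriv_mul_X_pow (x : K) (h : K[X]) (j l : ℕ) (hl : l < Fintype.card K) :
    eval x (hasseDeriv l (h * X ^ (j * Fintype.card K))) = x ^ j * eval x (hasseDeriv l h) := by
  rw [← taylor_coeff, ← taylor_coeff, taylor_mul, taylor_pow, taylor_X, X_add_C_pow_card]
  obtain ⟨u, hu⟩ : (X : K[X]) ^ Fintype.card K ∣ (X ^ Fintype.card K + C x) ^ j - (C x) ^ j := by
    have := sub_dvd_pow_sub_pow ((X : K[X]) ^ Fintype.card K + C x) (C x) j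
    simpa using this
  have h1 : ((X : K[X]) ^ Fintype.card K + C x) ^ j = C (x ^ j) + X ^ Fintype.card K * u := by
    rw [← hu, C_pow]; ring
  rw [h1, mul_add, coeff_add, coeff_mul_C]
  have h2 : ((taylor x) h * (X ^ Fintype.card K * u)).coeff l = 0 := by
    rw [mul_left_comm, coeff_X_pow_mul', if_neg (by omega)]
  rw [h2, add_zero, mul_comm]

/-- the coefficients as polynomials -/
noncomputable def rpoly {d J D : ℕ} (v : Fin d × Fin J × Fin D → K) (i : Fin d) (j : Fin J) : K[X] :=
  ∑ n : Fin D, monomial (n : ℕ) (v (i, j, n))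

/-- auxiliary polynomial -/
noncomputable def PP (A : List (K × ℕ)) (M t : ℕ) {d J D : ℕ} (v : Fin d × Fin J × Fin D → K) : K[X] :=
  ∑ i : Fin d, ∑ j : Fin J,
    (W (LL A M (t * i)) * rpoly v i j) * X ^ ((j : ℕ) * Fintype.card K)

/-- the conditions -/
noncomputable def Phi (A : List (K × ℕ)) (M t : ℕ) (θ : K) (l : ℕ) {d J D : ℕ}
    (v : Fin d × Fin J × Fin D → K) : K[X] :=
  ∑ i : Fin d, ∑ j : Fin J, (C (θ ^ (i : ℕ)) * X ^ (j : ℕ)) * T (LL A M (t * i)) l (rpoly v i j)

lemma eval_hasseDeriv_PP (A : List (K × ℕ)) (M t : ℕ) {d J D : ℕ} (v : Fin d × Fin J × Fin D → K)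
    (θ x : K) (hx : (eval x (W A)) ^ t = θ) (l : ℕ) (hlM : l ≤ M) (hlQ : l < Fintype.card K) :
    eval x (hasseDeriv l (PP A M t v)) = (eval x (FF A)) ^ (M - l) * eval x (Phi A M t θ l v) := by
  simp only [PP, Phi, map_sum, eval_finsetSum, Finset.mul_sum]
  refine Finset.sum_congr rfl fun i _ => Finset.sum_congr rfl fun j _ => ?_
  rw [eval_hasseDeriv_mul_X_pow x _ _ _ hlQ, hasseDeriv_W_mul _ _ (LL_ge A M _ l hlM),
    Wm_LL A M _ l hlM]
  simp only [eval_mul, eval_pow, eval_C, eval_X]
  rw [pow_mul, hx]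
  ring

lemma dvd_PP (A : List (K × ℕ)) (M t : ℕ) {d J D : ℕ} (v : Fin d × Fin J × Fin D → K)
    (θ x : K) (hx : (eval x (W A)) ^ t = θ) (hMQ : M ≤ Fintype.card K)
    (hPhi : ∀ l < M, Phi A M t θ l v = 0) : (X - C x) ^ M ∣ PP A M t v := by
  rw [X_sub_C_pow_dvd_iff, X_pow_dvd_iff]
  intro l hl
  have h1 : (PP A M t v).comp (X + C x) = taylor x (PP A M t v) := rfl
  rw [h1, taylor_coeff, eval_hasseDeriv_PP A M t v θ x hx l hl.le (by omega), hPhi l hl]
  simp

lemma natDegree_rpoly_le {d J D : ℕ} (v : Fin d × Fin J × Fin D → K) (i : Fin d) (j : Fin J) :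
    (rpoly v i j).natDegree ≤ D - 1 := by
  unfold rpoly
  refine natDegree_sum_le_of_forall_le _ _ fun n _ => ?_
  refine (natDegree_monomial_le _).trans ?_
  have := n.2
  omega

lemma coeff_rpoly {d J D : ℕ} (v : Fin d × Fin J × Fin D → K) (i : Fin d) (j : Fin J) (n : Fin D) :
    (rpoly v i j).coeff n = v (i, j, n) := by
  unfold rpoly
  rw [finsetSum_coeff, Finset.sum_eq_single n]
  · rw [coeff_monomial, if_pos rfl]
  · intro m _ hm
    rw [coeff_monomial, if_neg]
    intro h
    exact hm (Fin.ext h)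
  · simp

lemma natDegree_Phi_lt (A : List (K × ℕ)) (M t : ℕ) (θ : K) (l : ℕ) (hl : l < M) {d J D : ℕ}
    (hJ : 0 < J) (hD : 0 < D) (v : Fin d × Fin J × Fin D → K) :
    (Phi A M t θ l v).natDegree < D + J + A.length * M := by
  have : (Phi A M t θ l v).natDegree ≤ (J - 1) + ((D - 1) + l * A.length) := by
    unfold Phi
    refine natDegree_sum_le_of_forall_le _ _ fun i _ => ?_
    refine natDegree_sum_le_of_forall_le _ _ fun j _ => ?_
    refine natDegree_mul_le.trans ?_
    have h1 : (C (θ ^ (i : ℕ)) * X ^ (j : ℕ) : K[X]).natDegree ≤ J - 1 := by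
      refine natDegree_mul_le.trans ?_
      rw [natDegree_C, zero_add]
      refine (natDegree_X_pow_le _).trans ?_
      have := j.2
      omega
    have h2 := natDegree_T_le (LL A M (t * i)) l (rpoly v i j)
    have h3 := natDegree_rpoly_le v i j
    rw [length_LL] at h2
    omega
  have h4 : l * A.length ≤ A.length * M := by
    rw [mul_comm]; exact Nat.mul_le_mul_left _ hl.le
  omega

/-- linear map giving all the coefficients of the conditions. -/
noncomputable def Psi (A : List (K × ℕ)) (M t : ℕ) (θ : K) (d J D N : ℕ) :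
    (Fin d × Fin J × Fin D → K) →ₗ[K] (Fin M × Fin N → K) where
  toFun v := fun ln => (Phi A M t θ ln.1 v).coeff ln.2
  map_add' v w := by
    funext ln
    simp only [Pi.add_apply]
    rw [← coeff_add]
    congr 1
    simp only [Phi, ← Finset.sum_add_distrib]
    refine Finset.sum_congr rfl fun i _ => Finset.sum_congr rfl fun j _ => ?_
    rw [← mul_add, ← map_add]
    congr 2
    simp only [rpoly, ← Finset.sum_add_distrib]
    refine Finset.sum_congr rfl fun n _ => ?_
    simp
  map_smul' c v := by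
    funext ln
    simp only [Pi.smul_apply, RingHom.id_apply]
    rw [← coeff_smul]
    congr 1
    simp only [Phi, Finset.smul_sum]
    refine Finset.sum_congr rfl fun i _ => Finset.sum_congr rfl fun j _ => ?_
    rw [← mul_smul_comm, ← map_smul]
    congr 2
    simp only [rpoly, Finset.smul_sum]
    refine Finset.sum_congr rfl fun n _ => ?_
    rw [smul_monomial, Pi.smul_apply]

lemma exists_v (A : List (K × ℕ)) (M t : ℕ) (θ : K) (d J D : ℕ) (hJ : 0 < J) (hD : 0 < D)
    (h : M * (D + J + A.length * M) < d * J * D) :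
    ∃ v : Fin d × Fin J × Fin D → K, v ≠ 0 ∧ ∀ l < M, Phi A M t θ l v = 0 := by
  have h1 : Module.finrank K (Fin M × Fin (D + J + A.length * M) → K) <
      Module.finrank K (Fin d × Fin J × Fin D → K) := by
    rw [Module.finrank_fintype_fun_eq_card, Module.finrank_fintype_fun_eq_card]
    simp only [Fintype.card_prod, Fintype.card_fin]
    calc M * (D + J + A.length * M) < d * J * D := h
      _ = d * (J * D) := by ring
  have h2 := LinearMap.ker_ne_bot_of_finrank_lt (f := Psi A M t θ d J D (D + J + A.length * M)) h1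
  obtain ⟨v, hv, hv0⟩ := Submodule.exists_mem_ne_zero_of_ne_bot h2
  refine ⟨v, hv0, fun l hl => ?_⟩
  ext n
  rw [coeff_zero]
  rcases Nat.lt_or_ge n (D + J + A.length * M) with hn | hn
  · rw [LinearMap.mem_ker] at hv
    have := congrFun hv (⟨l, hl⟩, ⟨n, hn⟩)
    exact this
  · exact coeff_eq_zero_of_natDegree_lt (lt_of_lt_of_le (natDegree_Phi_lt A M t θ l hl hJ hD v) hn)

lemma natDegree_PP_le (A : List (K × ℕ)) (M t : ℕ) {d J D : ℕ} (v : Fin d × Fin J × Fin D → K) :
    (PP A M t v).natDegree ≤ M * A.length + (d - 1) * t * (A.map Prod.snd).sum + (D - 1)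
      + (J - 1) * Fintype.card K := by
  unfold PP
  refine natDegree_sum_le_of_forall_le _ _ fun i _ => ?_
  refine natDegree_sum_le_of_forall_le _ _ fun j _ => ?_
  refine natDegree_mul_le.trans ?_
  have h1 : (X ^ ((j : ℕ) * Fintype.card K) : K[X]).natDegree ≤ (J - 1) * Fintype.card K := by
    refine (natDegree_X_pow_le _).trans ?_
    exact Nat.mul_le_mul_right _ (by have := j.2; omega)
  have h2 : (W (LL A M (t * i)) * rpoly v i j).natDegree ≤
      M * A.length + (d - 1) * t * (A.map Prod.snd).sum + (D - 1) := by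
    refine natDegree_mul_le.trans ?_
    refine add_le_add ?_ (natDegree_rpoly_le v i j)
    rw [W_LL]
    refine natDegree_mul_le.trans ?_
    refine add_le_add ?_ ?_
    · refine natDegree_pow_le.trans ?_
      exact Nat.mul_le_mul_left _ (natDegree_FF_le A)
    · refine natDegree_pow_le.trans ?_
      refine Nat.mul_le_mul ?_ (natDegree_W_le A)
      rw [mul_comm]
      exact Nat.mul_le_mul_right _ (by have := i.2; omega)
  omega

end fin

end Pool.Agent.helper82.Weil
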