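import Mathlib
import Pool.Agent.helper82.Weil.B

set_option autoImplicit false

/-!
Stepanov's method, part C: nonvanishing of the auxiliary polynomial and the counting bound.
-/

namespace Pool.Agent.helper82.Weil

open Polynomial

section fin
variable {K : Type*} [Field K] [Fintype K]

lemma natTrailingDegree_pow' (p : K[X]) (hp : p ≠ 0) (n : ℕ) :
    (p ^ n).natTrailingDegree = n * p.natTrailingDegree := by
  induction n with
  | zero => simp
  | succ n ih =>
    rw [pow_succ, natTrailingDegree_mul (pow_ne_zero _ hp) hp, ih]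
    ring

lemma W_ne_zero (A : List (K × ℕ)) : W A ≠ 0 := by
  unfold W
  apply List.prod_ne_zero
  rw [List.mem_map]
  rintro ⟨ac, _, h⟩
  exact pow_ne_zero _ (X_sub_C_ne_zero _) h

lemma FF_ne_zero (A : List (K × ℕ)) : FF A ≠ 0 := by
  unfold FF
  apply List.prod_ne_zero
  rw [List.mem_map]
  rintro ⟨ac, _, h⟩
  exact (X_sub_C_ne_zero _) h

lemma W_coeff_zero_ne (A : List (K × ℕ)) (hA : ∀ ac ∈ A, ac.1 ≠ 0) : (W A).coeff 0 ≠ 0 := by
  rw [coeff_zero_eq_eval_zero]
  unfold W
  rw [eval_list_prod, List.map_map]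
  apply List.prod_ne_zero
  rw [List.mem_map]
  rintro ⟨ac, hac, h⟩
  simp only [Function.comp_apply, eval_pow, eval_sub, eval_X, eval_C, zero_sub] at h
  exact pow_ne_zero _ (neg_ne_zero.mpr (hA ac hac)) h

lemma natTrailingDegree_W_cons (A : List (K × ℕ)) (hA : ∀ ac ∈ A, ac.1 ≠ 0) :
    (W ((0, 1) :: A)).natTrailingDegree = 1 := by
  have h1 : W ((0, 1) :: A) = X * W A := by simp [W]
  rw [h1, natTrailingDegree_mul X_ne_zero (W_ne_zero A)]
  have h2 : (W A).natTrailingDegree = 0 := natTrailingDegree_eq_zero.mpr (Or.inr (W_coeff_zero_ne A hA))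
  rw [h2]
  simp

/-- the inner sum is nonzero -/
lemma PP_ne_zero (A : List (K × ℕ)) (hA : ∀ ac ∈ A, ac.1 ≠ 0) (M t : ℕ) {d J D : ℕ}
    (hD : 0 < D) (hDt : D ≤ t) (hQ : d * t ≤ Fintype.card K)
    (v : Fin d × Fin J × Fin D → K) (hv : v ≠ 0) :
    PP ((0, 1) :: A) M t v ≠ 0 := by
  classical
  set A0 : List (K × ℕ) := (0, 1) :: A with hA0
  -- factor
  have hfac : PP A0 M t v = (FF A0) ^ M * ∑ ij : Fin d × Fin J,
      ((W A0) ^ (t * (ij.1 : ℕ)) * rpoly v ij.1 ij.2) * X ^ ((ij.2 : ℕ) * Fintype.card K) := by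
    rw [Fintype.sum_prod_type]
    simp only [PP, Finset.mul_sum]
    refine Finset.sum_congr rfl fun i _ => Finset.sum_congr rfl fun j _ => ?_
    rw [W_LL]
    ring
  rw [hfac]
  refine mul_ne_zero (pow_ne_zero _ (FF_ne_zero _)) ?_
  set h : Fin d × Fin J → K[X] := fun ij =>
    ((W A0) ^ (t * (ij.1 : ℕ)) * rpoly v ij.1 ij.2) * X ^ ((ij.2 : ℕ) * Fintype.card K) with hh
  -- support
  set S : Finset (Fin d × Fin J) := Finset.univ.filter (fun ij => rpoly v ij.1 ij.2 ≠ 0) with hS
  have hSne : S.Nonempty := by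
    obtain ⟨⟨i, j, n⟩, hn⟩ := Function.ne_iff.mp hv
    refine ⟨(i, j), ?_⟩
    rw [hS, Finset.mem_filter]
    refine ⟨Finset.mem_univ _, ?_⟩
    intro h0
    apply hn
    have := coeff_rpoly v i j n
    simp only at h0
    rw [h0, coeff_zero] at this
    exact this.symm
  have hhne : ∀ ij ∈ S, h ij ≠ 0 := by
    intro ij hij
    rw [hS, Finset.mem_filter] at hij
    exact mul_ne_zero (mul_ne_zero (pow_ne_zero _ (W_ne_zero _)) hij.2) (pow_ne_zero _ X_ne_zero)
  have htd : ∀ ij ∈ S, (h ij).natTrailingDegree =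
      (rpoly v ij.1 ij.2).natTrailingDegree + t * (ij.1 : ℕ) + (ij.2 : ℕ) * Fintype.card K := by
    intro ij hij
    rw [hS, Finset.mem_filter] at hij
    simp only [hh]
    rw [natTrailingDegree_mul (mul_ne_zero (pow_ne_zero _ (W_ne_zero _)) hij.2)
      (pow_ne_zero _ X_ne_zero), natTrailingDegree_mul (pow_ne_zero _ (W_ne_zero _)) hij.2,
      natTrailingDegree_pow' _ (W_ne_zero _), natTrailingDegree_W_cons A hA,
      natTrailingDegree_pow' _ X_ne_zero]
    simp
    ring
  have hnu : ∀ ij : Fin d × Fin J, (rpoly v ij.1 ij.2).natTrailingDegree < t := by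
    intro ij
    have h1 := natDegree_rpoly_le v ij.1 ij.2
    have h2 := natTrailingDegree_le_natDegree (rpoly v ij.1 ij.2)
    omega
  have hinj : ∀ ij ∈ S, ∀ ij' ∈ S, (h ij).natTrailingDegree = (h ij').natTrailingDegree → ij = ij' := by
    intro ij hij ij' hij' heq
    rw [htd ij hij, htd ij' hij'] at heq
    have n1 := hnu ij
    have n2 := hnu ij'
    set a1 := (rpoly v ij.1 ij.2).natTrailingDegree
    set a2 := (rpoly v ij'.1 ij'.2).natTrailingDegree
    have b1 := ij.1.2
    have b2 := ij'.1.2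
    have c1 : a1 + t * (ij.1 : ℕ) < Fintype.card K := by
      have : t * (ij.1 : ℕ) + t ≤ t * d := by
        have h3 : (ij.1 : ℕ) + 1 ≤ d := b1
        calc t * (ij.1 : ℕ) + t = t * ((ij.1 : ℕ) + 1) := by ring
          _ ≤ t * d := Nat.mul_le_mul_left _ h3
      have h4 : t * d = d * t := mul_comm _ _
      omega
    have c2 : a2 + t * (ij'.1 : ℕ) < Fintype.card K := by
      have : t * (ij'.1 : ℕ) + t ≤ t * d := by
        have h3 : (ij'.1 : ℕ) + 1 ≤ d := b2
        calc t * (ij'.1 : ℕ) + t = t * ((ij'.1 : ℕ) + 1) := by ring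
          _ ≤ t * d := Nat.mul_le_mul_left _ h3
      have h4 : t * d = d * t := mul_comm _ _
      omega
    have e1 : (ij.2 : ℕ) = ij'.2 := by
      have h5 : (a1 + t * (ij.1 : ℕ) + (ij.2 : ℕ) * Fintype.card K) / Fintype.card K = ij.2 := by
        rw [Nat.add_mul_div_right _ _ (by omega), Nat.div_eq_of_lt c1, zero_add]
      have h6 : (a2 + t * (ij'.1 : ℕ) + (ij'.2 : ℕ) * Fintype.card K) / Fintype.card K = ij'.2 := by
        rw [Nat.add_mul_div_right _ _ (by omega), Nat.div_eq_of_lt c2, zero_add]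
      rw [← h5, ← h6, heq]
    have e2 : a1 + t * (ij.1 : ℕ) = a2 + t * (ij'.1 : ℕ) := by
      rw [e1] at heq
      omega
    have e3 : (ij.1 : ℕ) = ij'.1 := by
      have h5 : (a1 + t * (ij.1 : ℕ)) / t = ij.1 := by
        rw [Nat.add_mul_div_left _ _ (by omega), Nat.div_eq_of_lt n1, zero_add]
      have h6 : (a2 + t * (ij'.1 : ℕ)) / t = ij'.1 := by
        rw [Nat.add_mul_div_left _ _ (by omega), Nat.div_eq_of_lt n2, zero_add]
      rw [← h5, ← h6, e2]
    exact Prod.ext (Fin.ext e3) (Fin.ext e1)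
  obtain ⟨ij0, hij0, hmin⟩ := Finset.exists_min_image S (fun ij => (h ij).natTrailingDegree) hSne
  intro hzero
  have hco : (∑ ij : Fin d × Fin J, h ij).coeff (h ij0).natTrailingDegree = 0 := by
    have : ∑ ij : Fin d × Fin J, h ij = 0 := hzero
    rw [this, coeff_zero]
  rw [finsetSum_coeff, Finset.sum_eq_single ij0] at hco
  · exact (trailingCoeff_nonzero_iff_nonzero.mpr (hhne ij0 hij0)) hco
  · intro ij _ hne
    by_cases hij : ij ∈ S
    · apply coeff_eq_zero_of_lt_natTrailingDegree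
      refine lt_of_le_of_ne (hmin ij hij) ?_
      intro heq
      exact hne (hinj ij0 hij0 ij hij heq).symm
    · have : rpoly v ij.1 ij.2 = 0 := by
        by_contra hcon
        exact hij (by rw [hS, Finset.mem_filter]; exact ⟨Finset.mem_univ _, hcon⟩)
      simp only [hh, this]
      simp
  · intro hno
    exact absurd (Finset.mem_univ _) hno

lemma card_le_of_dvd (P : K[X]) (hP : P ≠ 0) (S : Finset K) (M : ℕ)
    (h : ∀ x ∈ S, (X - C x) ^ M ∣ P) : M * S.card ≤ P.natDegree := by
  have h1 : ∏ x ∈ S, (X - C x) ^ M ∣ P := by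
    refine Finset.prod_dvd_of_coprime ?_ h
    intro x _ y _ hxy
    have := pairwise_coprime_X_sub_C (K := K) (s := fun x : K => x) Function.injective_id hxy
    exact IsCoprime.pow this
  have h2 := natDegree_le_of_dvd h1 hP
  rw [natDegree_prod _ _ (fun x _ => pow_ne_zero _ (X_sub_C_ne_zero _))] at h2
  simp only [natDegree_pow, natDegree_X_sub_C, mul_one, Finset.sum_const, smul_eq_mul] at h2
  rw [mul_comm]
  exact h2

open Classical in
/-- The basic inequality of Stepanov's method. -/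
theorem stepanov_nat (A : List (K × ℕ)) (hA : ∀ ac ∈ A, ac.1 ≠ 0) (M t d J D : ℕ) (θ : K)
    (hJ : 0 < J) (hD : 0 < D) (hDt : D ≤ t) (hQ : d * t ≤ Fintype.card K)
    (hMQ : M ≤ Fintype.card K)
    (h : M * (D + J + (A.length + 1) * M) < d * J * D) :
    M * (Finset.univ.filter (fun x : K => (x * eval x (W A)) ^ t = θ)).card ≤
      M * (A.length + 1) + (d - 1) * t * (1 + (A.map Prod.snd).sum) + (D - 1)
      + (J - 1) * Fintype.card K := by
  obtain ⟨v, hv0, hv⟩ := exists_v ((0, 1) :: A) M t θ d J D hJ hD (by simpa using h)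
  have hne := PP_ne_zero A hA M t hD hDt hQ v hv0
  have h1 := card_le_of_dvd (PP ((0, 1) :: A) M t v) hne
    (Finset.univ.filter (fun x : K => (x * eval x (W A)) ^ t = θ)) M (by
      intro x hx
      rw [Finset.mem_filter] at hx
      refine dvd_PP _ M t v θ x ?_ hMQ hv
      rw [← hx.2]
      congr 1
      simp [W])
  refine h1.trans ?_
  have h2 := natDegree_PP_le ((0, 1) :: A) M t v
  simpa using h2

end fin

end Pool.Agent.helper82.Weil
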