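import Mathlib
import Pool.Agent.helper82.Weil.C

set_option autoImplicit false

/-!
Stepanov's method, part D: choice of the parameters and the first bound for character sums.
-/

namespace Pool.Agent.helper82.Weil

open Polynomial

section fin
variable {K : Type*} [Field K] [Fintype K]

open Classical in
theorem stepanov_count (A : List (K × ℕ)) (hA : ∀ ac ∈ A, ac.1 ≠ 0) (t d : ℕ) (θ : K)
    (hd : 0 < d) (ht : 0 < t) (hQ : d * t + 1 = Fintype.card K) :
    ((Finset.univ.filter (fun x : K => (x * eval x (W A)) ^ t = θ)).card : ℝ) ≤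
      (Fintype.card K : ℝ) / d +
        (2 * (A.map Prod.snd).sum + 3 * A.length + 15) * Real.sqrt (Fintype.card K) := by
  set Q := Fintype.card K with hQdef
  set N := (Finset.univ.filter (fun x : K => (x * eval x (W A)) ^ t = θ)).card with hN
  set E := (A.map Prod.snd).sum with hE
  set n := A.length with hn
  set M := Nat.sqrt Q with hM
  have hMM : M * M ≤ Q := Nat.sqrt_le Q
  have hQM : Q < (M + 1) * (M + 1) := Nat.lt_succ_sqrt Q
  have hQ1 : 2 ≤ Q := by
    have : 1 ≤ d * t := Nat.mul_pos hd ht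
    omega
  have hM1 : 1 ≤ M := by
    by_contra hcon
    have : M = 0 := by omega
    rw [this] at hQM
    omega
  have hs0 : (0 : ℝ) ≤ Real.sqrt Q := Real.sqrt_nonneg _
  have hs1 : (1 : ℝ) ≤ Real.sqrt Q := by
    rw [Real.one_le_sqrt]
    exact_mod_cast (by omega : 1 ≤ Q)
  have hss : Real.sqrt Q * Real.sqrt Q = Q := Real.mul_self_sqrt (by positivity)
  have hsM : Real.sqrt Q ≤ M + 1 := by
    rw [Real.sqrt_le_left (by positivity)]
    have : (Q : ℝ) ≤ ((M + 1) * (M + 1) : ℕ) := by exact_mod_cast hQM.le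
    push_cast at this
    nlinarith
  have hMs : (M : ℝ) ≤ Real.sqrt Q := by
    apply Real.le_sqrt_of_sq_le
    have : ((M * M : ℕ) : ℝ) ≤ Q := by exact_mod_cast hMM
    push_cast at this
    nlinarith
  have hdR : (0 : ℝ) < d := by exact_mod_cast hd
  rcases Nat.lt_or_ge M (n + 5) with hsmall | hbig
  · -- small case
    have h1 : (N : ℝ) ≤ Q := by
      have : N ≤ Q := by
        rw [hN, hQdef, ← Finset.card_univ]
        exact Finset.card_filter_le _ _
      exact_mod_cast this
    have h2 : Real.sqrt Q ≤ n + 5 := by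
      have : (M : ℝ) + 1 ≤ n + 5 := by exact_mod_cast hsmall
      linarith
    have h3 : (Q : ℝ) ≤ (n + 5) * Real.sqrt Q := by
      nlinarith
    have h4 : (0 : ℝ) ≤ (Q : ℝ) / d := by positivity
    have h5 : (0 : ℝ) ≤ (2 * (E : ℝ) + 2 * n + 10) * Real.sqrt Q := by positivity
    nlinarith
  · -- big case
    obtain ⟨q, hq, hqM, hqR⟩ : ∃ q : ℕ, M < d * q + d ∧ q ≤ M ∧ (q : ℝ) ≤ (M : ℝ) / d := by
      refine ⟨M / d, ?_, Nat.div_le_self _ _, Nat.cast_div_le⟩
      have := Nat.div_add_mod M d
      have := Nat.mod_lt M hd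
      omega
    set J := q + (n + 4) with hJ
    have hdJ : M + (n + 3) * d ≤ d * J := by
      rw [hJ, mul_add]
      have h2 : d * (n + 4) = (n + 3) * d + d := by ring
      omega
    have hMJ : M * J ≤ Q + M * (n + 4) := by
      rw [hJ, mul_add]
      have : M * q ≤ M * M := Nat.mul_le_mul_left _ hqM
      omega
    have hmain : M * (t + J + (n + 1) * M) < d * J * t := by
      have h1 : (M + (n + 3) * d) * t ≤ d * J * t := Nat.mul_le_mul_right _ hdJ
      have h2 : (M + (n + 3) * d) * t = M * t + (n + 3) * (Q - 1) := by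
        have : Q - 1 = d * t := by omega
        rw [this]; ring
      have h3 : M * (t + J + (n + 1) * M) = M * t + M * J + (n + 1) * (M * M) := by ring
      have h4 : (n + 1) * (M * M) ≤ (n + 1) * Q := Nat.mul_le_mul_left _ hMM
      have h5 : (n + 3) * (Q - 1) + (n + 3) = (n + 1) * Q + Q + Q := by
        have : Q - 1 + 1 = Q := by omega
        calc (n + 3) * (Q - 1) + (n + 3) = (n + 3) * (Q - 1 + 1) := by ring
          _ = (n + 3) * Q := by rw [this]
          _ = _ := by ring
      have h6 : M * (n + 4) + (n + 3) < Q := by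
        have : (n + 5) * M ≤ M * M := Nat.mul_le_mul_right _ hbig
        have e1 : (n + 5) * M = M * (n + 4) + M := by ring
        omega
      omega
    have key := stepanov_nat A hA M t d J t θ (by omega) ht le_rfl (by omega)
      (by nlinarith) hmain
    rw [← hN, ← hn, ← hE, ← hQdef] at key
    have keyR : (M : ℝ) * N ≤ M * (n + 1) + Q * (1 + E) + Q + ((M : ℝ) / d + (n + 3)) * Q := by
      have h1 : M * N ≤ M * (n + 1) + Q * (1 + E) + Q + (q + (n + 3)) * Q := by
        refine key.trans ?_
        have e1 : (d - 1) * t * (1 + E) ≤ Q * (1 + E) := by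
          apply Nat.mul_le_mul_right
          have : (d - 1) * t ≤ d * t := Nat.mul_le_mul_right _ (by omega)
          omega
        have e2 : t - 1 ≤ Q := by
          have : t ≤ d * t := Nat.le_mul_of_pos_left _ hd
          omega
        have e3 : J - 1 = q + (n + 3) := by omega
        rw [e3]
        omega
      have h3 : ((M * N : ℕ) : ℝ) ≤ ((M * (n + 1) + Q * (1 + E) + Q + (q + (n + 3)) * Q : ℕ) : ℝ) := by
        exact_mod_cast h1
      push_cast at h3
      have h4 : (0 : ℝ) ≤ Q := by positivity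
      have h6 : ((q : ℝ) + (n + 3)) * Q ≤ ((M : ℝ) / d + (n + 3)) * Q :=
        mul_le_mul_of_nonneg_right (by linarith) h4
      linarith
    have hMpos : (0 : ℝ) < M := by exact_mod_cast hM1
    have h2M : Real.sqrt Q ≤ 2 * M := by
      have : (1 : ℝ) ≤ M := by exact_mod_cast hM1
      linarith
    -- Q ≤ 2 M sqrt Q
    have hQ2 : (Q : ℝ) ≤ M * (2 * Real.sqrt Q) := by nlinarith
    have h7 : (M : ℝ) * N ≤ M * ((Q : ℝ) / d + (2 * E + 3 * n + 15) * Real.sqrt Q) := by
      have e1 : (M : ℝ) * (n + 1) ≤ M * ((n + 1) * Real.sqrt Q) := by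
        have : (n + 1 : ℝ) ≤ (n + 1) * Real.sqrt Q := by
          have : (0 : ℝ) ≤ n + 1 := by positivity
          nlinarith
        exact mul_le_mul_of_nonneg_left this hMpos.le
      have e2 : (Q : ℝ) * (1 + E) + Q + (n + 3) * Q ≤ M * (2 * Real.sqrt Q) * (E + n + 5) := by
        have : (Q : ℝ) * (1 + E) + Q + (n + 3) * Q = Q * (E + n + 5) := by ring
        rw [this]
        exact mul_le_mul_of_nonneg_right hQ2 (by positivity)
      have e3 : (M : ℝ) / d * Q = M * (Q / d) := by ring
      have e4 : (M : ℝ) * ((Q : ℝ) / d + (2 * E + 3 * n + 15) * Real.sqrt Q) =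
          M * (Q / d) + M * (2 * Real.sqrt Q) * (E + n + 5) + M * ((n + 1) * Real.sqrt Q)
            + 4 * M * Real.sqrt Q := by ring
      rw [e4]
      have e5 : (0 : ℝ) ≤ 4 * M * Real.sqrt Q := by positivity
      nlinarith
    exact le_of_mul_le_mul_left h7 hMpos

end fin

end Pool.Agent.helper82.Weil
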