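import Mathlib
import Pool.Agent.helper82.Weil.D

set_option autoImplicit false

/-!
Stepanov's method, part E: the square root bound with a constant depending on the order.
-/

namespace Pool.Agent.helper82.Weil

open Polynomial

section fin
variable {K : Type*} [Field K] [Fintype K]

/-- `w ^ t = 1` implies that `w` is a `d`-th power. -/
lemma exists_pow_eq (t d : ℕ) (hd : 0 < d) (ht : 0 < t) (hQ : d * t + 1 = Fintype.card K)
    (w : Kˣ) (hw : w ^ t = 1) : ∃ u : Kˣ, w = u ^ d := by
  have hcard : Nat.card Kˣ = d * t := by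
    rw [Nat.card_units, Nat.card_eq_fintype_card]
    omega
  have h1 := IsCyclic.card_powMonoidHom_ker Kˣ t
  have h2 := IsCyclic.card_powMonoidHom_range Kˣ d
  rw [hcard] at h1 h2
  have hle : (powMonoidHom d : Kˣ →* Kˣ).range ≤ (powMonoidHom t : Kˣ →* Kˣ).ker := by
    rintro _ ⟨u, rfl⟩
    rw [MonoidHom.mem_ker]
    simp only [powMonoidHom_apply]
    rw [← pow_mul, ← hcard]
    exact pow_card_eq_one'
  have heq : (powMonoidHom d : Kˣ →* Kˣ).range = (powMonoidHom t : Kˣ →* Kˣ).ker := by
    apply Subgroup.eq_of_le_of_card_ge hle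
    rw [h1, h2, Nat.gcd_mul_left_left, Nat.gcd_mul_right_left, Nat.mul_div_cancel_left _ hd]
  have hwm : w ∈ (powMonoidHom t : Kˣ →* Kˣ).ker := by
    rw [MonoidHom.mem_ker]
    exact hw
  rw [← heq] at hwm
  obtain ⟨u, hu⟩ := hwm
  exact ⟨u, hu.symm⟩

/-- the number of `y ≠ 0` with `y ^ t = z ^ t` is `t`. -/
lemma card_pow_eq [DecidableEq K] (t d : ℕ) (ht : 0 < t) (hQ : d * t + 1 = Fintype.card K)
    (z : K) (hz : z ≠ 0) :
    (Finset.univ.filter (fun y : K => z ^ t = y ^ t)).card = t := by
  have hcard : Nat.card Kˣ = d * t := by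
    rw [Nat.card_units, Nat.card_eq_fintype_card]
    omega
  have h1 := IsCyclic.card_powMonoidHom_ker Kˣ t
  rw [hcard, Nat.gcd_mul_left_left] at h1
  have h2 : (Finset.univ.filter (fun y : K => z ^ t = y ^ t)).card =
      Nat.card ((powMonoidHom t : Kˣ →* Kˣ).ker) := by
    rw [Nat.card_eq_fintype_card, ← Finset.card_univ]
    symm
    refine Finset.card_bij (fun w _ => z * ((w : Kˣ) : K)) ?_ ?_ ?_
    · intro w _
      rw [Finset.mem_filter]
      refine ⟨Finset.mem_univ _, ?_⟩
      have hw := w.2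
      rw [MonoidHom.mem_ker] at hw
      simp only [powMonoidHom_apply] at hw
      rw [mul_pow, ← Units.val_pow_eq_pow_val, hw]
      simp
    · intro w _ w' _ h
      have h3 := mul_left_cancel₀ hz h
      exact Subtype.ext (Units.ext h3)
    · intro y hy
      rw [Finset.mem_filter] at hy
      have hy0 : y ≠ 0 := by
        rintro rfl
        have := hy.2
        rw [zero_pow (by omega)] at this
        exact pow_ne_zero _ hz this
      refine ⟨⟨Units.mk0 (z⁻¹ * y) (mul_ne_zero (inv_ne_zero hz) hy0), ?_⟩, Finset.mem_univ _, ?_⟩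
      · rw [MonoidHom.mem_ker]
        ext
        simp only [powMonoidHom_apply, Units.val_pow_eq_pow_val, Units.val_mk0, Units.val_one]
        rw [mul_pow, ← hy.2, ← mul_pow, inv_mul_cancel₀ hz, one_pow]
      · simp only [Units.val_mk0]
        rw [← mul_assoc, mul_inv_cancel₀ hz, one_mul]
  rw [h2, h1]

lemma chi_eq_of_pow_eq (t d : ℕ) (hd : 0 < d) (ht : 0 < t) (hQ : d * t + 1 = Fintype.card K)
    (ψ : MulChar K ℂ) (hψ : ψ ^ d = 1) (z y : K) (hz : z ≠ 0) (h : z ^ t = y ^ t) :
    ψ y = ψ z := by
  have hy0 : y ≠ 0 := by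
    rintro rfl
    rw [zero_pow (by omega)] at h
    exact pow_ne_zero _ hz h
  have hw : (Units.mk0 (z⁻¹ * y) (mul_ne_zero (inv_ne_zero hz) hy0)) ^ t = 1 := by
    ext
    simp only [Units.val_pow_eq_pow_val, Units.val_mk0, Units.val_one]
    rw [mul_pow, ← h, ← mul_pow, inv_mul_cancel₀ hz, one_pow]
  obtain ⟨u, hu⟩ := exists_pow_eq t d hd ht hQ _ hw
  have h1 : ψ (z⁻¹ * y) = 1 := by
    have e1 : z⁻¹ * y = ((u ^ d : Kˣ) : K) := by
      rw [← hu, Units.val_mk0]
    rw [e1, Units.val_pow_eq_pow_val, map_pow, ← MulChar.pow_apply_coe, hψ]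
    simp
  have e2 : y = z * (z⁻¹ * y) := by rw [← mul_assoc, mul_inv_cancel₀ hz, one_mul]
  rw [e2, map_mul, h1, mul_one]

lemma norm_char_le (d : ℕ) (hd : 0 < d) (ψ : MulChar K ℂ) (hψ : ψ ^ d = 1) (y : K) : ‖ψ y‖ ≤ 1 := by
  by_cases hy : y = 0
  · rw [hy, MulChar.map_zero]; simp
  · have : ψ y ^ d = 1 := by
      rw [← MulChar.pow_apply' ψ (by omega) y, hψ]
      exact MulChar.one_apply (isUnit_iff_ne_zero.mpr hy)
    rw [Complex.norm_eq_one_of_pow_eq_one this (by omega)]

open Classical in
lemma card_zeros_le (A : List (K × ℕ)) :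
    (Finset.univ.filter (fun x : K => x * eval x (W A) = 0)).card ≤ A.length + 1 := by
  have hsub : (Finset.univ.filter (fun x : K => x * eval x (W A) = 0)) ⊆
      insert 0 (A.map Prod.fst).toFinset := by
    intro x hx
    rw [Finset.mem_filter] at hx
    rw [Finset.mem_insert, List.mem_toFinset]
    rcases mul_eq_zero.mp hx.2 with h | h
    · left; exact h
    · right
      unfold W at h
      rw [eval_list_prod, List.map_map, List.prod_eq_zero_iff, List.mem_map] at h
      obtain ⟨ac, hac, h⟩ := h
      simp only [Function.comp_apply, eval_pow, eval_sub, eval_X, eval_C] at h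
      rw [List.mem_map]
      refine ⟨ac, hac, ?_⟩
      have h2 : x - ac.1 = 0 := by
        by_contra hne
        exact pow_ne_zero _ hne h
      exact (sub_eq_zero.mp h2).symm
  refine (Finset.card_le_card hsub).trans ?_
  refine (Finset.card_insert_le _ _).trans ?_
  have := List.toFinset_card_le (A.map Prod.fst)
  rw [List.length_map] at this
  omega

open Classical in
/-- Square root cancellation with a constant depending only on the order and the shape of the
polynomial, not on the field. -/
theorem stepanov_char (A : List (K × ℕ)) (hA : ∀ ac ∈ A, ac.1 ≠ 0) (t d : ℕ)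
    (hd : 0 < d) (ht : 0 < t) (hQ : d * t + 1 = Fintype.card K)
    (ψ : MulChar K ℂ) (hψ : ψ ^ d = 1) (hψ1 : ψ ≠ 1) :
    ‖∑ x : K, ψ (x * eval x (W A))‖ ≤
      d * (2 * (A.map Prod.snd).sum + 3 * A.length + 15) * Real.sqrt (Fintype.card K)
        + (A.length + 1) := by
  set Q := Fintype.card K with hQdef
  set C0 : ℝ := 2 * ((A.map Prod.snd).sum : ℕ) + 3 * A.length + 15 with hC0
  set f : K → K := fun x => x * eval x (W A) with hf
  set N : K → ℕ := fun y => (Finset.univ.filter (fun x : K => (f x) ^ t = y ^ t)).card with hN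
  set U : ℝ := (Q : ℝ) / d + C0 * Real.sqrt Q with hU
  have hNU : ∀ y, (N y : ℝ) ≤ U := fun y => stepanov_count A hA t d (y ^ t) hd ht hQ
  -- main identity
  have hmain : ∑ y : K, ψ y * (N y : ℂ) = t * ∑ x : K, ψ (f x) := by
    have h1 : ∀ y : K, ψ y * (N y : ℂ) = ∑ x : K, if (f x) ^ t = y ^ t then ψ y else 0 := by
      intro y
      rw [← Finset.sum_filter, Finset.sum_const, nsmul_eq_mul, mul_comm]
    simp_rw [h1]
    rw [Finset.sum_comm, Finset.mul_sum]
    refine Finset.sum_congr rfl fun x _ => ?_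
    by_cases hx : f x = 0
    · rw [hx, MulChar.map_zero, mul_zero]
      apply Finset.sum_eq_zero
      intro y _
      rw [zero_pow (by omega)]
      split_ifs with h
      · have hy : y = 0 := by
          by_contra hne
          exact pow_ne_zero _ hne h.symm
        rw [hy, MulChar.map_zero]
      · rfl
    · rw [← Finset.sum_filter]
      have h2 : ∀ y ∈ Finset.univ.filter (fun y : K => (f x) ^ t = y ^ t), ψ y = ψ (f x) := by
        intro y hy
        rw [Finset.mem_filter] at hy
        exact chi_eq_of_pow_eq t d hd ht hQ ψ hψ (f x) y hx hy.2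
      rw [Finset.sum_congr rfl h2, Finset.sum_const, card_pow_eq t d ht hQ (f x) hx, nsmul_eq_mul]
  -- subtract the constant
  have hsub : (t : ℂ) * ∑ x : K, ψ (f x) = ∑ y : K, ψ y * ((N y : ℂ) - (U : ℂ)) := by
    rw [← hmain]
    simp_rw [mul_sub]
    rw [Finset.sum_sub_distrib, ← Finset.sum_mul, MulChar.sum_eq_zero_of_ne_one hψ1, zero_mul,
      sub_zero]
  have hnorm : ‖∑ y : K, ψ y * ((N y : ℂ) - (U : ℂ))‖ ≤
      ∑ y ∈ Finset.univ.filter (fun y : K => y ≠ 0), (U - N y) := by
    rw [← Finset.sum_filter_add_sum_filter_not Finset.univ (fun y : K => y ≠ 0)]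
    have h0 : ∑ y ∈ Finset.univ.filter (fun y : K => ¬ y ≠ 0), ψ y * ((N y : ℂ) - (U : ℂ)) = 0 := by
      apply Finset.sum_eq_zero
      intro y hy
      rw [Finset.mem_filter] at hy
      have : y = 0 := by simpa using hy.2
      rw [this, MulChar.map_zero, zero_mul]
    rw [h0, add_zero]
    refine (norm_sum_le _ _).trans (Finset.sum_le_sum fun y _ => ?_)
    rw [norm_mul]
    have h1 := norm_char_le d hd ψ hψ y
    have h2 : ‖((N y : ℂ) - (U : ℂ))‖ = U - N y := by
      rw [← Complex.ofReal_natCast, ← Complex.ofReal_sub, Complex.norm_real, Real.norm_eq_abs,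
        abs_sub_comm, abs_of_nonneg]
      linarith [hNU y]
    rw [h2]
    have h3 : 0 ≤ U - N y := by linarith [hNU y]
    nlinarith
  have hcnt : ((Finset.univ.filter (fun y : K => y ≠ 0)).card : ℝ) = Q - 1 := by
    have h1 : (Finset.univ.filter (fun y : K => y ≠ 0)).card + 1 = Q := by
      have : Finset.univ.filter (fun y : K => y ≠ 0) = Finset.univ.erase 0 := by
        ext y; simp
      rw [this]
      exact Finset.card_erase_add_one (Finset.mem_univ _)
    have h2 : ((Finset.univ.filter (fun y : K => y ≠ 0)).card : ℝ) + 1 = Q := by exact_mod_cast h1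
    linarith
  have hsumN : (t : ℝ) * ((Q : ℝ) - (A.length + 1)) ≤
      ∑ y ∈ Finset.univ.filter (fun y : K => y ≠ 0), (N y : ℝ) := by
    have h1 : ∑ y ∈ Finset.univ.filter (fun y : K => y ≠ 0), N y =
        t * (Finset.univ.filter (fun x : K => f x ≠ 0)).card := by
      have h2 : ∀ y : K, N y = ∑ x : K, if (f x) ^ t = y ^ t then 1 else 0 := by
        intro y
        rw [Finset.sum_boole]
        rfl
      simp_rw [h2]
      rw [Finset.sum_comm]
      rw [mul_comm, ← smul_eq_mul, ← Finset.sum_const, Finset.sum_filter]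
      refine Finset.sum_congr rfl fun x _ => ?_
      by_cases hx : f x = 0
      · rw [if_neg (by simpa using hx)]
        apply Finset.sum_eq_zero
        intro y hy
        rw [Finset.mem_filter] at hy
        rw [if_neg]
        rw [hx, zero_pow (by omega)]
        exact (pow_ne_zero _ hy.2).symm
      · rw [if_pos hx, Finset.sum_boole]
        simp only [Nat.cast_id]
        refine Eq.trans ?_ (card_pow_eq t d ht hQ (f x) hx)
        congr 1
        ext y
        simp only [Finset.mem_filter, Finset.mem_univ, true_and]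
        constructor
        · rintro ⟨_, h⟩; exact h
        · intro h
          refine ⟨?_, h⟩
          rintro rfl
          rw [zero_pow (by omega)] at h
          exact pow_ne_zero _ hx h
    have h3 : (Q : ℝ) - (A.length + 1) ≤ ((Finset.univ.filter (fun x : K => f x ≠ 0)).card : ℝ) := by
      have h4 := card_zeros_le A
      have h5 := Finset.card_filter_add_card_filter_not (s := (Finset.univ : Finset K)) (fun x : K => f x = 0)
      rw [Finset.card_univ, ← hQdef] at h5
      have h6 : Q ≤ (A.length + 1) + (Finset.univ.filter (fun x : K => f x ≠ 0)).card := by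
        simp only [hf, ne_eq] at h5 ⊢
        omega
      have h7 : (Q : ℝ) ≤ (A.length + 1) + ((Finset.univ.filter (fun x : K => f x ≠ 0)).card : ℝ) := by
        exact_mod_cast h6
      linarith
    have h8 : ∑ y ∈ Finset.univ.filter (fun y : K => y ≠ 0), (N y : ℝ) =
        t * ((Finset.univ.filter (fun x : K => f x ≠ 0)).card : ℝ) := by
      exact_mod_cast h1
    rw [h8]
    exact mul_le_mul_of_nonneg_left h3 (by positivity)
  have htR : (0 : ℝ) < t := by exact_mod_cast ht
  have hdR : (0 : ℝ) < d := by exact_mod_cast hd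
  have hQR : (Q : ℝ) = d * t + 1 := by exact_mod_cast hQ.symm
  have hfin : (t : ℝ) * ‖∑ x : K, ψ (f x)‖ ≤
      t * (d * C0 * Real.sqrt Q + (A.length + 1)) := by
    have e1 : (t : ℝ) * ‖∑ x : K, ψ (f x)‖ = ‖(t : ℂ) * ∑ x : K, ψ (f x)‖ := by
      rw [norm_mul]
      simp
    rw [e1, hsub]
    refine hnorm.trans ?_
    rw [Finset.sum_sub_distrib, Finset.sum_const, nsmul_eq_mul, hcnt]
    have e2 : ((Q : ℝ) - 1) * U = t * Q + t * (d * C0 * Real.sqrt Q) := by
      rw [hU, hQR]
      field_simp
      ring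
    rw [e2]
    have e3 : t * (d * C0 * Real.sqrt Q + (A.length + 1)) = t * Q + t * (d * C0 * Real.sqrt Q)
      - t * ((Q : ℝ) - (A.length + 1)) := by ring
    rw [e3]
    linarith
  exact le_of_mul_le_mul_left hfin htR

end fin

end Pool.Agent.helper82.Weil
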