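import Mathlib
import Pool.Agent.helper82.Weil.E

set_option autoImplicit false

/-!
L-functions, part F: monic polynomials, the completely multiplicative function, vanishing of the
high coefficients.
-/

namespace Pool.Agent.helper82.Weil

open Polynomial

section fin
variable {k : Type*} [Field k] [Fintype k]

lemma finite_monic_natDegree (n : ℕ) : {g : k[X] | g.Monic ∧ g.natDegree = n}.Finite := by
  have h1 : Finite (degreeLT k (n + 1)) := Finite.of_equiv _ (degreeLTEquiv k (n + 1)).toEquiv.symm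
  refine (Set.toFinite (degreeLT k (n + 1) : Set k[X])).subset ?_
  rintro g ⟨_, hg⟩
  rw [SetLike.mem_coe, mem_degreeLT]
  refine lt_of_le_of_lt degree_le_natDegree ?_
  rw [hg]
  exact_mod_cast Nat.lt_succ_self n

variable (k) in
/-- monic polynomials of degree `n`. -/
noncomputable def Mon (n : ℕ) : Finset k[X] := (finite_monic_natDegree (k := k) n).toFinset

lemma mem_Mon {n : ℕ} {g : k[X]} : g ∈ Mon k n ↔ g.Monic ∧ g.natDegree = n := by
  simp [Mon]

/-- The resultant-like quantity `∏ ((-1)^deg g * g(a))^c`. -/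
noncomputable def Res (A : List (k × ℕ)) (g : k[X]) : k :=
  (A.map (fun ac => ((-1) ^ g.natDegree * eval ac.1 g) ^ ac.2)).prod

lemma Res_mul (A : List (k × ℕ)) (g h : k[X]) (hg : g.Monic) (hh : h.Monic) :
    Res A (g * h) = Res A g * Res A h := by
  unfold Res
  rw [hg.natDegree_mul hh, ← List.prod_map_mul]
  congr 1
  apply List.map_congr_left
  intro ac _
  rw [eval_mul, ← mul_pow, pow_add]
  congr 1
  ring

lemma Res_one (A : List (k × ℕ)) : Res A 1 = 1 := by
  unfold Res
  simp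

/-- The completely multiplicative function on monic polynomials. -/
noncomputable def Lam (χ : MulChar k ℂ) (A : List (k × ℕ)) (g : k[X]) : ℂ := χ (Res A g)

lemma Lam_mul (χ : MulChar k ℂ) (A : List (k × ℕ)) (g h : k[X]) (hg : g.Monic) (hh : h.Monic) :
    Lam χ A (g * h) = Lam χ A g * Lam χ A h := by
  unfold Lam
  rw [Res_mul A g h hg hh, map_mul]

lemma Lam_one (χ : MulChar k ℂ) (A : List (k × ℕ)) : Lam χ A 1 = 1 := by
  unfold Lam
  rw [Res_one, map_one]

lemma Lam_pow (χ : MulChar k ℂ) (A : List (k × ℕ)) (g : k[X]) (hg : g.Monic) (n : ℕ) :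
    Lam χ A (g ^ n) = (Lam χ A g) ^ n := by
  induction n with
  | zero => rw [pow_zero, pow_zero, Lam_one]
  | succ n ih => rw [pow_succ, pow_succ, Lam_mul χ A _ _ (hg.pow n) hg, ih]

/-- coefficients of the L-function -/
noncomputable def cc (χ : MulChar k ℂ) (A : List (k × ℕ)) (n : ℕ) : ℂ := ∑ g ∈ Mon k n, Lam χ A g

lemma cc_zero (χ : MulChar k ℂ) (A : List (k × ℕ)) : cc χ A 0 = 1 := by
  unfold cc
  have : Mon k 0 = {1} := by
    ext g
    rw [mem_Mon, Finset.mem_singleton]
    constructor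
    · rintro ⟨h1, h2⟩
      exact (Monic.natDegree_eq_zero h1).mp h2
    · rintro rfl
      exact ⟨monic_one, natDegree_one⟩
  rw [this, Finset.sum_singleton, Lam_one]

lemma Res_X_sub_C (A : List (k × ℕ)) (x : k) : Res A (X - C x) = eval x (W A) := by
  unfold Res W
  rw [eval_list_prod, List.map_map]
  congr 1
  apply List.map_congr_left
  intro ac _
  simp

lemma cc_one (χ : MulChar k ℂ) (A : List (k × ℕ)) : cc χ A 1 = ∑ x : k, χ (eval x (W A)) := by
  unfold cc
  symm
  refine Finset.sum_bij (fun x _ => X - C x) ?_ ?_ ?_ ?_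
  · intro x _
    rw [mem_Mon]
    exact ⟨monic_X_sub_C x, natDegree_X_sub_C x⟩
  · intro x _ y _ h
    have := congrArg (eval 0) h
    simpa using this
  · intro g hg
    rw [mem_Mon] at hg
    refine ⟨- g.coeff 0, Finset.mem_univ _, ?_⟩
    have h1 := hg.1.as_sum
    rw [hg.2] at h1
    rw [h1]
    simp
  · intro x _
    unfold Lam
    rw [Res_X_sub_C]

/-- the interpolation polynomial -/
noncomputable def ell (A : List (k × ℕ)) : k[X] := C ((eval 0 (FF A))⁻¹) * FF A

lemma eval_zero_FF_ne (A : List (k × ℕ)) (hA : ∀ ac ∈ A, ac.1 ≠ 0) : eval 0 (FF A) ≠ 0 := by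
  unfold FF
  rw [eval_list_prod, List.map_map]
  apply List.prod_ne_zero
  rw [List.mem_map]
  rintro ⟨ac, hac, h⟩
  simp only [Function.comp_apply, eval_sub, eval_X, eval_C, zero_sub] at h
  exact (neg_ne_zero.mpr (hA ac hac)) h

lemma eval_zero_ell (A : List (k × ℕ)) (hA : ∀ ac ∈ A, ac.1 ≠ 0) : eval 0 (ell A) = 1 := by
  unfold ell
  rw [eval_mul, eval_C, inv_mul_cancel₀ (eval_zero_FF_ne A hA)]

lemma eval_ell (A : List (k × ℕ)) (ac : k × ℕ) (hac : ac ∈ A) : eval ac.1 (ell A) = 0 := by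
  have h : eval ac.1 (FF A) = 0 := by
    unfold FF
    rw [eval_list_prod, List.map_map]
    apply List.prod_eq_zero
    rw [List.mem_map]
    exact ⟨ac, hac, by simp⟩
  unfold ell
  rw [eval_mul, h, mul_zero]

lemma natDegree_ell_le (A : List (k × ℕ)) : (ell A).natDegree ≤ A.length := by
  unfold ell
  refine natDegree_mul_le.trans ?_
  rw [natDegree_C, zero_add]
  exact natDegree_FF_le A

/-- the shift map -/
noncomputable def phi (A : List (k × ℕ)) (lam : k) (g : k[X]) : k[X] :=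
  g + C ((lam - 1) * eval 0 g) * ell A

lemma phi_mem (A : List (k × ℕ)) (lam : k) (n : ℕ) (hn : A.length < n) (g : k[X])
    (hg : g ∈ Mon k n) : phi A lam g ∈ Mon k n := by
  rw [mem_Mon] at hg ⊢
  obtain ⟨hm, hd⟩ := hg
  have hlt : (C ((lam - 1) * eval 0 g) * ell A).natDegree < n := by
    refine lt_of_le_of_lt natDegree_mul_le ?_
    rw [natDegree_C, zero_add]
    exact lt_of_le_of_lt (natDegree_ell_le A) hn
  have hdeg : (C ((lam - 1) * eval 0 g) * ell A).degree < g.degree := by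
    apply degree_lt_degree
    rw [hd]; exact hlt
  refine ⟨hm.add_of_left hdeg, ?_⟩
  unfold phi
  rw [natDegree_add_eq_left_of_degree_lt hdeg, hd]

lemma eval_zero_phi (A : List (k × ℕ)) (hA : ∀ ac ∈ A, ac.1 ≠ 0) (lam : k) (g : k[X]) :
    eval 0 (phi A lam g) = lam * eval 0 g := by
  unfold phi
  rw [eval_add, eval_mul, eval_C, eval_zero_ell A hA]
  ring

lemma eval_phi (A : List (k × ℕ)) (lam : k) (g : k[X]) (ac : k × ℕ) (hac : ac ∈ A) :
    eval ac.1 (phi A lam g) = eval ac.1 g := by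
  unfold phi
  rw [eval_add, eval_mul, eval_ell A ac hac, mul_zero, add_zero]

lemma phi_phi (A : List (k × ℕ)) (hA : ∀ ac ∈ A, ac.1 ≠ 0) (lam mu : k) (h : mu * lam = 1)
    (g : k[X]) : phi A mu (phi A lam g) = g := by
  have h1 : phi A mu (phi A lam g) = phi A lam g + C ((mu - 1) * eval 0 (phi A lam g)) * ell A := rfl
  rw [h1, eval_zero_phi A hA]
  unfold phi
  have h2 : (mu - 1) * (lam * eval 0 g) = - ((lam - 1) * eval 0 g) := by
    linear_combination (eval 0 g) * h
  rw [h2, C_neg]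
  ring

lemma Res_phi (A : List (k × ℕ)) (hA : ∀ ac ∈ A, ac.1 ≠ 0) (lam : k) (n : ℕ) (hn : A.length < n)
    (g : k[X]) (hg : g ∈ Mon k n) :
    Res ((0, 1) :: A) (phi A lam g) = lam * Res ((0, 1) :: A) g := by
  have h1 := (mem_Mon.mp (phi_mem A lam n hn g hg)).2
  have h2 := (mem_Mon.mp hg).2
  unfold Res
  rw [h1, h2]
  simp only [List.map_cons, List.prod_cons, pow_one]
  rw [eval_zero_phi A hA]
  have h3 : List.map (fun ac : k × ℕ => ((-1) ^ n * eval ac.1 (phi A lam g)) ^ ac.2) A =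
      List.map (fun ac : k × ℕ => ((-1) ^ n * eval ac.1 g) ^ ac.2) A := by
    apply List.map_congr_left
    intro ac hac
    rw [eval_phi A lam g ac hac]
  rw [h3]
  ring

lemma cc_eq_zero (χ : MulChar k ℂ) (hχ : χ ≠ 1) (A : List (k × ℕ)) (hA : ∀ ac ∈ A, ac.1 ≠ 0)
    (n : ℕ) (hn : A.length < n) : cc χ ((0, 1) :: A) n = 0 := by
  obtain ⟨u, hu⟩ := (MulChar.ne_one_iff).mp hχ
  have h1 : cc χ ((0, 1) :: A) n = χ u * cc χ ((0, 1) :: A) n := by
    conv_rhs => rw [cc, Finset.mul_sum]
    rw [cc]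
    symm
    refine Finset.sum_bij' (fun g _ => phi A (u : k) g) (fun g _ => phi A ((u⁻¹ : kˣ) : k) g)
      ?_ ?_ ?_ ?_ ?_
    · intro g hg; exact phi_mem A _ n hn g hg
    · intro g hg; exact phi_mem A _ n hn g hg
    · intro g _; exact phi_phi A hA _ _ (by simp) g
    · intro g _; exact phi_phi A hA _ _ (by simp) g
    · intro g hg
      unfold Lam
      rw [Res_phi A hA _ n hn g hg, map_mul]
  have h2 : (χ u - 1) * cc χ ((0, 1) :: A) n = 0 := by
    rw [sub_mul, one_mul, ← h1, sub_self]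
  rcases mul_eq_zero.mp h2 with h | h
  · exact absurd (sub_eq_zero.mp h) hu
  · exact h

end fin

end Pool.Agent.helper82.Weil
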