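import Mathlib
import Pool.Agent.helper82.Weil.F

set_option autoImplicit false

/-!
L-functions, part G: the identity `n c_n = ∑ S_r c_{n-r}`.
-/

namespace Pool.Agent.helper82.Weil

open Polynomial UniqueFactorizationMonoid

section fin
variable {k : Type*} [Field k] [Fintype k]

variable (k) in
/-- monic irreducible polynomials of degree `s`. -/
noncomputable def Irr (s : ℕ) : Finset k[X] :=
  @Finset.filter k[X] (fun P => Irreducible P) (Classical.decPred _) (Mon k s)

lemma mem_Irr {s : ℕ} {P : k[X]} : P ∈ Irr k s ↔ (P.Monic ∧ P.natDegree = s) ∧ Irreducible P := by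
  classical
  unfold Irr
  rw [Finset.mem_filter, mem_Mon]

/-- Sums over closed points. -/
noncomputable def SS (χ : MulChar k ℂ) (A : List (k × ℕ)) (r : ℕ) : ℂ :=
  ∑ x ∈ r.divisorsAntidiagonal, ∑ P ∈ Irr k x.1, (x.1 : ℂ) * (Lam χ A P) ^ x.2

open Classical in
lemma deg_sum (n : ℕ) (g : k[X]) (hg : g ∈ Mon k n) :
    ∑ s ∈ Finset.Icc 1 n, ∑ P ∈ Irr k s, ∑ j ∈ Finset.Icc 1 n, (if P ^ j ∣ g then s else 0) = n := by
  rw [mem_Mon] at hg
  obtain ⟨hm, hd⟩ := hg
  have hg0 : g ≠ 0 := hm.ne_zero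
  have hmon : ∀ P ∈ normalizedFactors g, P.Monic := by
    intro P hP
    rw [← normalize_normalized_factor P hP]
    exact monic_normalize (irreducible_of_normalized_factor P hP).ne_zero
  have hprod : (normalizedFactors g).prod = g := by
    apply eq_of_monic_of_associated _ hm (prod_normalizedFactors hg0)
    have := monic_multiset_prod_of_monic (normalizedFactors g) (fun x => x) hmon
    simpa using this
  have hdeg : ((normalizedFactors g).map natDegree).sum = n := by
    rw [← natDegree_multiset_prod_of_monic _ hmon, hprod, hd]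
  -- disjoint union
  have hdis : (↑(Finset.Icc 1 n) : Set ℕ).PairwiseDisjoint (Irr k) := by
    intro s _ s' _ hne
    rw [Function.onFun, Finset.disjoint_left]
    intro P hP hP'
    rw [mem_Irr] at hP hP'
    exact hne (hP.1.2.symm.trans hP'.1.2)
  have h1 : ∑ s ∈ Finset.Icc 1 n, ∑ P ∈ Irr k s, ∑ j ∈ Finset.Icc 1 n, (if P ^ j ∣ g then s else 0) =
      ∑ P ∈ (Finset.Icc 1 n).biUnion (Irr k),
        ∑ j ∈ Finset.Icc 1 n, (if P ^ j ∣ g then P.natDegree else 0) := by
    rw [Finset.sum_biUnion hdis]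
    refine Finset.sum_congr rfl fun s _ => Finset.sum_congr rfl fun P hP => ?_
    rw [mem_Irr] at hP
    rw [hP.1.2]
  rw [h1]
  have hsub : (normalizedFactors g).toFinset ⊆ (Finset.Icc 1 n).biUnion (Irr k) := by
    intro P hP
    rw [Multiset.mem_toFinset] at hP
    rw [Finset.mem_biUnion]
    have hirr := irreducible_of_normalized_factor P hP
    refine ⟨P.natDegree, ?_, ?_⟩
    · rw [Finset.mem_Icc]
      refine ⟨hirr.natDegree_pos, ?_⟩
      rw [← hd]
      exact natDegree_le_of_dvd (dvd_of_mem_normalizedFactors hP) hg0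
    · rw [mem_Irr]
      exact ⟨⟨hmon P hP, rfl⟩, hirr⟩
  have hcount : ∀ P ∈ (Finset.Icc 1 n).biUnion (Irr k),
      ∑ j ∈ Finset.Icc 1 n, (if P ^ j ∣ g then P.natDegree else 0) =
        (normalizedFactors g).count P • P.natDegree := by
    intro P hP
    rw [Finset.mem_biUnion] at hP
    obtain ⟨s, hs, hP⟩ := hP
    rw [mem_Irr] at hP
    obtain ⟨⟨hPm, hPd⟩, hPi⟩ := hP
    have h2 : ∀ j, P ^ j ∣ g ↔ j ≤ (normalizedFactors g).count P := by
      intro j
      rw [pow_dvd_iff_le_emultiplicity, emultiplicity_eq_count_normalizedFactors hPi hg0,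
        hPm.normalize_eq_self]
      exact Nat.cast_le
    have hle : (normalizedFactors g).count P ≤ n := by
      have h3 : P ^ ((normalizedFactors g).count P) ∣ g := (h2 _).mpr le_rfl
      have h4 := natDegree_le_of_dvd h3 hg0
      rw [natDegree_pow, hd] at h4
      have h5 : 1 ≤ P.natDegree := hPi.natDegree_pos
      exact (Nat.le_mul_of_pos_right _ h5).trans h4
    rw [← Finset.sum_filter, Finset.sum_const]
    congr 1
    have h6 : (Finset.Icc 1 n).filter (fun j => P ^ j ∣ g) =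
        Finset.Icc 1 ((normalizedFactors g).count P) := by
      ext j
      simp only [Finset.mem_filter, Finset.mem_Icc, h2]
      constructor
      · rintro ⟨⟨a, b⟩, c⟩; exact ⟨a, c⟩
      · rintro ⟨a, b⟩; exact ⟨⟨a, b.trans hle⟩, b⟩
    rw [h6, Nat.card_Icc]
    omega
  rw [Finset.sum_congr rfl hcount, ← Finset.sum_subset hsub, ← Finset.sum_multiset_map_count, hdeg]
  intro P _ hP
  rw [Multiset.mem_toFinset] at hP
  rw [Multiset.count_eq_zero_of_notMem hP, zero_smul]

open Classical in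
lemma inner_sum (χ : MulChar k ℂ) (A : List (k × ℕ)) (n s j : ℕ) (P : k[X]) (hP : P ∈ Irr k s) :
    ∑ g ∈ Mon k n, (if P ^ j ∣ g then Lam χ A g else 0) =
      if s * j ≤ n then (Lam χ A P) ^ j * cc χ A (n - s * j) else 0 := by
  rw [mem_Irr] at hP
  obtain ⟨⟨hPm, hPd⟩, hPi⟩ := hP
  have hPjm : (P ^ j).Monic := hPm.pow j
  have hPjd : (P ^ j).natDegree = s * j := by
    rw [natDegree_pow, hPd, mul_comm]
  rw [← Finset.sum_filter]
  split_ifs with h
  · rw [cc, Finset.mul_sum]
    symm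
    refine Finset.sum_bij (fun h _ => P ^ j * h) ?_ ?_ ?_ ?_
    · intro f hf
      rw [mem_Mon] at hf
      rw [Finset.mem_filter, mem_Mon]
      refine ⟨⟨hPjm.mul hf.1, ?_⟩, dvd_mul_right _ _⟩
      rw [hPjm.natDegree_mul hf.1, hPjd, hf.2]
      omega
    · intro f _ f' _ heq
      exact mul_left_cancel₀ hPjm.ne_zero heq
    · intro g hg
      rw [Finset.mem_filter, mem_Mon] at hg
      obtain ⟨⟨hgm, hgd⟩, f, hf⟩ := hg
      have hfm : f.Monic := Monic.of_mul_monic_left hPjm (by rw [← hf]; exact hgm)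
      refine ⟨f, ?_, hf.symm⟩
      rw [mem_Mon]
      refine ⟨hfm, ?_⟩
      have h1 := hPjm.natDegree_mul hfm
      rw [← hf, hgd, hPjd] at h1
      omega
    · intro f hf
      rw [mem_Mon] at hf
      rw [Lam_mul χ A _ _ hPjm hf.1, Lam_pow χ A P hPm]
  · rw [Finset.filter_false_of_mem, Finset.sum_empty]
    intro g hg hdvd
    rw [mem_Mon] at hg
    have := natDegree_le_of_dvd hdvd hg.1.ne_zero
    rw [hPjd, hg.2] at this
    exact h this

theorem newton (χ : MulChar k ℂ) (A : List (k × ℕ)) (n : ℕ) :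
    (n : ℂ) * cc χ A n = ∑ r ∈ Finset.Icc 1 n, SS χ A r * cc χ A (n - r) := by
  classical
  set G : ℕ → ℕ → ℂ := fun s j => ∑ P ∈ Irr k s, (s : ℂ) * (Lam χ A P) ^ j * cc χ A (n - s * j) with hG
  have h1 : (n : ℂ) * cc χ A n =
      ∑ s ∈ Finset.Icc 1 n, ∑ j ∈ Finset.Icc 1 n, (if s * j ≤ n then G s j else 0) := by
    rw [cc, Finset.mul_sum]
    have h2 : ∀ g ∈ Mon k n, (n : ℂ) * Lam χ A g = ∑ s ∈ Finset.Icc 1 n, ∑ P ∈ Irr k s,
        ∑ j ∈ Finset.Icc 1 n, (s : ℂ) * (if P ^ j ∣ g then Lam χ A g else 0) := by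
      intro g hg
      have h3 := deg_sum n g hg
      have h4 : (n : ℂ) = ∑ s ∈ Finset.Icc 1 n, ∑ P ∈ Irr k s,
          ∑ j ∈ Finset.Icc 1 n, (if P ^ j ∣ g then (s : ℂ) else 0) := by
        conv_lhs => rw [← h3]
        push_cast
        rfl
      rw [h4]
      simp only [Finset.sum_mul]
      refine Finset.sum_congr rfl fun s _ => Finset.sum_congr rfl fun P _ =>
        Finset.sum_congr rfl fun j _ => ?_
      split_ifs <;> simp
    rw [Finset.sum_congr rfl h2, Finset.sum_comm]
    refine Finset.sum_congr rfl fun s _ => ?_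
    rw [Finset.sum_comm]
    have h5 : ∀ P ∈ Irr k s, ∑ g ∈ Mon k n, ∑ j ∈ Finset.Icc 1 n,
        (s : ℂ) * (if P ^ j ∣ g then Lam χ A g else 0) = ∑ j ∈ Finset.Icc 1 n,
          (if s * j ≤ n then (s : ℂ) * (Lam χ A P) ^ j * cc χ A (n - s * j) else 0) := by
      intro P hP
      rw [Finset.sum_comm]
      refine Finset.sum_congr rfl fun j _ => ?_
      rw [← Finset.mul_sum, inner_sum χ A n s j P hP]
      split_ifs
      · ring
      · simp
    rw [Finset.sum_congr rfl h5, Finset.sum_comm]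
    refine Finset.sum_congr rfl fun j _ => ?_
    split_ifs
    · rfl
    · simp
  rw [h1]
  have h6 : ∀ r ∈ Finset.Icc 1 n, SS χ A r * cc χ A (n - r) =
      ∑ x ∈ r.divisorsAntidiagonal, G x.1 x.2 := by
    intro r _
    rw [SS, Finset.sum_mul]
    refine Finset.sum_congr rfl fun x hx => ?_
    rw [Nat.mem_divisorsAntidiagonal] at hx
    rw [Finset.sum_mul]
    simp only [hG, hx.1]
  rw [Finset.sum_congr rfl h6]
  rw [← Finset.sum_product', ← Finset.sum_filter]
  rw [← Finset.sum_fiberwise_of_maps_to (s := (Finset.Icc 1 n ×ˢ Finset.Icc 1 n).filter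
    (fun x : ℕ × ℕ => x.1 * x.2 ≤ n)) (t := Finset.Icc 1 n) (g := fun x : ℕ × ℕ => x.1 * x.2)]
  · refine Finset.sum_congr rfl fun r hr => ?_
    rw [Finset.mem_Icc] at hr
    refine Finset.sum_congr ?_ fun _ _ => rfl
    ext x
    simp only [Finset.mem_filter, Finset.mem_product, Finset.mem_Icc, Nat.mem_divisorsAntidiagonal]
    constructor
    · rintro ⟨_, h⟩
      exact ⟨h, by omega⟩
    · rintro ⟨h, _⟩
      have h1 : 0 < x.1 := by
        rcases Nat.eq_zero_or_pos x.1 with h0 | h0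
        · rw [h0, zero_mul] at h; omega
        · exact h0
      have h2 : 0 < x.2 := by
        rcases Nat.eq_zero_or_pos x.2 with h0 | h0
        · rw [h0, mul_zero] at h; omega
        · exact h0
      have h3 : x.1 ≤ x.1 * x.2 := Nat.le_mul_of_pos_right _ h2
      have h4 : x.2 ≤ x.1 * x.2 := Nat.le_mul_of_pos_left _ h1
      omega
  · intro x hx
    simp only [Finset.mem_filter, Finset.mem_product, Finset.mem_Icc] at hx
    rw [Finset.mem_Icc]
    exact ⟨Nat.mul_pos hx.1.1.1 hx.1.2.1, hx.2⟩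

end fin

end Pool.Agent.helper82.Weil
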