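import Mathlib
import Pool.Agent.helper82.Weil.G

set_option autoImplicit false

/-!
L-functions, part H: the sums over closed points are character sums over extension fields.
-/

namespace Pool.Agent.helper82.Weil

open Polynomial

section ext
variable {k : Type*} [Field k] [Fintype k] {K : Type*} [Field K] [Fintype K] [Algebra k K]

open IntermediateField in
lemma norm_sub_algebraMap (x : K) (a : k) :
    Algebra.norm k (x - algebraMap k K a) =
      ((-1) ^ (minpoly k x).natDegree * eval a (minpoly k x)) ^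
        (Module.finrank k K / (minpoly k x).natDegree) := by
  set y : K := x - algebraMap k K a with hy
  have hint : IsIntegral k y := Algebra.IsIntegral.isIntegral y
  have hmin : minpoly k y = (minpoly k x).comp (X + C a) := minpoly.sub_algebraMap x a
  have hdeg : (minpoly k y).natDegree = (minpoly k x).natDegree := by
    rw [hmin, natDegree_comp, natDegree_X_add_C, mul_one]
  have hco : (minpoly k y).coeff 0 = eval a (minpoly k x) := by
    rw [hmin, coeff_zero_eq_eval_zero, eval_comp]
    simp
  have hpos : 0 < (minpoly k x).natDegree := minpoly.natDegree_pos (Algebra.IsIntegral.isIntegral x)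
  rw [Algebra.norm_eq_norm_adjoin k y]
  have h1 := Algebra.PowerBasis.norm_gen_eq_coeff_zero_minpoly (adjoin.powerBasis hint)
  rw [adjoin.powerBasis_gen, adjoin.powerBasis_dim, minpoly_gen, hdeg, hco] at h1
  rw [h1]
  congr 1
  have h2 := Module.finrank_mul_finrank k k⟮y⟯ K
  rw [adjoin.finrank hint, hdeg] at h2
  rw [← h2, Nat.mul_div_cancel_left _ hpos]

/-- base change of the list -/
def mapL (K : Type*) [Field K] [Algebra k K] (A : List (k × ℕ)) : List (K × ℕ) :=
  A.map (fun ac => (algebraMap k K ac.1, ac.2))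

lemma norm_eval_W (A : List (k × ℕ)) (x : K) :
    Algebra.norm k (eval x (W (mapL K A))) =
      (Res A (minpoly k x)) ^ (Module.finrank k K / (minpoly k x).natDegree) := by
  induction A with
  | nil => simp [W, mapL, Res]
  | cons ac A ih =>
    have h1 : eval x (W (mapL K (ac :: A))) =
        (x - algebraMap k K ac.1) ^ ac.2 * eval x (W (mapL K A)) := by
      simp [W, mapL]
    have h2 : Res (ac :: A) (minpoly k x) =
        ((-1) ^ (minpoly k x).natDegree * eval ac.1 (minpoly k x)) ^ ac.2 * Res A (minpoly k x) := by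
      simp [Res]
    have key : ∀ (u v : k) (e c : ℕ), (u ^ e) ^ c * v ^ e = (u ^ c * v) ^ e := by
      intro u v e c
      rw [mul_pow, ← pow_mul, ← pow_mul, Nat.mul_comm e c]
    rw [h1, h2, map_mul, map_pow, ih, norm_sub_algebraMap, key]

lemma char_norm_eval (χ : MulChar k ℂ) (A : List (k × ℕ)) (x : K) :
    χ (Algebra.norm k (eval x (W (mapL K A)))) =
      (Lam χ A (minpoly k x)) ^ (Module.finrank k K / (minpoly k x).natDegree) := by
  rw [norm_eval_W, map_pow]
  rfl

open Classical in
lemma card_fiber (P : k[X]) (s : ℕ) (hP : P ∈ Irr k s) (hs : s ∣ Module.finrank k K) :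
    (Finset.univ.filter (fun x : K => minpoly k x = P)).card = s := by
  rw [mem_Irr] at hP
  obtain ⟨⟨hm, hd⟩, hi⟩ := hP
  have hsep : P.Separable := PerfectField.separable_of_irreducible hi
  have hdvd : P ∣ X ^ Fintype.card K - X := by
    have h1 := (hi.natDegree_dvd_iff_dvd_X_pow_card_pow_sub_X (n := Module.finrank k K)).mp
      (by rw [hd]; exact hs)
    rw [Nat.card_eq_fintype_card, ← Module.card_eq_pow_finrank] at h1
    exact h1
  have hcard : 1 < Fintype.card K := Fintype.one_lt_card
  have hspl : (P.map (algebraMap k K)).Splits := by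
    have h2 := (FiniteField.isSplittingField_sub K k).splits
    refine h2.of_dvd ?_ (Polynomial.map_dvd _ hdvd)
    rw [Polynomial.map_sub, Polynomial.map_pow, map_X]
    exact FiniteField.X_pow_card_sub_X_ne_zero K hcard
  have h3 := card_rootSet_eq_natDegree hsep hspl
  rw [← hd, ← h3, ← Set.toFinset_card]
  congr 1
  ext x
  simp only [Finset.mem_filter, Finset.mem_univ, true_and, Set.mem_toFinset, mem_rootSet]
  constructor
  · rintro rfl
    exact ⟨hm.ne_zero, minpoly.aeval k x⟩
  · rintro ⟨_, h⟩
    exact (minpoly.eq_of_irreducible_of_monic hi h hm).symm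

theorem SS_eq (χ : MulChar k ℂ) (A : List (k × ℕ)) (r : ℕ) (hr : Module.finrank k K = r) :
    SS χ A r = ∑ x : K, χ (Algebra.norm k (eval x (W (mapL K A)))) := by
  classical
  have hr0 : 0 < r := by rw [← hr]; exact Module.finrank_pos
  simp_rw [char_norm_eval]
  rw [SS]
  -- fibre over the minimal polynomial
  have hdeg : ∀ x : K, (minpoly k x).natDegree ∣ r := by
    intro x
    rw [← hr]
    exact minpoly.degree_dvd (Algebra.IsIntegral.isIntegral x)
  have hirr : ∀ x : K, minpoly k x ∈ Irr k (minpoly k x).natDegree := by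
    intro x
    rw [mem_Irr]
    exact ⟨⟨minpoly.monic (Algebra.IsIntegral.isIntegral x), rfl⟩,
      minpoly.irreducible (Algebra.IsIntegral.isIntegral x)⟩
  have h1 : ∑ x ∈ r.divisorsAntidiagonal, ∑ P ∈ Irr k x.1, (x.1 : ℂ) * (Lam χ A P) ^ x.2 =
      ∑ s ∈ r.divisors, ∑ P ∈ Irr k s, (s : ℂ) * (Lam χ A P) ^ (r / s) := by
    rw [Nat.sum_divisorsAntidiagonal (fun a b => ∑ P ∈ Irr k a, (a : ℂ) * (Lam χ A P) ^ b)]
  rw [h1]
  have hdis : (↑(r.divisors) : Set ℕ).PairwiseDisjoint (Irr k) := by
    intro s _ s' _ hne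
    rw [Function.onFun, Finset.disjoint_left]
    intro P hP hP'
    rw [mem_Irr] at hP hP'
    exact hne (hP.1.2.symm.trans hP'.1.2)
  have h2 : ∑ s ∈ r.divisors, ∑ P ∈ Irr k s, (s : ℂ) * (Lam χ A P) ^ (r / s) =
      ∑ P ∈ r.divisors.biUnion (Irr k), (P.natDegree : ℂ) * (Lam χ A P) ^ (r / P.natDegree) := by
    rw [Finset.sum_biUnion hdis]
    refine Finset.sum_congr rfl fun s _ => Finset.sum_congr rfl fun P hP => ?_
    rw [mem_Irr] at hP
    rw [hP.1.2]
  rw [h2, ← Finset.sum_fiberwise_of_maps_to (s := (Finset.univ : Finset K))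
    (t := r.divisors.biUnion (Irr k)) (g := fun x => minpoly k x)]
  · refine Finset.sum_congr rfl fun P hP => ?_
    rw [Finset.mem_biUnion] at hP
    obtain ⟨s, hs, hP⟩ := hP
    have hPd := (mem_Irr.mp hP).1.2
    rw [Nat.mem_divisors] at hs
    have h3 : ∀ x ∈ Finset.univ.filter (fun x : K => minpoly k x = P),
        (Lam χ A (minpoly k x)) ^ (Module.finrank k K / (minpoly k x).natDegree) =
          (Lam χ A P) ^ (r / P.natDegree) := by
      intro x hx
      rw [Finset.mem_filter] at hx
      rw [hx.2, hr]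
    rw [Finset.sum_congr rfl h3, Finset.sum_const, card_fiber P s hP (by rw [hr]; exact hs.1),
      nsmul_eq_mul, hPd]
  · intro x _
    rw [Finset.mem_biUnion]
    refine ⟨(minpoly k x).natDegree, ?_, hirr x⟩
    rw [Nat.mem_divisors]
    exact ⟨hdeg x, hr0.ne'⟩

end ext

end Pool.Agent.helper82.Weil
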