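import Mathlib

set_option autoImplicit false

/-!
Part I: the analytic lemma on the roots of a polynomial whose logarithmic derivative has
coefficients of controlled growth.
-/

namespace Pool.Agent.helper82.Weil

open Polynomial Filter Topology

lemma log_deriv_identity (L : ℂ[X]) (S : ℕ → ℂ) (C R : ℝ) (hR : 0 < R)
    (hS : ∀ r, 1 ≤ r → ‖S r‖ ≤ C * R ^ r)
    (hN : ∀ n : ℕ, (n : ℂ) * L.coeff n = ∑ r ∈ Finset.Icc 1 n, S r * L.coeff (n - r))
    (T : ℂ) (hT : R * ‖T‖ < 1) :
    ∃ G : ℂ, ‖G‖ ≤ |C| * (1 - R * ‖T‖)⁻¹ ∧ T * eval T (derivative L) = eval T L * G := by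
  set S' : ℕ → ℂ := fun r => if r = 0 then 0 else S r with hS'
  have hRT : 0 ≤ R * ‖T‖ := by positivity
  have hbound : ∀ r, ‖S' r * T ^ r‖ ≤ |C| * (R * ‖T‖) ^ r := by
    intro r
    rw [norm_mul, norm_pow, mul_pow]
    rcases Nat.eq_zero_or_pos r with rfl | hr
    · simp [hS']
    · have h1 : S' r = S r := by simp [hS', hr.ne']
      rw [h1]
      have h2 := hS r hr
      have h3 : C * R ^ r ≤ |C| * R ^ r := mul_le_mul_of_nonneg_right (le_abs_self C) (by positivity)
      calc ‖S r‖ * ‖T‖ ^ r ≤ (|C| * R ^ r) * ‖T‖ ^ r :=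
            mul_le_mul_of_nonneg_right (h2.trans h3) (by positivity)
        _ = |C| * (R ^ r * ‖T‖ ^ r) := by ring
  have hgeo : HasSum (fun r : ℕ => |C| * (R * ‖T‖) ^ r) (|C| * (1 - R * ‖T‖)⁻¹) :=
    (hasSum_geometric_of_lt_one hRT hT).mul_left _
  have hsumm : Summable (fun r => ‖S' r * T ^ r‖) :=
    Summable.of_nonneg_of_le (fun _ => norm_nonneg _) hbound hgeo.summable
  refine ⟨∑' r, S' r * T ^ r, ?_, ?_⟩
  · refine (norm_tsum_le_tsum_norm hsumm).trans ?_
    rw [← hgeo.tsum_eq]
    exact Summable.tsum_le_tsum hbound hsumm hgeo.summable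
  · -- the polynomial as a sum
    set d := L.natDegree with hd
    have hL : HasSum (fun n : ℕ => L.coeff n * T ^ n) (eval T L) := by
      rw [eval_eq_sum_range]
      apply hasSum_sum_of_ne_finset_zero
      intro n hn
      rw [Finset.mem_range, not_lt] at hn
      rw [coeff_eq_zero_of_natDegree_lt (by omega), zero_mul]
    have hLs : Summable (fun n : ℕ => ‖L.coeff n * T ^ n‖) := by
      apply summable_of_ne_finset_zero (s := Finset.range (d + 1))
      intro n hn
      rw [Finset.mem_range, not_lt] at hn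
      rw [coeff_eq_zero_of_natDegree_lt (by omega), zero_mul, norm_zero]
    have hD : HasSum (fun n : ℕ => (n : ℂ) * L.coeff n * T ^ n) (T * eval T (derivative L)) := by
      have h1 : T * eval T (derivative L) = ∑ n ∈ Finset.range (d + 1), (n : ℂ) * L.coeff n * T ^ n := by
        have h2 : derivative L = ∑ n ∈ Finset.range (d + 1), Polynomial.C (L.coeff n * n) * X ^ (n - 1) := by
          conv_lhs => rw [L.as_sum_range_C_mul_X_pow]
          rw [derivative_sum]
          refine Finset.sum_congr rfl fun n _ => ?_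
          rw [derivative_C_mul_X_pow]
        rw [h2, eval_finsetSum, Finset.mul_sum]
        refine Finset.sum_congr rfl fun n _ => ?_
        rw [eval_mul, Polynomial.eval_C, eval_pow, eval_X]
        rcases Nat.eq_zero_or_pos n with rfl | hn
        · simp
        · obtain ⟨m, rfl⟩ : ∃ m, n = m + 1 := ⟨n - 1, by omega⟩
          rw [Nat.add_sub_cancel, pow_succ]
          ring
      rw [h1]
      apply hasSum_sum_of_ne_finset_zero
      intro n hn
      rw [Finset.mem_range, not_lt] at hn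
      rw [coeff_eq_zero_of_natDegree_lt (by omega), mul_zero, zero_mul]
    have hprod := tsum_mul_tsum_eq_tsum_sum_antidiagonal_of_summable_norm hsumm hLs
    rw [hL.tsum_eq] at hprod
    rw [mul_comm (eval T L), hprod, ← hD.tsum_eq]
    apply tsum_congr
    intro n
    rw [hN n, Finset.Nat.sum_antidiagonal_eq_sum_range_succ_mk, Finset.sum_mul,
      Finset.sum_range_succ']
    have h0 : S' (0, n).1 * T ^ (0, n).1 * (L.coeff (0, n - 0).2 * T ^ (0, n - 0).2) = 0 := by
      simp [hS']
    have e1 : ∑ r ∈ Finset.Icc 1 n, S r * L.coeff (n - r) * T ^ n =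
        ∑ r ∈ Finset.range n, S (r + 1) * L.coeff (n - (r + 1)) * T ^ n := by
      rw [Finset.range_eq_Ico, Finset.sum_Ico_add' (fun r => S r * L.coeff (n - r) * T ^ n) 0 n 1]
      refine Finset.sum_congr ?_ fun _ _ => rfl
      ext r
      simp only [Finset.mem_Icc, Finset.mem_Ico]
      omega
    rw [e1]
    simp only [hS', if_true, zero_mul, add_zero]
    refine Finset.sum_congr rfl fun r hr => ?_
    rw [Finset.mem_range] at hr
    rw [if_neg (by omega)]
    have e2 : T ^ n = T ^ (r + 1) * T ^ (n - (r + 1)) := by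
      rw [← pow_add]; congr 1; omega
    rw [e2]
    ring

lemma root_bound (L : ℂ[X]) (S : ℕ → ℂ) (C R : ℝ) (hR : 0 < R) (h0 : L.coeff 0 = 1)
    (hS : ∀ r, 1 ≤ r → ‖S r‖ ≤ C * R ^ r)
    (hN : ∀ n : ℕ, (n : ℂ) * L.coeff n = ∑ r ∈ Finset.Icc 1 n, S r * L.coeff (n - r))
    (z : ℂ) (hz : L.IsRoot z) : 1 ≤ R * ‖z‖ := by
  by_contra hcon
  push Not at hcon
  have hL0 : L ≠ 0 := by
    rintro rfl
    simp at h0
  have hz0 : z ≠ 0 := by
    rintro rfl
    rw [IsRoot, ← coeff_zero_eq_eval_zero, h0] at hz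
    exact one_ne_zero hz
  obtain ⟨L1, hL1, hnd⟩ := exists_eq_pow_rootMultiplicity_mul_and_not_dvd L hL0 z
  set m := rootMultiplicity z L with hm
  have hmpos : 0 < m := (rootMultiplicity_pos hL0).mpr hz
  obtain ⟨m', hm'⟩ : ∃ m', m = m' + 1 := ⟨m - 1, by omega⟩
  have hL1z : eval z L1 ≠ 0 := by
    intro h
    exact hnd (dvd_iff_isRoot.mpr h)
  set Φ : ℂ → ℂ := fun T => T * ((m : ℂ) * eval T L1 + (T - z) * eval T (derivative L1)) with hΦ
  have hΦc : Continuous Φ := by
    apply continuous_id.mul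
    exact (continuous_const.mul L1.continuous).add
      ((continuous_id.sub continuous_const).mul (derivative L1).continuous)
  have hΦz : Φ z ≠ 0 := by
    simp only [hΦ, sub_self, zero_mul, add_zero]
    refine mul_ne_zero hz0 (mul_ne_zero ?_ hL1z)
    exact_mod_cast hmpos.ne'
  -- eventual bound
  obtain ⟨ρ, hρ1, hρ2⟩ : ∃ ρ : ℝ, R * ‖z‖ < ρ ∧ ρ < 1 := exists_between hcon
  have hev : ∀ᶠ T in 𝓝[≠] z, ‖Φ T‖ ≤ ‖T - z‖ * ‖eval T L1‖ * (|C| * (1 - ρ)⁻¹) := by
    have h1 : ∀ᶠ T in 𝓝 z, R * ‖T‖ < ρ := by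
      have : Continuous (fun T : ℂ => R * ‖T‖) := continuous_const.mul continuous_norm
      exact this.tendsto z |>.eventually (gt_mem_nhds hρ1)
    filter_upwards [h1.filter_mono nhdsWithin_le_nhds, self_mem_nhdsWithin] with T hT hne
    have hne' : T - z ≠ 0 := sub_ne_zero.mpr hne
    obtain ⟨G, hG, hid⟩ := log_deriv_identity L S C R hR hS hN T (hT.trans hρ2)
    have hder : derivative L = (X - Polynomial.C z) ^ m' *
        (Polynomial.C (m : ℂ) * L1 + (X - Polynomial.C z) * derivative L1) := by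
      conv_lhs => rw [hL1, hm']
      rw [derivative_mul, derivative_X_sub_C_pow, hm']
      simp only [Nat.add_sub_cancel, map_natCast, Nat.cast_add, Nat.cast_one]
      ring
    have hLT : eval T L = (T - z) ^ m' * ((T - z) * eval T L1) := by
      conv_lhs => rw [hL1, hm']
      simp only [eval_mul, eval_pow, eval_sub, eval_X, eval_C]
      ring
    rw [hder, hLT] at hid
    simp only [eval_mul, eval_pow, eval_sub, eval_X, eval_C, eval_add] at hid
    have h3 : (T - z) ^ m' * Φ T = (T - z) ^ m' * ((T - z) * eval T L1 * G) := by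
      simp only [hΦ]
      linear_combination hid
    have h4 : Φ T = (T - z) * eval T L1 * G := mul_left_cancel₀ (pow_ne_zero _ hne') h3
    rw [h4, norm_mul, norm_mul]
    refine mul_le_mul_of_nonneg_left (hG.trans ?_) (by positivity)
    refine mul_le_mul_of_nonneg_left ?_ (abs_nonneg _)
    apply inv_anti₀ (by linarith)
    linarith
  have hlim : Tendsto Φ (𝓝[≠] z) (𝓝 0) := by
    refine squeeze_zero_norm' hev ?_
    have h1 : Tendsto (fun T : ℂ => ‖T - z‖ * ‖eval T L1‖ * (|C| * (1 - ρ)⁻¹)) (𝓝 z)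
        (𝓝 (‖z - z‖ * ‖eval z L1‖ * (|C| * (1 - ρ)⁻¹))) := by
      apply Continuous.tendsto
      exact (((continuous_id.sub continuous_const).norm).mul (L1.continuous.norm)).mul continuous_const
    rw [sub_self, norm_zero, zero_mul, zero_mul] at h1
    exact h1.mono_left nhdsWithin_le_nhds
  have hlim2 : Tendsto Φ (𝓝[≠] z) (𝓝 (Φ z)) := (hΦc.tendsto z).mono_left nhdsWithin_le_nhds
  exact hΦz (tendsto_nhds_unique hlim2 hlim)

lemma coeff_one_prod (s : Multiset ℂ) (hs : ∀ z ∈ s, z ≠ 0) :
    ((s.map (fun z => (X - Polynomial.C z : ℂ[X]))).prod).coeff 1 =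
      - ((s.map (fun z => (X - Polynomial.C z : ℂ[X]))).prod).coeff 0 * (s.map (fun z => z⁻¹)).sum := by
  induction s using Multiset.induction with
  | empty => simp [coeff_one]
  | cons z s ih =>
    have hz : z ≠ 0 := hs z (Multiset.mem_cons_self _ _)
    have ih' := ih (fun w hw => hs w (Multiset.mem_cons_of_mem hw))
    simp only [Multiset.map_cons, Multiset.prod_cons, Multiset.sum_cons]
    set P := (s.map (fun z => (X - Polynomial.C z : ℂ[X]))).prod with hP
    rw [sub_mul, coeff_sub, coeff_sub, coeff_C_mul, coeff_C_mul, coeff_X_mul, ih']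
    have h2 : (X * P).coeff 0 = 0 := by simp
    rw [h2]
    field_simp
    ring

theorem coeff_one_bound (L : ℂ[X]) (S : ℕ → ℂ) (C R : ℝ) (hR : 0 < R) (h0 : L.coeff 0 = 1)
    (hS : ∀ r, 1 ≤ r → ‖S r‖ ≤ C * R ^ r)
    (hN : ∀ n : ℕ, (n : ℂ) * L.coeff n = ∑ r ∈ Finset.Icc 1 n, S r * L.coeff (n - r)) :
    ‖L.coeff 1‖ ≤ L.natDegree * R := by
  have hL0 : L ≠ 0 := by
    rintro rfl
    simp at h0
  have hroot : ∀ z ∈ L.roots, 1 ≤ R * ‖z‖ := by
    intro z hz
    rw [mem_roots hL0] at hz
    exact root_bound L S C R hR h0 hS hN z hz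
  have hne : ∀ z ∈ L.roots, z ≠ 0 := by
    intro z hz h
    have := hroot z hz
    rw [h, norm_zero, mul_zero] at this
    linarith
  have hspl : L = Polynomial.C L.leadingCoeff * (L.roots.map (fun z => X - Polynomial.C z)).prod :=
    (IsAlgClosed.splits L).eq_prod_roots
  set P := (L.roots.map (fun z => (X - Polynomial.C z : ℂ[X]))).prod with hP
  have hc1 : L.coeff 1 = L.leadingCoeff * P.coeff 1 := by
    conv_lhs => rw [hspl]
    rw [coeff_C_mul]
  have hc0 : L.leadingCoeff * P.coeff 0 = 1 := by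
    rw [← h0]
    conv_rhs => rw [hspl]
    rw [coeff_C_mul]
  rw [hc1, hP, coeff_one_prod _ hne, ← hP]
  have e1 : L.leadingCoeff * (-P.coeff 0 * (L.roots.map (fun z => z⁻¹)).sum) =
      - (L.roots.map (fun z => z⁻¹)).sum := by
    linear_combination (-(L.roots.map (fun z => z⁻¹)).sum) * hc0
  rw [e1, norm_neg]
  have h5 : ‖(L.roots.map (fun z => z⁻¹)).sum‖ ≤ (Multiset.card L.roots : ℝ) * R := by
    have : ∀ s : Multiset ℂ, (∀ z ∈ s, 1 ≤ R * ‖z‖) →
        ‖(s.map (fun z => z⁻¹)).sum‖ ≤ (Multiset.card s : ℝ) * R := by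
      intro s
      induction s using Multiset.induction with
      | empty => intro _; simp
      | cons z s ih =>
        intro hs
        have ih' := ih (fun w hw => hs w (Multiset.mem_cons_of_mem hw))
        have hz := hs z (Multiset.mem_cons_self _ _)
        rw [Multiset.map_cons, Multiset.sum_cons, Multiset.card_cons]
        refine (norm_add_le _ _).trans ?_
        have hzpos : 0 < ‖z‖ := by
          rcases (norm_nonneg z).lt_or_eq with h | h
          · exact h
          · rw [← h, mul_zero] at hz; linarith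
        have : ‖z⁻¹‖ ≤ R := by
          rw [norm_inv, inv_le_iff_one_le_mul₀ hzpos]
          exact hz
        push_cast
        linarith
    exact this _ hroot
  refine h5.trans ?_
  have h6 : (Multiset.card L.roots : ℝ) ≤ L.natDegree := by exact_mod_cast card_roots' L
  exact mul_le_mul_of_nonneg_right h6 hR.le

end Pool.Agent.helper82.Weil
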