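import Mathlib
import Pool.Agent.helper82.Weil.H
import Pool.Agent.helper82.Weil.I

set_option autoImplicit false

/-!
Part J: the Weil bound for multiplicative character sums of products of linear factors.
-/

namespace Pool.Agent.helper82.Weil

open Polynomial

section ext
variable {k : Type*} [Field k] [Fintype k] {K : Type*} [Field K] [Fintype K] [Algebra k K]

variable (K) in
/-- the composition of a character with the norm map -/
noncomputable def normChar (χ : MulChar k ℂ) : MulChar K ℂ where
  toFun x := χ (Algebra.norm k x)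
  map_one' := by simp
  map_mul' x y := by simp
  map_nonunit' x hx := by
    have : x = 0 := by
      by_contra h
      exact hx (isUnit_iff_ne_zero.mpr h)
    rw [this, Algebra.norm_zero, MulChar.map_zero]

lemma normChar_apply (χ : MulChar k ℂ) (x : K) : normChar K χ x = χ (Algebra.norm k x) := rfl

lemma normChar_ne_one (χ : MulChar k ℂ) (hχ : χ ≠ 1) : normChar K χ ≠ 1 := by
  obtain ⟨u, hu⟩ := (MulChar.ne_one_iff).mp hχ
  intro h
  obtain ⟨x, hx⟩ := FiniteField.norm_surjective k K (u : k)
  have hx0 : x ≠ 0 := by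
    rintro rfl
    rw [Algebra.norm_zero] at hx
    exact u.ne_zero hx.symm
  have h1 : normChar K χ x = 1 := by
    rw [h]
    exact MulChar.one_apply (isUnit_iff_ne_zero.mpr hx0)
  rw [normChar_apply, hx] at h1
  exact hu h1

lemma normChar_pow (χ : MulChar k ℂ) : (normChar K χ) ^ (Fintype.card k - 1) = 1 := by
  have hcard : 1 < Fintype.card k := Fintype.one_lt_card
  apply MulChar.ext
  intro u
  rw [MulChar.pow_apply_coe, normChar_apply, ← map_pow]
  have h1 : Algebra.norm k (u : K) ≠ 0 := by
    rw [Algebra.norm_ne_zero_iff]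
    exact u.ne_zero
  rw [FiniteField.pow_card_sub_one_eq_one _ h1, map_one, MulChar.one_apply_coe]

lemma eval_W_cons (A : List (k × ℕ)) (x : K) :
    eval x (W (mapL K ((0, 1) :: A))) = x * eval x (W (mapL K A)) := by
  simp [W, mapL]

/-- The uniform bound over an extension. -/
lemma SS_bound_ext (χ : MulChar k ℂ) (hχ : χ ≠ 1) (A : List (k × ℕ)) (hA : ∀ ac ∈ A, ac.1 ≠ 0)
    (r : ℕ) (hr : Module.finrank k K = r) :
    ‖SS χ ((0, 1) :: A) r‖ ≤
      ((Fintype.card k - 1 : ℕ) * (2 * (A.map Prod.snd).sum + 3 * A.length + 15) + (A.length + 1))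
        * (Real.sqrt (Fintype.card k)) ^ r := by
  have hcard : 1 < Fintype.card k := Fintype.one_lt_card
  have hcardK : Fintype.card K = Fintype.card k ^ r := by
    rw [← hr]; exact Module.card_eq_pow_finrank
  have hr0 : 0 < r := by rw [← hr]; exact Module.finrank_pos
  rw [SS_eq (K := K) χ _ r hr]
  obtain ⟨t, ht⟩ : (Fintype.card k - 1) ∣ (Fintype.card k ^ r - 1) := by
    have := Nat.sub_dvd_pow_sub_pow (Fintype.card k) 1 r
    simpa using this
  have hpow : 1 < Fintype.card k ^ r := Nat.one_lt_pow hr0.ne' hcard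
  have ht0 : 0 < t := by
    rcases Nat.eq_zero_or_pos t with h | h
    · rw [h, mul_zero] at ht; omega
    · exact h
  have hQ : (Fintype.card k - 1) * t + 1 = Fintype.card K := by
    rw [← ht, hcardK]; omega
  have hA' : ∀ ac ∈ mapL K A, ac.1 ≠ 0 := by
    intro ac hac
    rw [mapL, List.mem_map] at hac
    obtain ⟨b, hb, rfl⟩ := hac
    simp only
    intro h
    exact hA b hb ((map_eq_zero _).mp h)
  have key := stepanov_char (mapL K A) hA' t (Fintype.card k - 1) (by omega) ht0 hQ
    (normChar K χ) (normChar_pow χ) (normChar_ne_one χ hχ)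
  have e1 : ∀ x : K, χ (Algebra.norm k (eval x (W (mapL K ((0, 1) :: A))))) =
      normChar K χ (x * eval x (W (mapL K A))) := by
    intro x
    rw [eval_W_cons, normChar_apply]
  simp_rw [e1]
  refine key.trans ?_
  have e2 : (mapL K A).length = A.length := by simp [mapL]
  have e3 : ((mapL K A).map Prod.snd) = A.map Prod.snd := by
    simp [mapL, Function.comp_def]
  rw [e2, e3, hcardK]
  have e4 : Real.sqrt ((Fintype.card k ^ r : ℕ) : ℝ) = (Real.sqrt (Fintype.card k)) ^ r := by
    push_cast
    rw [Real.sqrt_eq_iff_mul_self_eq (by positivity) (by positivity), ← mul_pow,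
      Real.mul_self_sqrt (by positivity)]
  rw [e4, add_mul]
  have e5 : (1 : ℝ) ≤ (Real.sqrt (Fintype.card k)) ^ r := by
    apply one_le_pow₀
    rw [Real.one_le_sqrt]
    exact_mod_cast hcard.le
  have e6 : (0 : ℝ) ≤ (A.length : ℝ) + 1 := by positivity
  nlinarith

end ext

section fin
variable {k : Type*} [Field k] [Fintype k]

lemma SS_bound (χ : MulChar k ℂ) (hχ : χ ≠ 1) (A : List (k × ℕ)) (hA : ∀ ac ∈ A, ac.1 ≠ 0)
    (r : ℕ) (hr : 1 ≤ r) :
    ‖SS χ ((0, 1) :: A) r‖ ≤
      ((Fintype.card k - 1 : ℕ) * (2 * (A.map Prod.snd).sum + 3 * A.length + 15) + (A.length + 1))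
        * (Real.sqrt (Fintype.card k)) ^ r := by
  obtain ⟨p, hp⟩ := CharP.exists k
  obtain ⟨n, hpp, hn⟩ := FiniteField.card k p
  have : Fact p.Prime := ⟨hpp⟩
  have : NeZero r := ⟨by omega⟩
  letI : Fintype (FiniteField.Extension k p r) := Fintype.ofFinite _
  exact SS_bound_ext (K := FiniteField.Extension k p r) χ hχ A hA r (FiniteField.finrank_extension k p r)

/-- **Weil bound** for a multiplicative character evaluated at `x ∏ (x - a)^c` (with `a ≠ 0`). -/
theorem weil_bound (χ : MulChar k ℂ) (hχ : χ ≠ 1) (A : List (k × ℕ)) (hA : ∀ ac ∈ A, ac.1 ≠ 0) :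
    ‖∑ x : k, χ (x * eval x (W A))‖ ≤ A.length * Real.sqrt (Fintype.card k) := by
  set L : ℂ[X] := ∑ n ∈ Finset.range (A.length + 1), C (cc χ ((0, 1) :: A) n) * X ^ n with hL
  have hcoeff : ∀ n, L.coeff n = cc χ ((0, 1) :: A) n := by
    intro n
    rw [hL, finsetSum_coeff]
    simp_rw [coeff_C_mul, coeff_X_pow]
    simp only [mul_ite, mul_one, mul_zero]
    rw [Finset.sum_ite_eq]
    split_ifs with h
    · rfl
    · rw [Finset.mem_range, not_lt] at h
      exact (cc_eq_zero χ hχ A hA n (by omega)).symm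
  have hdeg : L.natDegree ≤ A.length := by
    rw [hL]
    refine natDegree_sum_le_of_forall_le _ _ fun n hn => ?_
    rw [Finset.mem_range] at hn
    refine (natDegree_C_mul_X_pow_le _ _).trans ?_
    omega
  have hcard : 1 < Fintype.card k := Fintype.one_lt_card
  have hR : 0 < Real.sqrt (Fintype.card k) := by
    apply Real.sqrt_pos.mpr
    have : (0 : ℝ) < (Fintype.card k : ℝ) := by exact_mod_cast (by omega : 0 < Fintype.card k)
    exact this
  have key := coeff_one_bound L (SS χ ((0, 1) :: A))
    ((Fintype.card k - 1 : ℕ) * (2 * (A.map Prod.snd).sum + 3 * A.length + 15) + (A.length + 1))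
    (Real.sqrt (Fintype.card k)) hR (by rw [hcoeff, cc_zero])
    (fun r hr => SS_bound χ hχ A hA r hr)
    (fun n => by
      rw [hcoeff, newton]
      refine Finset.sum_congr rfl fun r _ => ?_
      rw [hcoeff])
  rw [hcoeff, cc_one] at key
  have e1 : ∀ x : k, eval x (W ((0, 1) :: A)) = x * eval x (W A) := by
    intro x; simp [W]
  simp_rw [e1] at key
  refine key.trans ?_
  apply mul_le_mul_of_nonneg_right _ hR.le
  exact_mod_cast hdeg

end fin

end Pool.Agent.helper82.Weil
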