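import Mathlib
import Pool.Agent.helper82.Weil.J

set_option autoImplicit false

/-!
Part M: convenient forms of the Weil bound and the moment bounds.
-/

namespace Pool.Agent.helper82.Weil

open Polynomial

section fin
variable {F : Type*} [Field F] [Fintype F]

lemma weil_finset {ι : Type*} (χ : MulChar F ℂ) (hχ : χ ≠ 1) (s : Finset ι) (a : ι → F)
    (e : ι → ℕ) (ha : ∀ i ∈ s, a i ≠ 0) :
    ‖∑ u : F, χ (u * ∏ i ∈ s, (u - a i) ^ e i)‖ ≤ s.card * Real.sqrt (Fintype.card F) := by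
  have key := weil_bound χ hχ (s.toList.map (fun i => (a i, e i))) (by
    intro ac hac
    rw [List.mem_map] at hac
    obtain ⟨i, hi, rfl⟩ := hac
    exact ha i (Finset.mem_toList.mp hi))
  have e1 : ∀ u : F, eval u (W (s.toList.map (fun i => (a i, e i)))) = ∏ i ∈ s, (u - a i) ^ e i := by
    intro u
    unfold W
    rw [eval_list_prod, List.map_map, List.map_map, ← Finset.prod_map_toList]
    congr 1
    apply List.map_congr_left
    intro i _
    simp
  simp_rw [e1] at key
  simpa using key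

/-- Weil bound for a product of shifts one of which is isolated and has exponent one. -/
lemma weil_shift {ι : Type*} [Fintype ι] [DecidableEq ι] (χ : MulChar F ℂ) (hχ : χ ≠ 1)
    (z : ι → F) (e : ι → ℕ) (i₀ : ι) (he : e i₀ = 1) (hz : ∀ i, i ≠ i₀ → z i ≠ z i₀) :
    ‖∑ u : F, χ (∏ i, (z i + u) ^ e i)‖ ≤ (Fintype.card ι - 1 : ℕ) * Real.sqrt (Fintype.card F) := by
  have key := weil_finset χ hχ (Finset.univ.erase i₀) (fun i => z i₀ - z i) e (by
    intro i hi
    rw [Finset.mem_erase] at hi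
    exact sub_ne_zero.mpr (hz i hi.1).symm)
  rw [Finset.card_erase_of_mem (Finset.mem_univ _), Finset.card_univ] at key
  refine le_of_eq_of_le ?_ key
  congr 1
  symm
  apply Fintype.sum_equiv (Equiv.subRight (z i₀))
  intro u
  rw [← Finset.mul_prod_erase Finset.univ _ (Finset.mem_univ i₀)]
  simp only [Equiv.subRight_apply, he, pow_one]
  congr 2
  · ring
  · refine Finset.prod_congr rfl fun i _ => ?_
    congr 1
    ring

lemma norm_chi_le (χ : MulChar F ℂ) (a : F) : ‖χ a‖ ≤ 1 := by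
  classical
  have hpos : 0 < Fintype.card Fˣ := Fintype.card_pos
  exact norm_char_le (Fintype.card Fˣ) hpos χ (MulChar.pow_card_eq_one χ) a

lemma conj_chi (χ : MulChar F ℂ) (hχ : χ ≠ 1) (a : F) :
    (starRingEnd ℂ) (χ a) = χ (a ^ (Fintype.card F - 2)) := by
  have h1 : (starRingEnd ℂ) (χ a) = χ⁻¹ a := by
    rw [← MulChar.star_apply']
    rfl
  rw [h1, MulChar.inv_apply']
  by_cases ha : a = 0
  · rw [ha, inv_zero, MulChar.map_zero]
    have hcard : 2 < Fintype.card F := by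
      by_contra hcon
      have h2 : Fintype.card F = 2 := by
        have := Fintype.one_lt_card (α := F)
        omega
      apply hχ
      apply MulChar.ext
      intro u
      have h3 : (u : F) = 1 := by
        have := FiniteField.pow_card_sub_one_eq_one (u : F) u.ne_zero
        rw [h2] at this
        simpa using this
      rw [h3, map_one, map_one]
    rw [zero_pow (by omega), MulChar.map_zero]
  · congr 1
    have h2 := FiniteField.pow_card_sub_one_eq_one a ha
    have hcard : 1 < Fintype.card F := Fintype.one_lt_card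
    have h3 : Fintype.card F - 1 = (Fintype.card F - 2) + 1 := by omega
    rw [h3, pow_succ] at h2
    exact (eq_inv_of_mul_eq_one_left h2).symm

/-- The complete sums -/
noncomputable def ZZ (χ : MulChar F ℂ) {k : ℕ} (x y : Fin k → F) : ℂ :=
  ∑ u : F, (∏ i, χ (x i + u)) * (starRingEnd ℂ) (∏ i, χ (y i + u))

lemma ZZ_norm_comm (χ : MulChar F ℂ) {k : ℕ} (x y : Fin k → F) : ‖ZZ χ x y‖ = ‖ZZ χ y x‖ := by
  have : ZZ χ x y = (starRingEnd ℂ) (ZZ χ y x) := by
    unfold ZZ
    rw [map_sum]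
    refine Finset.sum_congr rfl fun u _ => ?_
    rw [map_mul, Complex.conj_conj, mul_comm]
  rw [this, RCLike.norm_conj]

lemma ZZ_eq (χ : MulChar F ℂ) (hχ : χ ≠ 1) {k : ℕ} (x y : Fin k → F) :
    ZZ χ x y = ∑ u : F, χ (∏ i : Fin k ⊕ Fin k,
      ((Sum.elim x y i) + u) ^ (Sum.elim (fun _ : Fin k => 1) (fun _ : Fin k => Fintype.card F - 2) i : ℕ)) := by
  unfold ZZ
  refine Finset.sum_congr rfl fun u _ => ?_
  rw [Fintype.prod_sum_type, map_mul, map_prod, map_prod, map_prod]
  congr 1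
  · refine Finset.prod_congr rfl fun i _ => ?_
    simp
  · refine Finset.prod_congr rfl fun i _ => ?_
    rw [conj_chi χ hχ]
    simp

/-- the combined tuple -/
def Nondeg {k : ℕ} (x y : Fin k → F) : Prop :=
  ∃ i₀ : Fin k ⊕ Fin k, ∀ i, i ≠ i₀ → Sum.elim x y i ≠ Sum.elim x y i₀

lemma ZZ_bound (χ : MulChar F ℂ) (hχ : χ ≠ 1) {k : ℕ} (x y : Fin k → F) (h : Nondeg x y) :
    ‖ZZ χ x y‖ ≤ 2 * k * Real.sqrt (Fintype.card F) := by
  classical
  have main : ∀ (x y : Fin k → F) (j : Fin k), (∀ i, i ≠ Sum.inl j → Sum.elim x y i ≠ x j) →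
      ‖ZZ χ x y‖ ≤ 2 * k * Real.sqrt (Fintype.card F) := by
    intro x y j hj
    rw [ZZ_eq χ hχ]
    refine (weil_shift χ hχ (Sum.elim x y)
      (Sum.elim (fun _ : Fin k => 1) (fun _ : Fin k => Fintype.card F - 2)) (Sum.inl j) rfl
      (by simpa using hj)).trans ?_
    apply mul_le_mul_of_nonneg_right _ (Real.sqrt_nonneg _)
    rw [Fintype.card_sum, Fintype.card_fin]
    have : ((k + k - 1 : ℕ) : ℝ) ≤ ((k + k : ℕ) : ℝ) := by exact_mod_cast Nat.sub_le _ _
    refine this.trans ?_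
    push_cast
    linarith
  obtain ⟨i₀, hi₀⟩ := h
  rcases i₀ with j | j
  · exact main x y j (by simpa using hi₀)
  · rw [ZZ_norm_comm]
    apply main y x j
    intro i hi
    rcases i with i | i
    · have := hi₀ (Sum.inr i) (by
        intro h
        apply hi
        rw [Sum.inr.inj h])
      simpa using this
    · have := hi₀ (Sum.inl i) (by simp)
      simpa using this

lemma ZZ_trivial (χ : MulChar F ℂ) {k : ℕ} (x y : Fin k → F) : ‖ZZ χ x y‖ ≤ Fintype.card F := by
  unfold ZZ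
  refine (norm_sum_le _ _).trans ?_
  rw [← nsmul_one, ← Finset.card_univ, ← Finset.sum_const]
  refine Finset.sum_le_sum fun u _ => ?_
  rw [norm_mul, RCLike.norm_conj, norm_prod, norm_prod]
  have h1 : ∀ x : Fin k → F, ∏ i, ‖χ (x i + u)‖ ≤ 1 := fun x =>
    Finset.prod_le_one (fun _ _ => norm_nonneg _) (fun _ _ => norm_chi_le χ _)
  have h2 : ∀ x : Fin k → F, 0 ≤ ∏ i, ‖χ (x i + u)‖ := fun x =>
    Finset.prod_nonneg (fun _ _ => norm_nonneg _)
  exact mul_le_one₀ (h1 x) (h2 y) (h1 y)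

open Classical in
/-- number of degenerate tuples -/
lemma card_degenerate {k : ℕ} (A : Finset F) :
    (((Fintype.piFinset fun _ : Fin k => A) ×ˢ (Fintype.piFinset fun _ : Fin k => A)).filter
      (fun xy => ¬ Nondeg xy.1 xy.2)).card ≤ k ^ (2 * k) * A.card ^ k := by
  rcases Nat.eq_zero_or_pos k with rfl | hk
  · simp only [Nat.mul_zero, pow_zero, mul_one]
    refine (Finset.card_filter_le _ _).trans ?_
    rw [Finset.card_product, Fintype.card_piFinset]
    simp
  -- injection into pairs (f, s)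
  set T : Finset ((Fin k ⊕ Fin k → Fin k) × (Fin k → F)) :=
    (Finset.univ : Finset (Fin k ⊕ Fin k → Fin k)) ×ˢ (Fintype.piFinset fun _ : Fin k => A) with hT
  have hTcard : T.card = k ^ (2 * k) * A.card ^ k := by
    rw [hT, Finset.card_product, Fintype.card_piFinset, Finset.card_univ]
    simp only [Fintype.card_pi, Fintype.card_fin, Finset.prod_const, Finset.card_univ,
      Fintype.card_sum]
    rw [two_mul]
  rw [← hTcard]
  refine Finset.card_le_card_of_surjOn
    (fun fs => ((fun i => fs.2 (fs.1 (Sum.inl i))), (fun i => fs.2 (fs.1 (Sum.inr i))))) ?_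
  rintro ⟨x, y⟩ hxy
  rw [Finset.mem_coe, Finset.mem_filter, Finset.mem_product, Fintype.mem_piFinset,
    Fintype.mem_piFinset] at hxy
  obtain ⟨⟨hx, hy⟩, hdeg⟩ := hxy
  simp only at hx hy hdeg
  set t : Fin k ⊕ Fin k → F := Sum.elim x y with ht
  have htA : ∀ i, t i ∈ A := by
    rintro (i | i)
    · exact hx i
    · exact hy i
  -- the image has at most k elements
  have himg : (Finset.univ.image t).card ≤ k := by
    have h1 : ∀ w ∈ Finset.univ.image t, 2 ≤ (Finset.univ.filter (fun i => t i = w)).card := by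
      intro w hw
      rw [Finset.mem_image] at hw
      obtain ⟨i₀, _, hi₀⟩ := hw
      by_contra hcon
      apply hdeg
      refine ⟨i₀, fun i hi heq => ?_⟩
      have h2 : ({i, i₀} : Finset (Fin k ⊕ Fin k)) ⊆ Finset.univ.filter (fun i => t i = w) := by
        intro j hj
        rw [Finset.mem_insert, Finset.mem_singleton] at hj
        rw [Finset.mem_filter]
        refine ⟨Finset.mem_univ _, ?_⟩
        rcases hj with rfl | rfl
        · rw [← hi₀]; exact heq
        · exact hi₀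
      have h3 := Finset.card_le_card h2
      rw [Finset.card_pair hi] at h3
      omega
    have h2 : ∑ w ∈ Finset.univ.image t, (Finset.univ.filter (fun i => t i = w)).card =
        (Finset.univ : Finset (Fin k ⊕ Fin k)).card := by
      rw [Finset.card_eq_sum_card_image t]
    have h3 : (Finset.univ.image t).card * 2 ≤
        ∑ w ∈ Finset.univ.image t, (Finset.univ.filter (fun i => t i = w)).card := by
      rw [← smul_eq_mul, ← Finset.sum_const]
      exact Finset.sum_le_sum h1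
    rw [h2, Finset.card_univ, Fintype.card_sum, Fintype.card_fin] at h3
    omega
  have hne : (Finset.univ.image t).Nonempty := ⟨t (Sum.inl ⟨0, hk⟩), Finset.mem_image_of_mem _ (Finset.mem_univ _)⟩
  -- an enumeration of the image
  obtain ⟨s, hs⟩ : ∃ s : Fin k → F, (∀ j, s j ∈ A) ∧ ∀ w ∈ Finset.univ.image t, ∃ j, s j = w := by
    set c := (Finset.univ.image t).card with hc
    have e := (Finset.univ.image t).equivFin
    obtain ⟨w0, hw0⟩ := hne
    have hsub : ∀ w ∈ Finset.univ.image t, w ∈ A := by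
      intro w hw
      rw [Finset.mem_image] at hw
      obtain ⟨i, _, rfl⟩ := hw
      exact htA i
    refine ⟨fun j => if h : (j : ℕ) < c then (e.symm ⟨j, h⟩ : F) else w0, ?_, ?_⟩
    · intro j
      dsimp only
      split_ifs with h
      · exact hsub _ (e.symm ⟨j, h⟩).2
      · exact hsub _ hw0
    · intro w hw
      refine ⟨⟨(e ⟨w, hw⟩ : ℕ), lt_of_lt_of_le (e ⟨w, hw⟩).2 himg⟩, ?_⟩
      dsimp only
      rw [dif_pos (e ⟨w, hw⟩).2]
      simp
  have hf : ∀ i, ∃ j, s j = t i := fun i => hs.2 _ (Finset.mem_image_of_mem _ (Finset.mem_univ _))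
  choose f hf using hf
  refine ⟨(f, s), ?_, ?_⟩
  · rw [hT, Finset.mem_coe, Finset.mem_product, Fintype.mem_piFinset]
    exact ⟨Finset.mem_univ _, hs.1⟩
  · simp only [hf]
    rfl

/-- sums of powers of the complete sums over all tuples -/
lemma sum_ZZ_pow (χ : MulChar F ℂ) (hχ : χ ≠ 1) (k j : ℕ) (A : Finset F) :
    ∑ x ∈ Fintype.piFinset fun _ : Fin k => A, ∑ y ∈ Fintype.piFinset fun _ : Fin k => A,
      ‖ZZ χ x y‖ ^ j ≤ (k : ℝ) ^ (2 * k) * (A.card : ℝ) ^ k * (Fintype.card F : ℝ) ^ j +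
        (A.card : ℝ) ^ (2 * k) * (2 * k * Real.sqrt (Fintype.card F)) ^ j := by
  classical
  rw [← Finset.sum_product', ← Finset.sum_filter_not_add_sum_filter _ (fun xy : (Fin k → F) × (Fin k → F) => Nondeg xy.1 xy.2)]
  refine add_le_add ?_ ?_
  · have h1 : ∀ xy ∈ ((Fintype.piFinset fun _ : Fin k => A) ×ˢ (Fintype.piFinset fun _ : Fin k => A)).filter
      (fun xy => ¬ Nondeg xy.1 xy.2), ‖ZZ χ xy.1 xy.2‖ ^ j ≤ (Fintype.card F : ℝ) ^ j := by
      intro xy _
      exact pow_le_pow_left₀ (norm_nonneg _) (ZZ_trivial χ _ _) _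
    refine (Finset.sum_le_sum h1).trans ?_
    rw [Finset.sum_const, nsmul_eq_mul]
    apply mul_le_mul_of_nonneg_right _ (by positivity)
    exact_mod_cast card_degenerate A
  · have h1 : ∀ xy ∈ ((Fintype.piFinset fun _ : Fin k => A) ×ˢ (Fintype.piFinset fun _ : Fin k => A)).filter
      (fun xy => Nondeg xy.1 xy.2), ‖ZZ χ xy.1 xy.2‖ ^ j ≤ (2 * k * Real.sqrt (Fintype.card F)) ^ j := by
      intro xy hxy
      rw [Finset.mem_filter] at hxy
      exact pow_le_pow_left₀ (norm_nonneg _) (ZZ_bound χ hχ _ _ hxy.2) _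
    refine (Finset.sum_le_sum h1).trans ?_
    rw [Finset.sum_const, nsmul_eq_mul]
    apply mul_le_mul_of_nonneg_right _ (by positivity)
    have h2 : (((Fintype.piFinset fun _ : Fin k => A) ×ˢ (Fintype.piFinset fun _ : Fin k => A)).filter
      (fun xy : (Fin k → F) × (Fin k → F) => Nondeg xy.1 xy.2)).card ≤ A.card ^ (2 * k) := by
      refine (Finset.card_filter_le _ _).trans ?_
      rw [Finset.card_product, Fintype.card_piFinset]
      simp only [Finset.prod_const, Finset.card_univ, Fintype.card_fin]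
      rw [← pow_add, two_mul]
    exact_mod_cast h2

/-- The `2k`-th moment of the incomplete sums. -/
theorem moment_one (χ : MulChar F ℂ) (hχ : χ ≠ 1) (k : ℕ) (A : Finset F) :
    ∑ u : F, ‖∑ a ∈ A, χ (a + u)‖ ^ (2 * k) ≤
      (k : ℝ) ^ (2 * k) * (A.card : ℝ) ^ k * (Fintype.card F : ℝ) +
        (A.card : ℝ) ^ (2 * k) * (2 * k * Real.sqrt (Fintype.card F)) := by
  classical
  have h1 : ((∑ u : F, ‖∑ a ∈ A, χ (a + u)‖ ^ (2 * k) : ℝ) : ℂ) =
      ∑ x ∈ Fintype.piFinset fun _ : Fin k => A, ∑ y ∈ Fintype.piFinset fun _ : Fin k => A,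
        ZZ χ x y := by
    push_cast
    have h2 : ∀ u : F, ((‖∑ a ∈ A, χ (a + u)‖ : ℝ) : ℂ) ^ (2 * k) =
        ∑ x ∈ Fintype.piFinset fun _ : Fin k => A, ∑ y ∈ Fintype.piFinset fun _ : Fin k => A,
          (∏ i, χ (x i + u)) * (starRingEnd ℂ) (∏ i, χ (y i + u)) := by
      intro u
      rw [pow_mul, ← Complex.mul_conj', mul_pow, ← map_pow, Finset.sum_pow', map_sum,
        Finset.sum_mul_sum]
    simp_rw [h2]
    rw [Finset.sum_comm]
    refine Finset.sum_congr rfl fun x _ => ?_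
    rw [Finset.sum_comm]
    rfl
  have h3 : ∑ u : F, ‖∑ a ∈ A, χ (a + u)‖ ^ (2 * k) =
      ‖((∑ u : F, ‖∑ a ∈ A, χ (a + u)‖ ^ (2 * k) : ℝ) : ℂ)‖ := by
    rw [Complex.norm_real, Real.norm_eq_abs, abs_of_nonneg]
    exact Finset.sum_nonneg fun _ _ => by positivity
  rw [h3, h1]
  refine (norm_sum_le _ _).trans ?_
  refine (Finset.sum_le_sum fun x _ => norm_sum_le _ _).trans ?_
  have := sum_ZZ_pow χ hχ k 1 A
  simpa using this

/-- The `2k`-th moment of the correlations. -/
theorem moment_two (χ : MulChar F ℂ) (hχ : χ ≠ 1) (k : ℕ) (A : Finset F) :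
    ∑ u : F, ∑ v : F, ‖∑ a ∈ A, χ (a + u) * (starRingEnd ℂ) (χ (a + v))‖ ^ (2 * k) ≤
      (k : ℝ) ^ (2 * k) * (A.card : ℝ) ^ k * (Fintype.card F : ℝ) ^ 2 +
        (A.card : ℝ) ^ (2 * k) * (2 * k * Real.sqrt (Fintype.card F)) ^ 2 := by
  classical
  have h1 : ((∑ u : F, ∑ v : F, ‖∑ a ∈ A, χ (a + u) * (starRingEnd ℂ) (χ (a + v))‖ ^ (2 * k) : ℝ) : ℂ) =
      ∑ x ∈ Fintype.piFinset fun _ : Fin k => A, ∑ y ∈ Fintype.piFinset fun _ : Fin k => A,
        ZZ χ x y * (starRingEnd ℂ) (ZZ χ x y) := by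
    push_cast
    have h2 : ∀ u v : F, ((‖∑ a ∈ A, χ (a + u) * (starRingEnd ℂ) (χ (a + v))‖ : ℝ) : ℂ) ^ (2 * k) =
        ∑ x ∈ Fintype.piFinset fun _ : Fin k => A, ∑ y ∈ Fintype.piFinset fun _ : Fin k => A,
          ((∏ i, χ (x i + u)) * (starRingEnd ℂ) (∏ i, χ (y i + u))) *
            (starRingEnd ℂ) ((∏ i, χ (x i + v)) * (starRingEnd ℂ) (∏ i, χ (y i + v))) := by
      intro u v
      rw [pow_mul, ← Complex.mul_conj', mul_pow, ← map_pow, Finset.sum_pow', map_sum,
        Finset.sum_mul_sum]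
      refine Finset.sum_congr rfl fun x _ => Finset.sum_congr rfl fun y _ => ?_
      simp only [Finset.prod_mul_distrib, map_mul, map_prod, Complex.conj_conj]
      ring
    simp_rw [h2]
    have h3 : ∀ x y : Fin k → F, ZZ χ x y * (starRingEnd ℂ) (ZZ χ x y) =
        ∑ u : F, ∑ v : F, ((∏ i, χ (x i + u)) * (starRingEnd ℂ) (∏ i, χ (y i + u))) *
            (starRingEnd ℂ) ((∏ i, χ (x i + v)) * (starRingEnd ℂ) (∏ i, χ (y i + v))) := by
      intro x y
      unfold ZZ
      rw [map_sum, Finset.sum_mul_sum]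
    simp_rw [h3]
    -- reorder the sums
    have h4 : ∀ u : F, ∑ v : F, ∑ x ∈ Fintype.piFinset fun _ : Fin k => A,
        ∑ y ∈ Fintype.piFinset fun _ : Fin k => A,
          ((∏ i, χ (x i + u)) * (starRingEnd ℂ) (∏ i, χ (y i + u))) *
            (starRingEnd ℂ) ((∏ i, χ (x i + v)) * (starRingEnd ℂ) (∏ i, χ (y i + v))) =
        ∑ x ∈ Fintype.piFinset fun _ : Fin k => A, ∑ y ∈ Fintype.piFinset fun _ : Fin k => A,
          ∑ v : F, ((∏ i, χ (x i + u)) * (starRingEnd ℂ) (∏ i, χ (y i + u))) *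
            (starRingEnd ℂ) ((∏ i, χ (x i + v)) * (starRingEnd ℂ) (∏ i, χ (y i + v))) := by
      intro u
      rw [Finset.sum_comm]
      refine Finset.sum_congr rfl fun x _ => ?_
      rw [Finset.sum_comm]
    simp_rw [h4]
    rw [Finset.sum_comm]
    refine Finset.sum_congr rfl fun x _ => ?_
    rw [Finset.sum_comm]
  have h3 : ∑ u : F, ∑ v : F, ‖∑ a ∈ A, χ (a + u) * (starRingEnd ℂ) (χ (a + v))‖ ^ (2 * k) =
      ‖((∑ u : F, ∑ v : F, ‖∑ a ∈ A, χ (a + u) * (starRingEnd ℂ) (χ (a + v))‖ ^ (2 * k) : ℝ) : ℂ)‖ := by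
    rw [Complex.norm_real, Real.norm_eq_abs, abs_of_nonneg]
    exact Finset.sum_nonneg fun _ _ => Finset.sum_nonneg fun _ _ => by positivity
  rw [h3, h1]
  refine (norm_sum_le _ _).trans ?_
  refine (Finset.sum_le_sum fun x _ => norm_sum_le _ _).trans ?_
  have := sum_ZZ_pow χ hχ k 2 A
  refine le_trans (le_of_eq ?_) this
  refine Finset.sum_congr rfl fun x _ => Finset.sum_congr rfl fun y _ => ?_
  rw [norm_mul, RCLike.norm_conj, sq]

end fin

end Pool.Agent.helper82.Weil
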