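import Mathlib
import Pool.Agent.helper82.Weil.M

set_option autoImplicit false

/-!
Part N: a Hölder inequality with collisions, and two bounds for double sums.
-/

namespace Pool.Agent.helper82.Weil

open Polynomial

/-- Hölder inequality with a collision count. -/
lemma holder_collision {α J : Type*} [Fintype J] [DecidableEq J] (I : Finset α) (φ : α → J)
    (X : J → ℝ) (hX : ∀ j, 0 ≤ X j) (k : ℕ) (hk : 0 < k) :
    (∑ i ∈ I, X (φ i)) ^ (2 * k) ≤
      (I.card : ℝ) ^ (2 * k - 2) * (((I ×ˢ I).filter (fun x => φ x.1 = φ x.2)).card : ℝ) *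
        ∑ j, X j ^ (2 * k) := by
  classical
  obtain ⟨n, rfl⟩ : ∃ n, k = n + 1 := ⟨k - 1, by omega⟩
  rcases Finset.eq_empty_or_nonempty I with rfl | hne
  · simp
  have hcard : (0 : ℝ) < I.card := by exact_mod_cast hne.card_pos
  have h1 : (∑ i ∈ I, X (φ i)) ^ (n + 1) ≤ (I.card : ℝ) ^ n * ∑ i ∈ I, X (φ i) ^ (n + 1) := by
    have := pow_sum_div_card_le_sum_pow (s := I) (f := fun i => X (φ i)) (fun i _ => hX _) n
    rw [div_le_iff₀ (by positivity)] at this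
    linarith
  set ν : J → ℕ := fun j => (I.filter (fun i => φ i = j)).card with hν
  have h2 : ∑ i ∈ I, X (φ i) ^ (n + 1) = ∑ j, (ν j : ℝ) * X j ^ (n + 1) := by
    rw [← Finset.sum_fiberwise_of_maps_to (s := I) (t := Finset.univ) (g := φ)
      (fun i _ => Finset.mem_univ _)]
    refine Finset.sum_congr rfl fun j _ => ?_
    rw [hν]
    have h3 : ∀ i ∈ I.filter (fun i => φ i = j), X (φ i) ^ (n + 1) = X j ^ (n + 1) := by
      intro i hi
      rw [Finset.mem_filter] at hi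
      rw [hi.2]
    rw [Finset.sum_congr rfl h3, Finset.sum_const, nsmul_eq_mul]
  have h3 : (∑ j, (ν j : ℝ) * X j ^ (n + 1)) ^ 2 ≤
      (∑ j, (ν j : ℝ) ^ 2) * ∑ j, (X j ^ (n + 1)) ^ 2 :=
    Finset.sum_mul_sq_le_sq_mul_sq _ _ _
  have h4 : ∑ j, (ν j : ℝ) ^ 2 = (((I ×ˢ I).filter (fun x => φ x.1 = φ x.2)).card : ℝ) := by
    have h5 : ((I ×ˢ I).filter (fun x => φ x.1 = φ x.2)).card = ∑ j, (ν j) ^ 2 := by
      rw [Finset.card_eq_sum_card_fiberwise (f := fun x : α × α => φ x.1) (t := Finset.univ)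
        (fun x _ => Finset.mem_coe.mpr (Finset.mem_univ _))]
      refine Finset.sum_congr rfl fun j _ => ?_
      rw [hν, sq, ← Finset.card_product]
      congr 1
      ext x
      simp only [Finset.mem_filter, Finset.mem_product]
      constructor
      · rintro ⟨⟨⟨a, b⟩, c⟩, d⟩
        exact ⟨⟨a, d⟩, ⟨b, by rw [← c, d]⟩⟩
      · rintro ⟨⟨a, b⟩, c, d⟩
        exact ⟨⟨⟨a, c⟩, by rw [b, d]⟩, b⟩
    rw [h5]
    push_cast
    rfl
  have h0 : 0 ≤ ∑ i ∈ I, X (φ i) := Finset.sum_nonneg fun i _ => hX _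
  have e1 : (∑ i ∈ I, X (φ i)) ^ (2 * (n + 1)) = ((∑ i ∈ I, X (φ i)) ^ (n + 1)) ^ 2 := by
    rw [← pow_mul, mul_comm]
  rw [e1]
  calc ((∑ i ∈ I, X (φ i)) ^ (n + 1)) ^ 2
      ≤ ((I.card : ℝ) ^ n * ∑ i ∈ I, X (φ i) ^ (n + 1)) ^ 2 :=
        pow_le_pow_left₀ (by positivity) h1 2
    _ = (I.card : ℝ) ^ (2 * n) * (∑ j, (ν j : ℝ) * X j ^ (n + 1)) ^ 2 := by
        rw [mul_pow, ← pow_mul, h2, mul_comm n 2]
    _ ≤ (I.card : ℝ) ^ (2 * n) * ((∑ j, (ν j : ℝ) ^ 2) * ∑ j, (X j ^ (n + 1)) ^ 2) :=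
        mul_le_mul_of_nonneg_left h3 (by positivity)
    _ = (I.card : ℝ) ^ (2 * (n + 1) - 2) *
          (((I ×ˢ I).filter (fun x => φ x.1 = φ x.2)).card : ℝ) *
            ∑ j, X j ^ (2 * (n + 1)) := by
        rw [h4]
        have e2 : 2 * (n + 1) - 2 = 2 * n := by omega
        have e3 : ∀ j, (X j ^ (n + 1)) ^ 2 = X j ^ (2 * (n + 1)) := by
          intro j; rw [← pow_mul, mul_comm]
        simp_rw [e3]
        rw [e2]
        ring

section fin
variable {F : Type*} [Field F] [Fintype F] [DecidableEq F]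

/-- incomplete sum -/
noncomputable def SA (χ : MulChar F ℂ) (A : Finset F) (x : F) : ℂ := ∑ a ∈ A, χ (a + x)

lemma SA_affine (χ : MulChar F ℂ) (A : Finset F) (m n x : F) (hm : m ≠ 0) :
    ‖SA χ A x‖ ≤ 2 * ((A.filter (fun a => m * a + n ∉ A)).card : ℝ) + ‖SA χ A ((x + n) / m)‖ := by
  -- image set
  set gA : Finset F := A.image (fun a => m * a + n) with hgA
  have hinj : Function.Injective (fun a : F => m * a + n) := by
    intro a b h
    exact mul_left_cancel₀ hm (add_right_cancel h)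
  have hsum : ∑ y ∈ gA, χ (y + x) = χ m * SA χ A ((x + n) / m) := by
    rw [hgA, Finset.sum_image (fun a _ b _ h => hinj h), SA, Finset.mul_sum]
    refine Finset.sum_congr rfl fun a _ => ?_
    rw [← map_mul]
    congr 1
    field_simp
    ring
  have hcard : gA.card = A.card := Finset.card_image_of_injective _ hinj
  have h1 : (gA \ A).card = (A.filter (fun a => m * a + n ∉ A)).card := by
    have : gA \ A = (A.filter (fun a => m * a + n ∉ A)).image (fun a => m * a + n) := by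
      ext y
      simp only [hgA, Finset.mem_sdiff, Finset.mem_image, Finset.mem_filter]
      constructor
      · rintro ⟨⟨a, ha, rfl⟩, hn⟩
        exact ⟨a, ⟨ha, hn⟩, rfl⟩
      · rintro ⟨a, ⟨ha, hn⟩, rfl⟩
        exact ⟨⟨a, ha, rfl⟩, hn⟩
    rw [this, Finset.card_image_of_injective _ hinj]
  have h2 : (A \ gA).card = (A.filter (fun a => m * a + n ∉ A)).card := by
    rw [← h1]
    have e1 := Finset.card_sdiff_add_card_inter A gA
    have e2 := Finset.card_sdiff_add_card_inter gA A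
    rw [Finset.inter_comm] at e2
    omega
  have h3 : SA χ A x - ∑ y ∈ gA, χ (y + x) = ∑ y ∈ A \ gA, χ (y + x) - ∑ y ∈ gA \ A, χ (y + x) := by
    rw [SA]
    have e1 := Finset.sum_sdiff_sub_sum_sdiff (s₁ := gA) (s₂ := A) (f := fun y => χ (y + x))
    simpa using e1.symm
  have hb : ∀ s : Finset F, ‖∑ y ∈ s, χ (y + x)‖ ≤ s.card := by
    intro s
    refine (norm_sum_le _ _).trans ?_
    rw [← nsmul_one, ← Finset.sum_const]
    exact Finset.sum_le_sum fun y _ => norm_chi_le χ _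
  have h4 : SA χ A x = (∑ y ∈ A \ gA, χ (y + x) - ∑ y ∈ gA \ A, χ (y + x)) +
      χ m * SA χ A ((x + n) / m) := by
    rw [← h3, hsum]; ring
  rw [h4]
  refine (norm_add_le _ _).trans ?_
  refine add_le_add ?_ ?_
  · refine (norm_sub_le _ _).trans ?_
    have := hb (A \ gA)
    have := hb (gA \ A)
    rw [h2] at *
    rw [h1] at *
    linarith
  · rw [norm_mul]
    have := norm_chi_le χ m
    have h5 := norm_nonneg (SA χ A ((x + n) / m))
    nlinarith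

/-- First bound: sets almost invariant under a family of affine maps. -/
theorem affine_bound (χ : MulChar F ℂ) (hχ : χ ≠ 1) (A B : Finset F) (Γ : Finset (F × F))
    (hΓ : ∀ g ∈ Γ, g.1 ≠ 0) (η : ℝ)
    (hη : ∀ g ∈ Γ, ((A.filter (fun a => g.1 * a + g.2 ∉ A)).card : ℝ) ≤ η * A.card)
    (k : ℕ) (hk : 0 < k) :
    ∃ Y : ℝ, 0 ≤ Y ∧
      (Γ.card : ℝ) * ∑ b ∈ B, ‖∑ a ∈ A, χ (a + b)‖ ≤ Γ.card * (2 * η * A.card * B.card) + Y ∧
      Y ^ (2 * k) ≤ ((Γ.card : ℝ) * B.card) ^ (2 * k - 2) *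
        ((((Γ ×ˢ B) ×ˢ (Γ ×ˢ B)).filter (fun x => (x.1.2 + x.1.1.2) / x.1.1.1 =
          (x.2.2 + x.2.1.2) / x.2.1.1)).card : ℝ) *
        ((k : ℝ) ^ (2 * k) * (A.card : ℝ) ^ k * (Fintype.card F : ℝ) +
          (A.card : ℝ) ^ (2 * k) * (2 * k * Real.sqrt (Fintype.card F))) := by
  refine ⟨∑ i ∈ Γ ×ˢ B, ‖SA χ A ((i.2 + i.1.2) / i.1.1)‖, Finset.sum_nonneg fun _ _ => norm_nonneg _,
    ?_, ?_⟩
  · have h1 : (Γ.card : ℝ) * ∑ b ∈ B, ‖∑ a ∈ A, χ (a + b)‖ =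
        ∑ i ∈ Γ ×ˢ B, ‖SA χ A i.2‖ := by
      rw [Finset.sum_product]
      simp only [Finset.sum_const, nsmul_eq_mul, SA]
    rw [h1]
    have h2 : (Γ.card : ℝ) * (2 * η * A.card * B.card) = ∑ i ∈ Γ ×ˢ B, 2 * (η * A.card) := by
      rw [Finset.sum_const, Finset.card_product, nsmul_eq_mul]
      push_cast
      ring
    rw [h2, ← Finset.sum_add_distrib]
    refine Finset.sum_le_sum fun i hi => ?_
    rw [Finset.mem_product] at hi
    have h3 := SA_affine χ A i.1.1 i.1.2 i.2 (hΓ _ hi.1)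
    have h4 := hη _ hi.1
    linarith
  · have h1 := holder_collision (Γ ×ˢ B) (fun i : (F × F) × F => (i.2 + i.1.2) / i.1.1)
      (fun x => ‖SA χ A x‖) (fun _ => norm_nonneg _) k hk
    rw [Finset.card_product] at h1
    push_cast at h1
    refine h1.trans ?_
    apply mul_le_mul_of_nonneg_left _ (by positivity)
    exact moment_one χ hχ k A

/-- Second bound: sets with small growth under a family of Moebius maps
`x ↦ (m x + n) / (c x + d)`, encoded as `(m, n, c, d)`. -/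
theorem moebius_bound (χ : MulChar F ℂ) (hχ : χ ≠ 1) (A A' B : Finset F)
    (Γ : Finset (F × F × F × F))
    (hA : ∀ g ∈ Γ, ∀ a ∈ A, ∃ a' ∈ A', g.2.2.1 * a' + g.2.2.2 ≠ 0 ∧
      g.1 * a' + g.2.1 = a * (g.2.2.1 * a' + g.2.2.2))
    (hB : ∀ g ∈ Γ, ∀ b ∈ B, g.1 + b * g.2.2.1 ≠ 0)
    (β : F → ℂ) (hβ : ∀ b, ‖β b‖ ≤ 1) (k : ℕ) (hk : 0 < k) :
    ((Γ.card : ℝ) * ∑ a ∈ A, ‖∑ b ∈ B, β b * χ (a + b)‖ ^ 2) ^ (2 * k) ≤
      ((Γ.card : ℝ) * (B.card : ℝ) ^ 2) ^ (2 * k - 2) *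
        ((((Γ ×ˢ (B ×ˢ B)) ×ˢ (Γ ×ˢ (B ×ˢ B))).filter (fun x =>
          ((x.1.1.2.1 + x.1.2.1 * x.1.1.2.2.2) / (x.1.1.1 + x.1.2.1 * x.1.1.2.2.1) =
            (x.2.1.2.1 + x.2.2.1 * x.2.1.2.2.2) / (x.2.1.1 + x.2.2.1 * x.2.1.2.2.1)) ∧
          ((x.1.1.2.1 + x.1.2.2 * x.1.1.2.2.2) / (x.1.1.1 + x.1.2.2 * x.1.1.2.2.1) =
            (x.2.1.2.1 + x.2.2.2 * x.2.1.2.2.2) / (x.2.1.1 + x.2.2.2 * x.2.1.2.2.1)))).card : ℝ) *
        ((k : ℝ) ^ (2 * k) * (A'.card : ℝ) ^ k * (Fintype.card F : ℝ) ^ 2 +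
          (A'.card : ℝ) ^ (2 * k) * (2 * k * Real.sqrt (Fintype.card F)) ^ 2) := by
  set u : (F × F × F × F) → F → F := fun g b => (g.2.1 + b * g.2.2.2) / (g.1 + b * g.2.2.1) with hu
  set R : F × F → ℂ := fun uv => ∑ a' ∈ A', χ (a' + uv.1) * (starRingEnd ℂ) (χ (a' + uv.2)) with hR
  -- step 1: for each g
  have step1 : ∀ g ∈ Γ, ∑ a ∈ A, ‖∑ b ∈ B, β b * χ (a + b)‖ ^ 2 ≤
      ∑ i ∈ B ×ˢ B, ‖R (u g i.1, u g i.2)‖ := by
    intro g hg
    choose! f hf using hA g hg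
    have hfinj : Set.InjOn f ↑A := by
      intro a ha b hb hab
      have h1 := hf a ha
      have h2 := hf b hb
      rw [hab] at h1
      have h3 := h1.2.2.symm.trans h2.2.2
      exact mul_right_cancel₀ h2.2.1 h3
    set w : F → ℂ := fun b => β b * χ (g.1 + b * g.2.2.1) with hw
    have hwb : ∀ b, ‖w b‖ ≤ 1 := by
      intro b
      rw [hw, norm_mul]
      exact mul_le_one₀ (hβ b) (norm_nonneg _) (norm_chi_le χ _)
    have h1 : ∀ a ∈ A, ‖∑ b ∈ B, β b * χ (a + b)‖ ^ 2 ≤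
        ‖∑ b ∈ B, w b * χ (f a + u g b)‖ ^ 2 := by
      intro a ha
      obtain ⟨hfa, hne, heq⟩ := hf a ha
      have h2 : ∀ b ∈ B, χ (g.2.2.1 * f a + g.2.2.2) * (β b * χ (a + b)) =
          w b * χ (f a + u g b) := by
        intro b hb
        have hne2 := hB g hg b hb
        have h3 : (g.2.2.1 * f a + g.2.2.2) * (a + b) = (g.1 + b * g.2.2.1) * (f a + u g b) := by
          have e : (g.1 + b * g.2.2.1) * u g b = g.2.1 + b * g.2.2.2 := by
            rw [hu]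
            field_simp
          linear_combination -heq - e
        rw [hw]
        calc χ (g.2.2.1 * f a + g.2.2.2) * (β b * χ (a + b))
            = β b * χ ((g.2.2.1 * f a + g.2.2.2) * (a + b)) := by rw [map_mul]; ring
          _ = β b * χ (g.1 + b * g.2.2.1) * χ (f a + u g b) := by rw [h3, map_mul]; ring
      have h4 : ∑ b ∈ B, w b * χ (f a + u g b) =
          χ (g.2.2.1 * f a + g.2.2.2) * ∑ b ∈ B, β b * χ (a + b) := by
        rw [Finset.mul_sum]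
        exact (Finset.sum_congr rfl h2).symm
      have h5 : ‖χ (g.2.2.1 * f a + g.2.2.2)‖ = 1 := by
        have hpos : 0 < Fintype.card Fˣ := Fintype.card_pos
        have h6 : (χ (g.2.2.1 * f a + g.2.2.2)) ^ (Fintype.card Fˣ) = 1 := by
          rw [← MulChar.pow_apply' χ hpos.ne', MulChar.pow_card_eq_one χ]
          exact MulChar.one_apply (isUnit_iff_ne_zero.mpr hne)
        exact Complex.norm_eq_one_of_pow_eq_one h6 hpos.ne'
      rw [h4, norm_mul, h5, one_mul]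
    have h2 : ∑ a ∈ A, ‖∑ b ∈ B, β b * χ (a + b)‖ ^ 2 ≤
        ∑ a' ∈ A', ‖∑ b ∈ B, w b * χ (a' + u g b)‖ ^ 2 := by
      refine (Finset.sum_le_sum h1).trans ?_
      rw [← Finset.sum_image (f := fun a' => ‖∑ b ∈ B, w b * χ (a' + u g b)‖ ^ 2) hfinj]
      apply Finset.sum_le_sum_of_subset_of_nonneg
      · intro y hy
        rw [Finset.mem_image] at hy
        obtain ⟨a, ha, rfl⟩ := hy
        exact (hf a ha).1
      · intro _ _ _; positivity
    refine h2.trans ?_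
    have h3 : ((∑ a' ∈ A', ‖∑ b ∈ B, w b * χ (a' + u g b)‖ ^ 2 : ℝ) : ℂ) =
        ∑ i ∈ B ×ˢ B, w i.1 * (starRingEnd ℂ) (w i.2) * R (u g i.1, u g i.2) := by
      push_cast
      have h4 : ∀ a' : F, ((‖∑ b ∈ B, w b * χ (a' + u g b)‖ : ℝ) : ℂ) ^ 2 =
          ∑ i ∈ B ×ˢ B, w i.1 * (starRingEnd ℂ) (w i.2) *
            (χ (a' + u g i.1) * (starRingEnd ℂ) (χ (a' + u g i.2))) := by
        intro a'
        rw [← Complex.mul_conj', map_sum, Finset.sum_mul_sum, Finset.sum_product]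
        refine Finset.sum_congr rfl fun b _ => Finset.sum_congr rfl fun b' _ => ?_
        rw [map_mul]
        ring
      simp_rw [h4]
      rw [Finset.sum_comm]
      refine Finset.sum_congr rfl fun i _ => ?_
      rw [hR, Finset.mul_sum]
    have h5 : ∑ a' ∈ A', ‖∑ b ∈ B, w b * χ (a' + u g b)‖ ^ 2 =
        ‖((∑ a' ∈ A', ‖∑ b ∈ B, w b * χ (a' + u g b)‖ ^ 2 : ℝ) : ℂ)‖ := by
      rw [Complex.norm_real, Real.norm_eq_abs, abs_of_nonneg]
      exact Finset.sum_nonneg fun _ _ => by positivity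
    rw [h5, h3]
    refine (norm_sum_le _ _).trans (Finset.sum_le_sum fun i _ => ?_)
    rw [norm_mul, norm_mul, RCLike.norm_conj]
    have h6 : ‖w i.1‖ * ‖w i.2‖ ≤ 1 := mul_le_one₀ (hwb _) (norm_nonneg _) (hwb _)
    have h7 := norm_nonneg (R (u g i.1, u g i.2))
    nlinarith
  -- step 2: sum over g
  have step2 : (Γ.card : ℝ) * ∑ a ∈ A, ‖∑ b ∈ B, β b * χ (a + b)‖ ^ 2 ≤
      ∑ i ∈ Γ ×ˢ (B ×ˢ B), ‖R (u i.1 i.2.1, u i.1 i.2.2)‖ := by
    rw [Finset.sum_product, ← nsmul_eq_mul, ← Finset.sum_const]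
    exact Finset.sum_le_sum step1
  have h0 : 0 ≤ (Γ.card : ℝ) * ∑ a ∈ A, ‖∑ b ∈ B, β b * χ (a + b)‖ ^ 2 :=
    mul_nonneg (by positivity) (Finset.sum_nonneg fun _ _ => by positivity)
  refine (pow_le_pow_left₀ h0 step2 (2 * k)).trans ?_
  have h1 := holder_collision (Γ ×ˢ (B ×ˢ B))
    (fun i : (F × F × F × F) × (F × F) => (u i.1 i.2.1, u i.1 i.2.2))
    (fun x => ‖R x‖) (fun _ => norm_nonneg _) k hk
  rw [Finset.card_product, Finset.card_product] at h1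
  push_cast at h1
  refine h1.trans ?_
  rw [← sq]
  have h2 : ∑ j, ‖R j‖ ^ (2 * k) ≤ (k : ℝ) ^ (2 * k) * (A'.card : ℝ) ^ k * (Fintype.card F : ℝ) ^ 2 +
          (A'.card : ℝ) ^ (2 * k) * (2 * k * Real.sqrt (Fintype.card F)) ^ 2 := by
    rw [Fintype.sum_prod_type]
    exact moment_two χ hχ k A'
  refine (mul_le_mul_of_nonneg_left h2 (by positivity)).trans (le_of_eq ?_)
  have h3 : ((Γ ×ˢ (B ×ˢ B)) ×ˢ (Γ ×ˢ (B ×ˢ B))).filter (fun x =>
      (u x.1.1 x.1.2.1, u x.1.1 x.1.2.2) = (u x.2.1 x.2.2.1, u x.2.1 x.2.2.2)) =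
      ((Γ ×ˢ (B ×ˢ B)) ×ˢ (Γ ×ˢ (B ×ˢ B))).filter (fun x =>
        (u x.1.1 x.1.2.1 = u x.2.1 x.2.2.1 ∧ u x.1.1 x.1.2.2 = u x.2.1 x.2.2.2)) := by
    apply Finset.filter_congr
    intro x _
    rw [Prod.mk.injEq]
  rw [h3]

end fin

end Pool.Agent.helper82.Weil
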