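import Mathlib

set_option autoImplicit false

/-!
Part O: passage from the explicit inequalities to power savings (real variable lemmas).
-/

namespace Pool.Agent.helper82.Weil

lemma rpow_mul_neg {x s : ℝ} (hx : 0 < x) : x ^ s * x ^ (-s) = 1 := by
  rw [← Real.rpow_add hx]; simp

/-- choice of `k`, `δ`, `p₀`. -/
lemma asymp_choice (ε : ℝ) (hε : 0 < ε) :
    ∃ (k p₀ : ℕ) (δ : ℝ), 0 < k ∧ 0 < δ ∧ δ ≤ ε / 4 ∧ 1 ≤ ε * k ∧ ε = 16 * k * δ ∧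
      ∀ p : ℕ, p₀ < p → (1 : ℝ) < p ∧
        ((k : ℝ) ^ (2 * k) + 4 * k ^ 2) * 4 ^ k * (p : ℝ) ^ (-(ε / 2)) ≤ 1 ∧
        16 * (p : ℝ) ^ (-(ε / 2)) ≤ 1 := by
  obtain ⟨k, hk⟩ := exists_nat_gt (1 / ε)
  have hkR : (0 : ℝ) < k := lt_trans (by positivity) hk
  have hkpos : 0 < k := by exact_mod_cast hkR
  have hk1 : 1 ≤ ε * k := by
    rw [div_lt_iff₀ hε] at hk
    linarith
  have hk1' : (1 : ℝ) ≤ k := by exact_mod_cast hkpos
  have hlim1 : Filter.Tendsto (fun x : ℝ => x ^ (ε / 2)) Filter.atTop Filter.atTop :=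
    tendsto_rpow_atTop (by positivity)
  have hlim : Filter.Tendsto (fun n : ℕ => (n : ℝ) ^ (ε / 2)) Filter.atTop Filter.atTop :=
    hlim1.comp tendsto_natCast_atTop_atTop
  obtain ⟨p₀, hp₀⟩ := Filter.eventually_atTop.mp
    (hlim.eventually_ge_atTop (max (((k : ℝ) ^ (2 * k) + 4 * k ^ 2) * 4 ^ k) 16))
  refine ⟨k, max p₀ 1, ε / (16 * k), hkpos, by positivity, ?_, hk1, ?_, ?_⟩
  · apply div_le_div_of_nonneg_left hε.le (by norm_num)
    linarith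
  · field_simp
  · intro p hp
    have hpge : p₀ ≤ p := le_trans (le_max_left _ _) hp.le
    have hp1 : 1 < p := lt_of_le_of_lt (le_max_right _ _) hp
    have hpR : (1 : ℝ) < p := by exact_mod_cast hp1
    have hp0 : (0 : ℝ) < p := by linarith
    have hbig := hp₀ p hpge
    have h7 : (p : ℝ) ^ (ε / 2) * (p : ℝ) ^ (-(ε / 2)) = 1 := rpow_mul_neg hp0
    have h8 : 0 < (p : ℝ) ^ (-(ε / 2)) := Real.rpow_pos_of_pos hp0 _
    refine ⟨hpR, ?_, ?_⟩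
    · rw [← h7]
      exact mul_le_mul_of_nonneg_right ((le_max_left _ _).trans hbig) h8.le
    · rw [← h7]
      exact mul_le_mul_of_nonneg_right ((le_max_right _ _).trans hbig) h8.le

/-- the moment estimate -/
lemma moment_simplify (k : ℕ) (ε p a : ℝ) (hp : 1 < p) (hk1 : 1 ≤ ε * k) (ha : p ^ ε < a) :
    p ≤ a ^ k := by
  have hp0 : 0 < p := by linarith
  calc p = p ^ (1 : ℝ) := (Real.rpow_one p).symm
    _ ≤ p ^ (ε * k) := Real.rpow_le_rpow_of_exponent_le hp.le hk1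
    _ = (p ^ ε) ^ k := by rw [Real.rpow_mul hp0.le, Real.rpow_natCast]
    _ ≤ a ^ k := pow_le_pow_left₀ (by positivity) ha.le k

lemma asymp_one (ε : ℝ) (hε : 0 < ε) :
    ∃ (k p₀ : ℕ) (δ : ℝ), 0 < k ∧ 0 < δ ∧
      ∀ p : ℕ, p₀ < p → ∀ a b G N E Y : ℝ, (p : ℝ) ^ ε < a → 0 ≤ b → 0 < G → 0 ≤ N → 0 ≤ Y →
        G * E ≤ G * (2 * (p : ℝ) ^ (-ε) * a * b) + Y →
        Y ^ (2 * k) ≤ (G * b) ^ (2 * k - 2) * N * ((k : ℝ) ^ (2 * k) * a ^ k * (p : ℝ) +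
          a ^ (2 * k) * (2 * k * Real.sqrt p)) →
        N * (p : ℝ) ^ (1 / 2 + ε) ≤ (G * b) ^ 2 →
        E ≤ (p : ℝ) ^ (-δ) * a * b := by
  obtain ⟨k, p₀, δ, hkpos, hδpos, hδε, hk1, hεk, hp₀⟩ := asymp_choice ε hε
  refine ⟨k, p₀, δ, hkpos, hδpos, ?_⟩
  intro p hpp a b G N E Y hA hb0 hGpos hN0 hY0 hY1 hY2 hN
  obtain ⟨hpR, hbigC, hbig16⟩ := hp₀ p hpp
  have hp0 : (0 : ℝ) < p := by linarith
  have hapos : 0 < a := lt_trans (Real.rpow_pos_of_pos hp0 _) hA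
  have hkR : (1 : ℝ) ≤ k := by exact_mod_cast hkpos
  set s : ℝ := (p : ℝ) ^ (1 / 2 : ℝ) with hs
  have hs1 : 1 ≤ s := Real.one_le_rpow hpR.le (by norm_num)
  set e : ℝ := (p : ℝ) ^ (-(ε / 2)) with he
  have he0 : 0 < e := Real.rpow_pos_of_pos hp0 _
  have hpk : (p : ℝ) ≤ a ^ k := moment_simplify k ε p a hpR hk1 hA
  have hM : (k : ℝ) ^ (2 * k) * a ^ k * (p : ℝ) + a ^ (2 * k) * (2 * k * Real.sqrt p) ≤
      a ^ (2 * k) * (s * ((k : ℝ) ^ (2 * k) + 2 * k)) := by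
    have h5 : a ^ (2 * k) = a ^ k * a ^ k := by rw [← pow_add, two_mul]
    have h6 : (k : ℝ) ^ (2 * k) * a ^ k * (p : ℝ) ≤ (k : ℝ) ^ (2 * k) * a ^ k * (a ^ k * s) := by
      apply mul_le_mul_of_nonneg_left _ (by positivity)
      calc (p : ℝ) ≤ a ^ k := hpk
        _ = a ^ k * 1 := (mul_one _).symm
        _ ≤ a ^ k * s := mul_le_mul_of_nonneg_left hs1 (by positivity)
    have h7 : Real.sqrt p = s := Real.sqrt_eq_rpow _
    rw [h7, h5]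
    calc (k : ℝ) ^ (2 * k) * a ^ k * (p : ℝ) + a ^ k * a ^ k * (2 * k * s)
        ≤ (k : ℝ) ^ (2 * k) * a ^ k * (a ^ k * s) + a ^ k * a ^ k * (2 * k * s) := by linarith
      _ = a ^ k * a ^ k * (s * ((k : ℝ) ^ (2 * k) + 2 * k)) := by ring
  have hN' : N * s ≤ (G * b) ^ 2 * (e * e) := by
    have h1 : (p : ℝ) ^ (1 / 2 + ε) = s * (p : ℝ) ^ ε := Real.rpow_add hp0 _ _
    rw [h1] at hN
    have h2 : (p : ℝ) ^ ε * (e * e) = 1 := by
      rw [he, ← Real.rpow_add hp0, ← Real.rpow_add hp0]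
      rw [show ε + (-(ε / 2) + -(ε / 2)) = 0 by ring, Real.rpow_zero]
    calc N * s = (N * (s * (p : ℝ) ^ ε)) * (e * e) := by
          linear_combination (-(N * s)) * h2
      _ ≤ (G * b) ^ 2 * (e * e) := mul_le_mul_of_nonneg_right hN (by positivity)
  have h4 : ((p : ℝ) ^ (-δ)) ^ (8 * k) = e := by
    rw [he, ← Real.rpow_natCast, ← Real.rpow_mul hp0.le]
    congr 1
    rw [hεk]
    push_cast
    ring
  have hpδ : 0 < (p : ℝ) ^ (-δ) := Real.rpow_pos_of_pos hp0 _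
  have hpδ1 : (p : ℝ) ^ (-δ) ≤ 1 := Real.rpow_le_one_of_one_le_of_nonpos hpR.le (by linarith)
  have h4' : e ≤ ((p : ℝ) ^ (-δ)) ^ (2 * k) := by
    rw [← h4]
    exact pow_le_pow_of_le_one hpδ.le hpδ1 (by omega)
  have hY3 : Y ^ (2 * k) ≤ ((p : ℝ) ^ (-δ) / 2 * (G * a * b)) ^ (2 * k) := by
    have h1 : Y ^ (2 * k) ≤ (G * b) ^ (2 * k - 2) * (N * s) *
        (a ^ (2 * k) * ((k : ℝ) ^ (2 * k) + 2 * k)) := by
      refine hY2.trans ?_
      calc (G * b) ^ (2 * k - 2) * N * ((k : ℝ) ^ (2 * k) * a ^ k * (p : ℝ) +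
            a ^ (2 * k) * (2 * k * Real.sqrt p))
          ≤ (G * b) ^ (2 * k - 2) * N * (a ^ (2 * k) * (s *
            ((k : ℝ) ^ (2 * k) + 2 * k))) := mul_le_mul_of_nonneg_left hM (by positivity)
        _ = _ := by ring
    have h2 : (G * b) ^ (2 * k - 2) * (N * s) *
        (a ^ (2 * k) * ((k : ℝ) ^ (2 * k) + 2 * k)) ≤
        (G * b) ^ (2 * k - 2) * ((G * b) ^ 2 * (e * e)) *
        (a ^ (2 * k) * ((k : ℝ) ^ (2 * k) + 2 * k)) := by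
      apply mul_le_mul_of_nonneg_right _ (by positivity)
      exact mul_le_mul_of_nonneg_left hN' (by positivity)
    refine h1.trans (h2.trans ?_)
    have h3 : (G * b) ^ (2 * k - 2) * ((G * b) ^ 2 * (e * e)) = (G * b) ^ (2 * k) * (e * e) := by
      rw [← mul_assoc, ← pow_add]
      congr 2
      omega
    have h8 : ((p : ℝ) ^ (-δ) / 2 * (G * a * b)) ^ (2 * k) =
        ((p : ℝ) ^ (-δ)) ^ (2 * k) / 2 ^ (2 * k) * (G * a * b) ^ (2 * k) := by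
      rw [mul_pow, div_pow]
    rw [h3, h8]
    have h9 : (2 : ℝ) ^ (2 * k) = 4 ^ k := by
      rw [pow_mul]; norm_num
    rw [h9]
    have h10 : (G * b) ^ (2 * k) * a ^ (2 * k) = (G * a * b) ^ (2 * k) := by
      rw [← mul_pow]; ring
    have h11 : e * ((k : ℝ) ^ (2 * k) + 2 * k) ≤ 1 / 4 ^ k := by
      rw [le_div_iff₀ (by positivity)]
      have h12 : e * ((k : ℝ) ^ (2 * k) + 2 * k) * 4 ^ k ≤
          ((k : ℝ) ^ (2 * k) + 4 * k ^ 2) * 4 ^ k * e := by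
        have h13 : (k : ℝ) ^ (2 * k) + 2 * k ≤ (k : ℝ) ^ (2 * k) + 4 * k ^ 2 := by nlinarith
        calc e * ((k : ℝ) ^ (2 * k) + 2 * k) * 4 ^ k
            = ((k : ℝ) ^ (2 * k) + 2 * k) * (4 ^ k * e) := by ring
          _ ≤ ((k : ℝ) ^ (2 * k) + 4 * k ^ 2) * (4 ^ k * e) :=
              mul_le_mul_of_nonneg_right h13 (by positivity)
          _ = _ := by ring
      linarith
    calc (G * b) ^ (2 * k) * (e * e) * (a ^ (2 * k) * ((k : ℝ) ^ (2 * k) + 2 * k))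
        = (e * ((G * b) ^ (2 * k) * a ^ (2 * k))) * (e * ((k : ℝ) ^ (2 * k) + 2 * k)) := by ring
      _ ≤ (e * ((G * b) ^ (2 * k) * a ^ (2 * k))) * (1 / 4 ^ k) :=
          mul_le_mul_of_nonneg_left h11 (by positivity)
      _ = e / 4 ^ k * (G * a * b) ^ (2 * k) := by rw [h10]; ring
      _ ≤ ((p : ℝ) ^ (-δ)) ^ (2 * k) / 4 ^ k * (G * a * b) ^ (2 * k) := by
          apply mul_le_mul_of_nonneg_right _ (by positivity)
          exact div_le_div_of_nonneg_right h4' (by positivity)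
  have hY4 : Y ≤ (p : ℝ) ^ (-δ) / 2 * (G * a * b) :=
    (pow_le_pow_iff_left₀ hY0 (by positivity) (by omega)).mp hY3
  have hη2 : 2 * (p : ℝ) ^ (-ε) ≤ (p : ℝ) ^ (-δ) / 2 := by
    have h1 : (p : ℝ) ^ (-ε) ≤ e * (p : ℝ) ^ (-δ) := by
      rw [he, ← Real.rpow_add hp0]
      apply Real.rpow_le_rpow_of_exponent_le hpR.le
      linarith
    have h9 : e ≤ 1 / 16 := by
      rw [le_div_iff₀ (by norm_num)]
      linarith
    have h10 : e * (p : ℝ) ^ (-δ) ≤ 1 / 16 * (p : ℝ) ^ (-δ) := mul_le_mul_of_nonneg_right h9 hpδ.le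
    linarith
  have hfin : G * E ≤ G * ((p : ℝ) ^ (-δ) * a * b) := by
    refine hY1.trans ?_
    have h1 : 2 * (p : ℝ) ^ (-ε) * a * b ≤ (p : ℝ) ^ (-δ) / 2 * a * b := by
      apply mul_le_mul_of_nonneg_right _ hb0
      exact mul_le_mul_of_nonneg_right hη2 hapos.le
    calc G * (2 * (p : ℝ) ^ (-ε) * a * b) + Y
        ≤ G * ((p : ℝ) ^ (-δ) / 2 * a * b) + (p : ℝ) ^ (-δ) / 2 * (G * a * b) :=
          add_le_add (mul_le_mul_of_nonneg_left h1 hGpos.le) hY4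
      _ = G * ((p : ℝ) ^ (-δ) * a * b) := by ring
  exact le_of_mul_le_mul_left hfin hGpos

lemma asymp_two (ε : ℝ) (hε : 0 < ε) :
    ∃ (k p₀ : ℕ) (δ : ℝ), 0 < k ∧ 0 < δ ∧
      ∀ p : ℕ, p₀ < p → ∀ a a' b G Q E : ℝ, (p : ℝ) ^ ε < a → a ≤ a' → a' ≤ (p : ℝ) ^ δ * a →
        0 ≤ b → 0 < G → 0 ≤ Q → 0 ≤ E →
        (G * E) ^ (2 * k) ≤ (G * b ^ 2) ^ (2 * k - 2) * Q * ((k : ℝ) ^ (2 * k) * a' ^ k * (p : ℝ) ^ 2 +
          a' ^ (2 * k) * (2 * k * Real.sqrt p) ^ 2) →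
        Q * (p : ℝ) ^ (1 + ε) ≤ (G * b ^ 2) ^ 2 →
        E ≤ ((p : ℝ) ^ (-δ) * b) ^ 2 * a := by
  obtain ⟨k, p₀, δ, hkpos, hδpos, hδε, hk1, hεk, hp₀⟩ := asymp_choice ε hε
  refine ⟨k, p₀, δ, hkpos, hδpos, ?_⟩
  intro p hpp a a' b G Q E hA haa' ha'a hb0 hGpos hQ0 hE0 hE1 hQ
  obtain ⟨hpR, hbigC, hbig16⟩ := hp₀ p hpp
  have hp0 : (0 : ℝ) < p := by linarith
  have hapos : 0 < a := lt_trans (Real.rpow_pos_of_pos hp0 _) hA
  have ha'pos : 0 < a' := lt_of_lt_of_le hapos haa'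
  have hkR : (1 : ℝ) ≤ k := by exact_mod_cast hkpos
  set e : ℝ := (p : ℝ) ^ (-(ε / 2)) with he
  have he0 : 0 < e := Real.rpow_pos_of_pos hp0 _
  have hpk : (p : ℝ) ≤ a' ^ k := moment_simplify k ε p a' hpR hk1 (lt_of_lt_of_le hA haa')
  set C : ℝ := (k : ℝ) ^ (2 * k) + 4 * k ^ 2 with hC
  have hCpos : 0 < C := by positivity
  have hM : (k : ℝ) ^ (2 * k) * a' ^ k * (p : ℝ) ^ 2 + a' ^ (2 * k) * (2 * k * Real.sqrt p) ^ 2 ≤
      a' ^ (2 * k) * (p * C) := by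
    have h5 : a' ^ (2 * k) = a' ^ k * a' ^ k := by rw [← pow_add, two_mul]
    have h6 : (k : ℝ) ^ (2 * k) * a' ^ k * (p : ℝ) ^ 2 ≤ (k : ℝ) ^ (2 * k) * a' ^ k * (a' ^ k * p) := by
      apply mul_le_mul_of_nonneg_left _ (by positivity)
      rw [sq]
      exact mul_le_mul_of_nonneg_right hpk hp0.le
    have h7 : (2 * k * Real.sqrt p) ^ 2 = 4 * k ^ 2 * p := by
      rw [mul_pow, Real.sq_sqrt hp0.le]; ring
    rw [h7, h5]
    calc (k : ℝ) ^ (2 * k) * a' ^ k * (p : ℝ) ^ 2 + a' ^ k * a' ^ k * (4 * k ^ 2 * p)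
        ≤ (k : ℝ) ^ (2 * k) * a' ^ k * (a' ^ k * p) + a' ^ k * a' ^ k * (4 * k ^ 2 * p) := by linarith
      _ = a' ^ k * a' ^ k * (p * C) := by rw [hC]; ring
  have hQ' : Q * p ≤ (G * b ^ 2) ^ 2 * (e * e) := by
    have h1 : (p : ℝ) ^ (1 + ε) = p * (p : ℝ) ^ ε := by
      rw [Real.rpow_add hp0, Real.rpow_one]
    rw [h1] at hQ
    have h2 : (p : ℝ) ^ ε * (e * e) = 1 := by
      rw [he, ← Real.rpow_add hp0, ← Real.rpow_add hp0]
      rw [show ε + (-(ε / 2) + -(ε / 2)) = 0 by ring, Real.rpow_zero]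
    calc Q * p = (Q * (p * (p : ℝ) ^ ε)) * (e * e) := by
          linear_combination (-(Q * p)) * h2
      _ ≤ (G * b ^ 2) ^ 2 * (e * e) := mul_le_mul_of_nonneg_right hQ (by positivity)
  set d : ℝ := (p : ℝ) ^ (-δ) with hd
  have hd0 : 0 < d := Real.rpow_pos_of_pos hp0 _
  have hd1 : d ≤ 1 := Real.rpow_le_one_of_one_le_of_nonpos hpR.le (by linarith)
  have h4 : (d ^ 4) ^ (2 * k) = e := by
    rw [he, hd, ← pow_mul, ← Real.rpow_natCast, ← Real.rpow_mul hp0.le]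
    congr 1
    rw [hεk]
    push_cast
    ring
  have hE2 : (G * E) ^ (2 * k) ≤ (d ^ 4 / 2 * (G * a' * b ^ 2)) ^ (2 * k) := by
    have h1 : (G * E) ^ (2 * k) ≤ (G * b ^ 2) ^ (2 * k - 2) * (Q * p) * (a' ^ (2 * k) * C) := by
      refine hE1.trans ?_
      calc (G * b ^ 2) ^ (2 * k - 2) * Q * ((k : ℝ) ^ (2 * k) * a' ^ k * (p : ℝ) ^ 2 +
            a' ^ (2 * k) * (2 * k * Real.sqrt p) ^ 2)
          ≤ (G * b ^ 2) ^ (2 * k - 2) * Q * (a' ^ (2 * k) * (p * C)) :=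
            mul_le_mul_of_nonneg_left hM (by positivity)
        _ = _ := by ring
    have h2 : (G * b ^ 2) ^ (2 * k - 2) * (Q * p) * (a' ^ (2 * k) * C) ≤
        (G * b ^ 2) ^ (2 * k - 2) * ((G * b ^ 2) ^ 2 * (e * e)) * (a' ^ (2 * k) * C) := by
      apply mul_le_mul_of_nonneg_right _ (by positivity)
      exact mul_le_mul_of_nonneg_left hQ' (by positivity)
    refine h1.trans (h2.trans ?_)
    have h3 : (G * b ^ 2) ^ (2 * k - 2) * ((G * b ^ 2) ^ 2 * (e * e)) =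
        (G * b ^ 2) ^ (2 * k) * (e * e) := by
      rw [← mul_assoc, ← pow_add]
      congr 2
      omega
    have h8 : (d ^ 4 / 2 * (G * a' * b ^ 2)) ^ (2 * k) =
        (d ^ 4) ^ (2 * k) / 2 ^ (2 * k) * (G * a' * b ^ 2) ^ (2 * k) := by
      rw [mul_pow, div_pow]
    rw [h3, h8, h4]
    have h9 : (2 : ℝ) ^ (2 * k) = 4 ^ k := by
      rw [pow_mul]; norm_num
    rw [h9]
    have h10 : (G * b ^ 2) ^ (2 * k) * a' ^ (2 * k) = (G * a' * b ^ 2) ^ (2 * k) := by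
      rw [← mul_pow]; ring
    have h11 : e * C ≤ 1 / 4 ^ k := by
      rw [le_div_iff₀ (by positivity)]
      linarith
    calc (G * b ^ 2) ^ (2 * k) * (e * e) * (a' ^ (2 * k) * C)
        = (e * ((G * b ^ 2) ^ (2 * k) * a' ^ (2 * k))) * (e * C) := by ring
      _ ≤ (e * ((G * b ^ 2) ^ (2 * k) * a' ^ (2 * k))) * (1 / 4 ^ k) :=
          mul_le_mul_of_nonneg_left h11 (by positivity)
      _ = e / 4 ^ k * (G * a' * b ^ 2) ^ (2 * k) := by rw [h10]; ring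
  have hE3 : G * E ≤ d ^ 4 / 2 * (G * a' * b ^ 2) :=
    (pow_le_pow_iff_left₀ (by positivity) (by positivity) (by omega)).mp hE2
  have hE4 : E ≤ d ^ 4 / 2 * (a' * b ^ 2) := by
    apply le_of_mul_le_mul_left _ hGpos
    calc G * E ≤ d ^ 4 / 2 * (G * a' * b ^ 2) := hE3
      _ = G * (d ^ 4 / 2 * (a' * b ^ 2)) := by ring
  have hd2 : d * (p : ℝ) ^ δ = 1 := by
    rw [mul_comm]; exact rpow_mul_neg hp0
  have hda : d * a' ≤ a := by
    calc d * a' ≤ d * ((p : ℝ) ^ δ * a) := mul_le_mul_of_nonneg_left ha'a hd0.le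
      _ = (d * (p : ℝ) ^ δ) * a := by ring
      _ = a := by rw [hd2, one_mul]
  calc E ≤ d ^ 4 / 2 * (a' * b ^ 2) := hE4
    _ = (d ^ 3 / 2 * b ^ 2) * (d * a') := by ring
    _ ≤ (d ^ 3 / 2 * b ^ 2) * a := mul_le_mul_of_nonneg_left hda (by positivity)
    _ ≤ (d * b) ^ 2 * a := by
        apply mul_le_mul_of_nonneg_right _ hapos.le
        have h5 : d ^ 3 / 2 ≤ d ^ 2 := by
          have h6 : d ^ 3 ≤ d ^ 2 := pow_le_pow_of_le_one hd0.le hd1 (by omega)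
          have h7 : 0 ≤ d ^ 3 := by positivity
          linarith
        calc d ^ 3 / 2 * b ^ 2 ≤ d ^ 2 * b ^ 2 := mul_le_mul_of_nonneg_right h5 (by positivity)
          _ = (d * b) ^ 2 := by ring

end Pool.Agent.helper82.Weil
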