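import Mathlib
import Pool.Agent.helper82.Weil.N
import Pool.Agent.helper82.Weil.O

set_option autoImplicit false

/-!
Part P: the two bounds with the collision counts in a more readable form.
-/

namespace Pool.Agent.helper82.Weil

lemma card_filter_pairs {α β : Type*} [DecidableEq α] [DecidableEq β] (Γ : Finset α)
    (B : Finset β) (P : α → β → α → β → Prop) [∀ a b c d, Decidable (P a b c d)] :
    (((Γ ×ˢ B) ×ˢ (Γ ×ˢ B)).filter (fun x => P x.1.1 x.1.2 x.2.1 x.2.2)).card =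
      ∑ g ∈ Γ, ∑ h ∈ Γ, ((B ×ˢ B).filter (fun x => P g x.1 h x.2)).card := by
  simp only [Finset.card_eq_sum_ones, Finset.sum_filter, Finset.sum_product]
  refine Finset.sum_congr rfl fun g _ => ?_
  rw [Finset.sum_comm]

lemma card_filter_quad {α β : Type*} [DecidableEq α] [DecidableEq β] (Γ : Finset α)
    (B : Finset β) (P : α → β → α → β → Prop) [∀ a b c d, Decidable (P a b c d)] :
    (((Γ ×ˢ (B ×ˢ B)) ×ˢ (Γ ×ˢ (B ×ˢ B))).filter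
      (fun x => P x.1.1 x.1.2.1 x.2.1 x.2.2.1 ∧ P x.1.1 x.1.2.2 x.2.1 x.2.2.2)).card =
      ∑ g ∈ Γ, ∑ h ∈ Γ, ((B ×ˢ B).filter (fun x => P g x.1 h x.2)).card ^ 2 := by
  have h1 : ∀ g h, ((B ×ˢ B).filter (fun x => P g x.1 h x.2)).card ^ 2 =
      ((((B ×ˢ B)) ×ˢ (B ×ˢ B)).filter (fun x => P g x.1.1 h x.2.1 ∧ P g x.1.2 h x.2.2)).card := by
    intro g h
    rw [sq, ← Finset.card_product]
    refine Finset.card_bij (fun x _ => ((x.1.1, x.2.1), (x.1.2, x.2.2))) ?_ ?_ ?_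
    · intro x hx
      simp only [Finset.mem_product, Finset.mem_filter] at hx ⊢
      tauto
    · intro x _ y _ hxy
      simp only [Prod.mk.injEq] at hxy
      obtain ⟨⟨a, b⟩, c, d⟩ := hxy
      ext <;> assumption
    · intro x hx
      simp only [Finset.mem_product, Finset.mem_filter] at hx
      refine ⟨((x.1.1, x.2.1), (x.1.2, x.2.2)), ?_, rfl⟩
      simp only [Finset.mem_product, Finset.mem_filter]
      tauto
  simp_rw [h1]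
  exact card_filter_pairs Γ (B ×ˢ B) (fun g x h y => P g x.1 h y.1 ∧ P g x.2 h y.2)

section fin
variable {F : Type*} [Field F] [Fintype F] [DecidableEq F]

theorem affine_bound' (χ : MulChar F ℂ) (hχ : χ ≠ 1) (A B : Finset F) (Γ : Finset (F × F))
    (hΓ : ∀ g ∈ Γ, g.1 ≠ 0) (η : ℝ)
    (hη : ∀ g ∈ Γ, ((A.filter (fun a => g.1 * a + g.2 ∉ A)).card : ℝ) ≤ η * A.card)
    (k : ℕ) (hk : 0 < k) :
    ∃ Y : ℝ, 0 ≤ Y ∧
      (Γ.card : ℝ) * ∑ b ∈ B, ‖∑ a ∈ A, χ (a + b)‖ ≤ Γ.card * (2 * η * A.card * B.card) + Y ∧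
      Y ^ (2 * k) ≤ ((Γ.card : ℝ) * B.card) ^ (2 * k - 2) *
        (∑ g ∈ Γ, ∑ h ∈ Γ,
          (((B ×ˢ B).filter (fun x => h.1 * (x.1 + g.2) = g.1 * (x.2 + h.2))).card : ℝ)) *
        ((k : ℝ) ^ (2 * k) * (A.card : ℝ) ^ k * (Fintype.card F : ℝ) +
          (A.card : ℝ) ^ (2 * k) * (2 * k * Real.sqrt (Fintype.card F))) := by
  obtain ⟨Y, hY0, hY1, hY2⟩ := affine_bound χ hχ A B Γ hΓ η hη k hk
  refine ⟨Y, hY0, hY1, ?_⟩
  have h1 : ((Γ ×ˢ B) ×ˢ (Γ ×ˢ B)).filter (fun x => (x.1.2 + x.1.1.2) / x.1.1.1 =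
          (x.2.2 + x.2.1.2) / x.2.1.1) =
      ((Γ ×ˢ B) ×ˢ (Γ ×ˢ B)).filter (fun x =>
        x.2.1.1 * (x.1.2 + x.1.1.2) = x.1.1.1 * (x.2.2 + x.2.1.2)) := by
    apply Finset.filter_congr
    intro x hx
    simp only [Finset.mem_product] at hx
    rw [div_eq_div_iff (hΓ _ hx.1.1) (hΓ _ hx.2.1)]
    rw [mul_comm (x.1.2 + x.1.1.2), mul_comm (x.2.2 + x.2.1.2)]
  rw [h1] at hY2
  have h2 := card_filter_pairs Γ B (fun (g : F × F) (b : F) (h : F × F) (c : F) =>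
    h.1 * (b + g.2) = g.1 * (c + h.2))
  rw [h2] at hY2
  push_cast at hY2
  exact hY2

theorem moebius_bound' (χ : MulChar F ℂ) (hχ : χ ≠ 1) (A A' B : Finset F)
    (Γ : Finset (F × F × F × F))
    (hA : ∀ g ∈ Γ, ∀ a ∈ A, ∃ a' ∈ A', g.2.2.1 * a' + g.2.2.2 ≠ 0 ∧
      g.1 * a' + g.2.1 = a * (g.2.2.1 * a' + g.2.2.2))
    (hB : ∀ g ∈ Γ, ∀ b ∈ B, g.1 + b * g.2.2.1 ≠ 0)
    (β : F → ℂ) (hβ : ∀ b, ‖β b‖ ≤ 1) (k : ℕ) (hk : 0 < k) :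
    ((Γ.card : ℝ) * ∑ a ∈ A, ‖∑ b ∈ B, β b * χ (a + b)‖ ^ 2) ^ (2 * k) ≤
      ((Γ.card : ℝ) * (B.card : ℝ) ^ 2) ^ (2 * k - 2) *
        (∑ g ∈ Γ, ∑ h ∈ Γ, (((B ×ˢ B).filter (fun x =>
          (g.2.1 + x.1 * g.2.2.2) * (h.1 + x.2 * h.2.2.1) =
            (h.2.1 + x.2 * h.2.2.2) * (g.1 + x.1 * g.2.2.1))).card : ℝ) ^ 2) *
        ((k : ℝ) ^ (2 * k) * (A'.card : ℝ) ^ k * (Fintype.card F : ℝ) ^ 2 +
          (A'.card : ℝ) ^ (2 * k) * (2 * k * Real.sqrt (Fintype.card F)) ^ 2) := by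
  have h0 := moebius_bound χ hχ A A' B Γ hA hB β hβ k hk
  have h1 : ((Γ ×ˢ (B ×ˢ B)) ×ˢ (Γ ×ˢ (B ×ˢ B))).filter (fun x =>
          ((x.1.1.2.1 + x.1.2.1 * x.1.1.2.2.2) / (x.1.1.1 + x.1.2.1 * x.1.1.2.2.1) =
            (x.2.1.2.1 + x.2.2.1 * x.2.1.2.2.2) / (x.2.1.1 + x.2.2.1 * x.2.1.2.2.1)) ∧
          ((x.1.1.2.1 + x.1.2.2 * x.1.1.2.2.2) / (x.1.1.1 + x.1.2.2 * x.1.1.2.2.1) =
            (x.2.1.2.1 + x.2.2.2 * x.2.1.2.2.2) / (x.2.1.1 + x.2.2.2 * x.2.1.2.2.1))) =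
      ((Γ ×ˢ (B ×ˢ B)) ×ˢ (Γ ×ˢ (B ×ˢ B))).filter (fun x =>
          ((x.1.1.2.1 + x.1.2.1 * x.1.1.2.2.2) * (x.2.1.1 + x.2.2.1 * x.2.1.2.2.1) =
            (x.2.1.2.1 + x.2.2.1 * x.2.1.2.2.2) * (x.1.1.1 + x.1.2.1 * x.1.1.2.2.1)) ∧
          ((x.1.1.2.1 + x.1.2.2 * x.1.1.2.2.2) * (x.2.1.1 + x.2.2.2 * x.2.1.2.2.1) =
            (x.2.1.2.1 + x.2.2.2 * x.2.1.2.2.2) * (x.1.1.1 + x.1.2.2 * x.1.1.2.2.1))) := by
    apply Finset.filter_congr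
    intro x hx
    simp only [Finset.mem_product] at hx
    rw [div_eq_div_iff (hB _ hx.1.1 _ hx.1.2.1) (hB _ hx.2.1 _ hx.2.2.1),
      div_eq_div_iff (hB _ hx.1.1 _ hx.1.2.2) (hB _ hx.2.1 _ hx.2.2.2)]
  rw [h1] at h0
  have h2 := card_filter_quad Γ B (fun (g : F × F × F × F) (b : F) (h : F × F × F × F) (c : F) =>
    (g.2.1 + b * g.2.2.2) * (h.1 + c * h.2.2.1) = (h.2.1 + c * h.2.2.2) * (g.1 + b * g.2.2.1))
  rw [h2] at h0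
  push_cast at h0
  exact h0

/-- the growth hypothesis bounds `A` by `A'`. -/
lemma card_le_of_moebius (A A' : Finset F) (g : F × F × F × F)
    (hA : ∀ a ∈ A, ∃ a' ∈ A', g.2.2.1 * a' + g.2.2.2 ≠ 0 ∧
      g.1 * a' + g.2.1 = a * (g.2.2.1 * a' + g.2.2.2)) : A.card ≤ A'.card := by
  choose! f hf using hA
  refine Finset.card_le_card_of_injOn f (fun a ha => (hf a ha).1) ?_
  intro a ha b hb hab
  have h1 := hf a ha
  have h2 := hf b hb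
  rw [hab] at h1
  have h3 := h1.2.2.symm.trans h2.2.2
  exact mul_right_cancel₀ h2.2.1 h3

end fin

end Pool.Agent.helper82.Weil
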