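import Mathlib
import Pool.Agent.helper82.Weil.P

set_option autoImplicit false

/-!
Part Q: double sums over sets with additive structure, via multiplicative and additive energies.
-/

namespace Pool.Agent.helper82.Weil

open Finset Pointwise

section gen
variable {F : Type*} [Field F] [DecidableEq F]

/-- number of `(u, v)` with `n u = m v`. -/
def eC (D : Finset F) (m n : F) : ℕ := ((D ×ˢ D).filter (fun x => n * x.1 = m * x.2)).card

lemma sum_eC (M D : Finset F) : ∑ m ∈ M, ∑ n ∈ M, eC D m n = mulEnergy M D := by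
  unfold eC mulEnergy
  simp only [Finset.card_eq_sum_ones, Finset.sum_filter, Finset.sum_product]
  refine Finset.sum_congr rfl fun m _ => Finset.sum_congr rfl fun n _ => ?_
  rw [Finset.sum_comm]
  refine Finset.sum_congr rfl fun u _ => Finset.sum_congr rfl fun v _ => ?_
  refine if_congr ?_ rfl rfl
  exact eq_comm

/-- quadruples with `n (b - b') = m (d - d')`. -/
def sC (B : Finset F) (m n : F) : ℕ :=
  (((B ×ˢ B) ×ˢ (B ×ˢ B)).filter (fun x => n * (x.1.1 - x.1.2) = m * (x.2.1 - x.2.2))).card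

lemma sum_sq_fibre (B : Finset F) (n : F) (hn : n ≠ 0) :
    ∑ w ∈ (B ×ˢ B).image (fun x => n * (x.1 - x.2)),
      ((B ×ˢ B).filter (fun x => n * (x.1 - x.2) = w)).card ^ 2 = addEnergy B B := by
  have h1 : addEnergy B B = (((B ×ˢ B) ×ˢ (B ×ˢ B)).filter
      (fun x => n * (x.1.1 - x.1.2) = n * (x.2.1 - x.2.2))).card := by
    unfold addEnergy
    refine Finset.card_bij (fun x _ => (x.1, (x.2.2, x.2.1))) ?_ ?_ ?_
    · intro x hx
      simp only [mem_filter, mem_product] at hx ⊢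
      refine ⟨⟨hx.1.1, hx.1.2.2, hx.1.2.1⟩, ?_⟩
      congr 1
      linear_combination hx.2
    · intro x _ y _ hxy
      simp only [Prod.mk.injEq] at hxy
      obtain ⟨a, b, c⟩ := hxy
      ext
      · rw [a]
      · rw [a]
      · exact c
      · exact b
    · intro x hx
      simp only [mem_filter, mem_product] at hx
      refine ⟨(x.1, (x.2.2, x.2.1)), ?_, rfl⟩
      simp only [mem_filter, mem_product]
      refine ⟨⟨hx.1.1, hx.1.2.2, hx.1.2.1⟩, ?_⟩
      have := mul_left_cancel₀ hn hx.2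
      linear_combination this
  rw [h1, Finset.card_eq_sum_card_fiberwise (f := fun x => n * (x.1.1 - x.1.2))
    (t := (B ×ˢ B).image (fun x => n * (x.1 - x.2)))]
  · refine Finset.sum_congr rfl fun w _ => ?_
    rw [sq, ← Finset.card_product]
    congr 1
    ext x
    simp only [mem_filter, mem_product]
    constructor
    · rintro ⟨⟨a, b⟩, c, d⟩
      exact ⟨⟨⟨a, c⟩, by rw [b, d]⟩, b⟩
    · rintro ⟨⟨⟨a, b⟩, c⟩, d⟩
      exact ⟨⟨a, d⟩, b, by rw [← c, d]⟩
  · intro x hx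
    simp only [coe_filter, mem_product, Set.mem_setOf_eq] at hx
    simp only [coe_image, Set.mem_image, mem_coe, mem_product]
    exact ⟨x.1, hx.1.1, rfl⟩

lemma sC_le (B : Finset F) (m n : F) (hm : m ≠ 0) (hn : n ≠ 0) : sC B m n ≤ addEnergy B B := by
  set f : F → ℕ := fun w => ((B ×ˢ B).filter (fun x => n * (x.1 - x.2) = w)).card with hf
  set g : F → ℕ := fun w => ((B ×ˢ B).filter (fun x => m * (x.1 - x.2) = w)).card with hg
  set W : Finset F := (B ×ˢ B).image (fun x => n * (x.1 - x.2)) ∪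
    (B ×ˢ B).image (fun x => m * (x.1 - x.2)) with hW
  have h1 : sC B m n = ∑ w ∈ W, f w * g w := by
    unfold sC
    rw [Finset.card_eq_sum_card_fiberwise (f := fun x => n * (x.1.1 - x.1.2)) (t := W)]
    · refine Finset.sum_congr rfl fun w _ => ?_
      rw [hf, hg, ← Finset.card_product]
      congr 1
      ext x
      simp only [mem_filter, mem_product]
      constructor
      · rintro ⟨⟨⟨a, b⟩, c⟩, d⟩
        exact ⟨⟨a, d⟩, b, by rw [← c, d]⟩
      · rintro ⟨⟨a, b⟩, c, d⟩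
        exact ⟨⟨⟨a, c⟩, by rw [b, d]⟩, b⟩
    · intro x hx
      simp only [coe_filter, mem_product, Set.mem_setOf_eq] at hx
      simp only [hW, coe_union, coe_image, Set.mem_union, Set.mem_image, mem_coe, mem_product]
      left
      exact ⟨x.1, hx.1.1, rfl⟩
  have hf2 : ∑ w ∈ W, f w ^ 2 = addEnergy B B := by
    rw [← sum_sq_fibre B n hn]
    symm
    apply Finset.sum_subset (Finset.subset_union_left)
    intro w _ hw
    have : (B ×ˢ B).filter (fun x => n * (x.1 - x.2) = w) = ∅ := by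
      rw [Finset.filter_eq_empty_iff]
      intro x hx heq
      exact hw (Finset.mem_image.mpr ⟨x, hx, heq⟩)
    rw [this]; simp
  have hg2 : ∑ w ∈ W, g w ^ 2 = addEnergy B B := by
    rw [← sum_sq_fibre B m hm]
    symm
    apply Finset.sum_subset (Finset.subset_union_right)
    intro w _ hw
    have : (B ×ˢ B).filter (fun x => m * (x.1 - x.2) = w) = ∅ := by
      rw [Finset.filter_eq_empty_iff]
      intro x hx heq
      exact hw (Finset.mem_image.mpr ⟨x, hx, heq⟩)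
    rw [this]; simp
  have h2 : 2 * ∑ w ∈ W, f w * g w ≤ ∑ w ∈ W, f w ^ 2 + ∑ w ∈ W, g w ^ 2 := by
    rw [Finset.mul_sum, ← Finset.sum_add_distrib]
    refine Finset.sum_le_sum fun w _ => ?_
    have := two_mul_le_add_sq (f w) (g w)
    linarith
  rw [hf2, hg2] at h2
  rw [h1]
  omega

/-- collision count -/
lemma collisions_le (M P B : Finset F) (hM : ∀ m ∈ M, m ≠ 0) :
    ((((M ×ˢ P) ×ˢ (B ×ˢ B)) ×ˢ ((M ×ˢ P) ×ˢ (B ×ˢ B))).filter (fun x =>
      (x.1.1.2 + x.1.2.1) / x.1.1.1 = (x.2.1.2 + x.2.2.1) / x.2.1.1 ∧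
      (x.1.1.2 + x.1.2.2) / x.1.1.1 = (x.2.1.2 + x.2.2.2) / x.2.1.1)).card ≤
      mulEnergy M (P - P) * addEnergy B B := by
  set Coll := (((M ×ˢ P) ×ˢ (B ×ˢ B)) ×ˢ ((M ×ˢ P) ×ˢ (B ×ˢ B))).filter (fun x =>
      (x.1.1.2 + x.1.2.1) / x.1.1.1 = (x.2.1.2 + x.2.2.1) / x.2.1.1 ∧
      (x.1.1.2 + x.1.2.2) / x.1.1.1 = (x.2.1.2 + x.2.2.2) / x.2.1.1) with hColl
  set K : Finset ((F × F) × ((F × F) × (F × F))) := (M ×ˢ M) ×ˢ ((B ×ˢ B) ×ˢ (B ×ˢ B)) with hK
  have hmaps : Set.MapsTo (fun x : (((F × F) × (F × F)) × ((F × F) × (F × F))) =>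
      (((x.1.1.1, x.2.1.1), (x.1.2, x.2.2)) : (F × F) × ((F × F) × (F × F)))) ↑Coll ↑K := by
    intro x hx
    simp only [hColl, coe_filter, mem_product, Set.mem_setOf_eq] at hx
    simp only [hK, mem_coe, mem_product]
    tauto
  rw [Finset.card_eq_sum_card_fiberwise hmaps]
  have hfib : ∀ κ ∈ K, (Coll.filter (fun x => ((x.1.1.1, x.2.1.1), (x.1.2, x.2.2)) = κ)).card ≤
      if κ.1.2 * (κ.2.1.1 - κ.2.1.2) = κ.1.1 * (κ.2.2.1 - κ.2.2.2) then eC (P - P) κ.1.1 κ.1.2 else 0 := by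
    intro κ hκ
    simp only [hK, mem_product] at hκ
    have hm0 := hM _ hκ.1.1
    have hn0 := hM _ hκ.1.2
    rcases Finset.eq_empty_or_nonempty (Coll.filter
      (fun x => ((x.1.1.1, x.2.1.1), (x.1.2, x.2.2)) = κ)) with hemp | ⟨x₀, hx₀⟩
    · rw [hemp, card_empty]
      exact Nat.zero_le _
    · -- equations for a member
      have heqs : ∀ x ∈ Coll.filter (fun x => ((x.1.1.1, x.2.1.1), (x.1.2, x.2.2)) = κ),
          κ.1.2 * (x.1.1.2 + κ.2.1.1) = κ.1.1 * (x.2.1.2 + κ.2.2.1) ∧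
          κ.1.2 * (x.1.1.2 + κ.2.1.2) = κ.1.1 * (x.2.1.2 + κ.2.2.2) ∧
          x.1.1.2 ∈ P ∧ x.2.1.2 ∈ P := by
        intro x hx
        simp only [hColl, mem_filter, mem_product] at hx
        obtain ⟨⟨⟨⟨⟨h1, h2⟩, h3, h4⟩, ⟨h5, h6⟩, h7, h8⟩, h9, h10⟩, h11⟩ := hx
        subst h11
        rw [div_eq_div_iff hm0 hn0] at h9 h10
        refine ⟨?_, ?_, h2, h6⟩
        · simp only
          linear_combination h9
        · simp only
          linear_combination h10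
      obtain ⟨g1, g2, g3, g4⟩ := heqs x₀ hx₀
      rw [if_pos (by linear_combination g1 - g2)]
      unfold eC
      refine Finset.card_le_card_of_injOn (fun x => (x.1.1.2 - x₀.1.1.2, x.2.1.2 - x₀.2.1.2)) ?_ ?_
      · intro x hx
        obtain ⟨k1, k2, k3, k4⟩ := heqs x hx
        simp only [mem_coe, mem_filter, mem_product]
        refine ⟨⟨sub_mem_sub k3 g3, sub_mem_sub k4 g4⟩, ?_⟩
        linear_combination k1 - g1
      · intro x hx y hy hxy
        simp only [mem_coe, mem_filter] at hx hy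
        simp only [Prod.mk.injEq] at hxy
        have e1 := hx.2.trans hy.2.symm
        simp only [Prod.mk.injEq] at e1
        obtain ⟨⟨e2, e3⟩, e4, e5⟩ := e1
        have e6 : x.1.1.2 = y.1.1.2 := by linear_combination hxy.1
        have e7 : x.2.1.2 = y.2.1.2 := by linear_combination hxy.2
        exact Prod.ext (Prod.ext (Prod.ext e2 e6) e4) (Prod.ext (Prod.ext e3 e7) e5)
  refine (Finset.sum_le_sum hfib).trans ?_
  rw [hK, Finset.sum_product, Finset.sum_product]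
  have h1 : ∀ m ∈ M, ∀ n ∈ M, ∑ y ∈ (B ×ˢ B) ×ˢ (B ×ˢ B),
      (if n * (y.1.1 - y.1.2) = m * (y.2.1 - y.2.2) then eC (P - P) m n else 0) ≤
        eC (P - P) m n * addEnergy B B := by
    intro m hm n hn
    rw [← Finset.sum_filter, Finset.sum_const, smul_eq_mul, mul_comm]
    exact Nat.mul_le_mul_left _ (sC_le B m n (hM m hm) (hM n hn))
  refine (Finset.sum_le_sum fun m hm => Finset.sum_le_sum fun n hn => h1 m hm n hn).trans ?_
  simp_rw [← Finset.sum_mul]
  rw [sum_eC]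

end gen

section fin
variable {F : Type*} [Field F] [Fintype F] [DecidableEq F]

theorem energy_bound (χ : MulChar F ℂ) (hχ : χ ≠ 1) (A P M T B : Finset F)
    (hM : ∀ m ∈ M, m ≠ 0) (hP : ∀ a ∈ A, ∀ m ∈ M, ∀ t ∈ T, a - m * t ∈ P)
    (β : F → ℂ) (hβ : ∀ b, ‖β b‖ ≤ 1) (k : ℕ) (hk : 0 < k) :
    ((M.card : ℝ) * T.card * ∑ a ∈ A, ‖∑ b ∈ B, β b * χ (a + b)‖ ^ 2) ^ (2 * k) ≤
      ((M.card : ℝ) * P.card * (B.card : ℝ) ^ 2) ^ (2 * k - 2) *
        ((mulEnergy M (P - P) : ℝ) * addEnergy B B) *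
        ((k : ℝ) ^ (2 * k) * (T.card : ℝ) ^ k * (Fintype.card F : ℝ) ^ 2 +
          (T.card : ℝ) ^ (2 * k) * (2 * k * Real.sqrt (Fintype.card F)) ^ 2) := by
  set R : F × F → ℂ := fun uv => ∑ t ∈ T, χ (t + uv.1) * (starRingEnd ℂ) (χ (t + uv.2)) with hR
  set S : F → ℂ := fun a => ∑ b ∈ B, β b * χ (a + b) with hS
  -- for each m
  have step1 : ∀ m ∈ M, (T.card : ℝ) * ∑ a ∈ A, ‖S a‖ ^ 2 ≤
      ∑ x ∈ P, ∑ i ∈ B ×ˢ B, ‖R ((x + i.1) / m, (x + i.2) / m)‖ := by
    intro m hm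
    have hm0 := hM m hm
    have h1 : (T.card : ℝ) * ∑ a ∈ A, ‖S a‖ ^ 2 ≤ ∑ t ∈ T, ∑ x ∈ P, ‖S (x + m * t)‖ ^ 2 := by
      rw [← nsmul_eq_mul, ← Finset.sum_const]
      refine Finset.sum_le_sum fun t ht => ?_
      have hinj : Set.InjOn (fun a => a - m * t) ↑A := by
        intro a _ b _ h
        exact sub_left_injective h
      have h2 : ∑ a ∈ A, ‖S a‖ ^ 2 = ∑ x ∈ A.image (fun a => a - m * t), ‖S (x + m * t)‖ ^ 2 := by
        rw [Finset.sum_image hinj]
        refine Finset.sum_congr rfl fun a _ => ?_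
        rw [sub_add_cancel]
      rw [h2]
      apply Finset.sum_le_sum_of_subset_of_nonneg
      · intro x hx
        rw [mem_image] at hx
        obtain ⟨a, ha, rfl⟩ := hx
        exact hP a ha m hm t ht
      · intro _ _ _; positivity
    refine h1.trans ?_
    rw [Finset.sum_comm]
    refine Finset.sum_le_sum fun x _ => ?_
    have h3 : ((∑ t ∈ T, ‖S (x + m * t)‖ ^ 2 : ℝ) : ℂ) =
        ∑ i ∈ B ×ˢ B, β i.1 * (starRingEnd ℂ) (β i.2) * R ((x + i.1) / m, (x + i.2) / m) := by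
      push_cast
      have h5 : χ m * (starRingEnd ℂ) (χ m) = 1 := by
        have hpos : 0 < Fintype.card Fˣ := Fintype.card_pos
        have h6 : (χ m) ^ (Fintype.card Fˣ) = 1 := by
          rw [← MulChar.pow_apply' χ hpos.ne', MulChar.pow_card_eq_one χ]
          exact MulChar.one_apply (isUnit_iff_ne_zero.mpr hm0)
        rw [Complex.mul_conj', Complex.norm_eq_one_of_pow_eq_one h6 hpos.ne']
        simp
      have h4 : ∀ t : F, ((‖S (x + m * t)‖ : ℝ) : ℂ) ^ 2 =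
          ∑ i ∈ B ×ˢ B, β i.1 * (starRingEnd ℂ) (β i.2) *
            (χ (t + (x + i.1) / m) * (starRingEnd ℂ) (χ (t + (x + i.2) / m))) := by
        intro t
        have e1 : ∀ b : F, χ (x + m * t + b) = χ m * χ (t + (x + b) / m) := by
          intro b
          rw [← map_mul]
          congr 1
          field_simp
          ring
        simp only [hS]
        rw [← Complex.mul_conj', map_sum, Finset.sum_mul_sum, Finset.sum_product]
        refine Finset.sum_congr rfl fun b _ => Finset.sum_congr rfl fun b' _ => ?_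
        rw [e1, e1, map_mul, map_mul]
        linear_combination (β b * (starRingEnd ℂ) (β b') * χ (t + (x + b) / m) *
          (starRingEnd ℂ) (χ (t + (x + b') / m))) * h5
      simp_rw [h4]
      rw [Finset.sum_comm]
      refine Finset.sum_congr rfl fun i _ => ?_
      rw [hR, Finset.mul_sum]
    have h5 : ∑ t ∈ T, ‖S (x + m * t)‖ ^ 2 = ‖((∑ t ∈ T, ‖S (x + m * t)‖ ^ 2 : ℝ) : ℂ)‖ := by
      rw [Complex.norm_real, Real.norm_eq_abs, abs_of_nonneg]
      exact Finset.sum_nonneg fun _ _ => by positivity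
    rw [h5, h3]
    refine (norm_sum_le _ _).trans (Finset.sum_le_sum fun i _ => ?_)
    rw [norm_mul, norm_mul, RCLike.norm_conj]
    have h6 : ‖β i.1‖ * ‖β i.2‖ ≤ 1 := mul_le_one₀ (hβ _) (norm_nonneg _) (hβ _)
    exact mul_le_of_le_one_left (norm_nonneg _) h6
  have step2 : (M.card : ℝ) * T.card * ∑ a ∈ A, ‖S a‖ ^ 2 ≤
      ∑ i ∈ (M ×ˢ P) ×ˢ (B ×ˢ B), ‖R ((i.1.2 + i.2.1) / i.1.1, (i.1.2 + i.2.2) / i.1.1)‖ := by
    rw [Finset.sum_product, Finset.sum_product, mul_assoc, ← nsmul_eq_mul, ← Finset.sum_const]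
    exact Finset.sum_le_sum step1
  have h0 : 0 ≤ (M.card : ℝ) * T.card * ∑ a ∈ A, ‖S a‖ ^ 2 :=
    mul_nonneg (by positivity) (Finset.sum_nonneg fun _ _ => by positivity)
  refine (pow_le_pow_left₀ h0 step2 (2 * k)).trans ?_
  have h1 := holder_collision ((M ×ˢ P) ×ˢ (B ×ˢ B))
    (fun i : (F × F) × (F × F) => ((i.1.2 + i.2.1) / i.1.1, (i.1.2 + i.2.2) / i.1.1))
    (fun x => ‖R x‖) (fun _ => norm_nonneg _) k hk
  rw [Finset.card_product, Finset.card_product, Finset.card_product] at h1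
  push_cast at h1
  refine h1.trans ?_
  rw [← sq]
  have h2 : ∑ j, ‖R j‖ ^ (2 * k) ≤ (k : ℝ) ^ (2 * k) * (T.card : ℝ) ^ k * (Fintype.card F : ℝ) ^ 2 +
          (T.card : ℝ) ^ (2 * k) * (2 * k * Real.sqrt (Fintype.card F)) ^ 2 := by
    rw [Fintype.sum_prod_type]
    exact moment_two χ hχ k T
  have h3 : (((((M ×ˢ P) ×ˢ (B ×ˢ B)) ×ˢ ((M ×ˢ P) ×ˢ (B ×ˢ B))).filter (fun x =>
      ((x.1.1.2 + x.1.2.1) / x.1.1.1, (x.1.1.2 + x.1.2.2) / x.1.1.1) =
      ((x.2.1.2 + x.2.2.1) / x.2.1.1, (x.2.1.2 + x.2.2.2) / x.2.1.1))).card : ℝ) ≤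
      (mulEnergy M (P - P) : ℝ) * addEnergy B B := by
    have h4 := collisions_le M P B hM
    have h5 : (((M ×ˢ P) ×ˢ (B ×ˢ B)) ×ˢ ((M ×ˢ P) ×ˢ (B ×ˢ B))).filter (fun x =>
      ((x.1.1.2 + x.1.2.1) / x.1.1.1, (x.1.1.2 + x.1.2.2) / x.1.1.1) =
      ((x.2.1.2 + x.2.2.1) / x.2.1.1, (x.2.1.2 + x.2.2.2) / x.2.1.1)) =
      (((M ×ˢ P) ×ˢ (B ×ˢ B)) ×ˢ ((M ×ˢ P) ×ˢ (B ×ˢ B))).filter (fun x =>
      (x.1.1.2 + x.1.2.1) / x.1.1.1 = (x.2.1.2 + x.2.2.1) / x.2.1.1 ∧
      (x.1.1.2 + x.1.2.2) / x.1.1.1 = (x.2.1.2 + x.2.2.2) / x.2.1.1) := by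
      apply Finset.filter_congr
      intro x _
      rw [Prod.mk.injEq]
    rw [h5]
    exact_mod_cast h4
  refine mul_le_mul ?_ h2 (Finset.sum_nonneg fun _ _ => by positivity) (by positivity)
  exact mul_le_mul_of_nonneg_left h3 (by positivity)

end fin

end Pool.Agent.helper82.Weil
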