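import Mathlib
import Pool.Agent.helper82.Weil.O

set_option autoImplicit false

/-!
Part R: passage to power savings, core version.
-/

namespace Pool.Agent.helper82.Weil

lemma asymp_core (ε : ℝ) (hε : 0 < ε) :
    ∃ (k p₀ : ℕ) (δ : ℝ), 0 < k ∧ 0 < δ ∧
      ∀ p : ℕ, p₀ < p → (1 : ℝ) < p ∧ ∀ t W Q Y : ℝ, (p : ℝ) ^ ε < t → 0 ≤ W → 0 ≤ Q → 0 ≤ Y →
        Y ^ (2 * k) ≤ W ^ (2 * k - 2) * Q * ((k : ℝ) ^ (2 * k) * t ^ k * (p : ℝ) ^ 2 +
          t ^ (2 * k) * (2 * k * Real.sqrt p) ^ 2) →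
        Q * (p : ℝ) ^ (1 + ε) ≤ W ^ 2 →
        Y ≤ ((p : ℝ) ^ (-δ)) ^ 4 / 2 * (W * t) := by
  obtain ⟨k, p₀, δ, hkpos, hδpos, hδε, hk1, hεk, hp₀⟩ := asymp_choice ε hε
  refine ⟨k, p₀, δ, hkpos, hδpos, ?_⟩
  intro p hpp
  obtain ⟨hpR, hbigC, hbig16⟩ := hp₀ p hpp
  refine ⟨hpR, ?_⟩
  intro t W Q Y ht hW0 hQ0 hY0 hY1 hQ
  have hp0 : (0 : ℝ) < p := by linarith
  have htpos : 0 < t := lt_trans (Real.rpow_pos_of_pos hp0 _) ht
  have hkR : (1 : ℝ) ≤ k := by exact_mod_cast hkpos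
  set e : ℝ := (p : ℝ) ^ (-(ε / 2)) with he
  have he0 : 0 < e := Real.rpow_pos_of_pos hp0 _
  have hpk : (p : ℝ) ≤ t ^ k := moment_simplify k ε p t hpR hk1 ht
  set C : ℝ := (k : ℝ) ^ (2 * k) + 4 * k ^ 2 with hC
  have hCpos : 0 < C := by positivity
  have hM : (k : ℝ) ^ (2 * k) * t ^ k * (p : ℝ) ^ 2 + t ^ (2 * k) * (2 * k * Real.sqrt p) ^ 2 ≤
      t ^ (2 * k) * (p * C) := by
    have h5 : t ^ (2 * k) = t ^ k * t ^ k := by rw [← pow_add, two_mul]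
    have h6 : (k : ℝ) ^ (2 * k) * t ^ k * (p : ℝ) ^ 2 ≤ (k : ℝ) ^ (2 * k) * t ^ k * (t ^ k * p) := by
      apply mul_le_mul_of_nonneg_left _ (by positivity)
      rw [sq]
      exact mul_le_mul_of_nonneg_right hpk hp0.le
    have h7 : (2 * k * Real.sqrt p) ^ 2 = 4 * k ^ 2 * p := by
      rw [mul_pow, Real.sq_sqrt hp0.le]; ring
    rw [h7, h5]
    calc (k : ℝ) ^ (2 * k) * t ^ k * (p : ℝ) ^ 2 + t ^ k * t ^ k * (4 * k ^ 2 * p)
        ≤ (k : ℝ) ^ (2 * k) * t ^ k * (t ^ k * p) + t ^ k * t ^ k * (4 * k ^ 2 * p) := by linarith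
      _ = t ^ k * t ^ k * (p * C) := by rw [hC]; ring
  have hQ' : Q * p ≤ W ^ 2 * (e * e) := by
    have h1 : (p : ℝ) ^ (1 + ε) = p * (p : ℝ) ^ ε := by
      rw [Real.rpow_add hp0, Real.rpow_one]
    rw [h1] at hQ
    have h2 : (p : ℝ) ^ ε * (e * e) = 1 := by
      rw [he, ← Real.rpow_add hp0, ← Real.rpow_add hp0]
      rw [show ε + (-(ε / 2) + -(ε / 2)) = 0 by ring, Real.rpow_zero]
    calc Q * p = (Q * (p * (p : ℝ) ^ ε)) * (e * e) := by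
          linear_combination (-(Q * p)) * h2
      _ ≤ W ^ 2 * (e * e) := mul_le_mul_of_nonneg_right hQ (by positivity)
  set d : ℝ := (p : ℝ) ^ (-δ) with hd
  have hd0 : 0 < d := Real.rpow_pos_of_pos hp0 _
  have h4 : (d ^ 4) ^ (2 * k) = e := by
    rw [he, hd, ← pow_mul, ← Real.rpow_natCast, ← Real.rpow_mul hp0.le]
    congr 1
    rw [hεk]
    push_cast
    ring
  have hE2 : Y ^ (2 * k) ≤ (d ^ 4 / 2 * (W * t)) ^ (2 * k) := by
    have h1 : Y ^ (2 * k) ≤ W ^ (2 * k - 2) * (Q * p) * (t ^ (2 * k) * C) := by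
      refine hY1.trans ?_
      calc W ^ (2 * k - 2) * Q * ((k : ℝ) ^ (2 * k) * t ^ k * (p : ℝ) ^ 2 +
            t ^ (2 * k) * (2 * k * Real.sqrt p) ^ 2)
          ≤ W ^ (2 * k - 2) * Q * (t ^ (2 * k) * (p * C)) :=
            mul_le_mul_of_nonneg_left hM (by positivity)
        _ = _ := by ring
    have h2 : W ^ (2 * k - 2) * (Q * p) * (t ^ (2 * k) * C) ≤
        W ^ (2 * k - 2) * (W ^ 2 * (e * e)) * (t ^ (2 * k) * C) := by
      apply mul_le_mul_of_nonneg_right _ (by positivity)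
      exact mul_le_mul_of_nonneg_left hQ' (by positivity)
    refine h1.trans (h2.trans ?_)
    have h3 : W ^ (2 * k - 2) * (W ^ 2 * (e * e)) = W ^ (2 * k) * (e * e) := by
      rw [← mul_assoc, ← pow_add]
      congr 2
      omega
    have h8 : (d ^ 4 / 2 * (W * t)) ^ (2 * k) =
        (d ^ 4) ^ (2 * k) / 2 ^ (2 * k) * (W * t) ^ (2 * k) := by
      rw [mul_pow, div_pow]
    rw [h3, h8, h4]
    have h9 : (2 : ℝ) ^ (2 * k) = 4 ^ k := by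
      rw [pow_mul]; norm_num
    rw [h9]
    have h10 : W ^ (2 * k) * t ^ (2 * k) = (W * t) ^ (2 * k) := by
      rw [← mul_pow]
    have h11 : e * C ≤ 1 / 4 ^ k := by
      rw [le_div_iff₀ (by positivity)]
      linarith
    calc W ^ (2 * k) * (e * e) * (t ^ (2 * k) * C)
        = (e * (W ^ (2 * k) * t ^ (2 * k))) * (e * C) := by ring
      _ ≤ (e * (W ^ (2 * k) * t ^ (2 * k))) * (1 / 4 ^ k) :=
          mul_le_mul_of_nonneg_left h11 (by positivity)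
      _ = e / 4 ^ k * (W * t) ^ (2 * k) := by rw [h10]; ring
  exact (pow_le_pow_iff_left₀ hY0 (by positivity) (by omega)).mp hE2

/-- version for sets absorbed by `P`. -/
lemma asymp_three (ε : ℝ) (hε : 0 < ε) :
    ∃ (k p₀ : ℕ) (δ : ℝ), 0 < k ∧ 0 < δ ∧
      ∀ p : ℕ, p₀ < p → ∀ m t a π b Q E : ℝ, 0 < m → (p : ℝ) ^ ε < t → 0 ≤ a → 0 ≤ π →
        π ≤ (p : ℝ) ^ δ * a → 0 ≤ b → 0 ≤ Q → 0 ≤ E →
        (m * t * E) ^ (2 * k) ≤ (m * π * b ^ 2) ^ (2 * k - 2) * Q *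
          ((k : ℝ) ^ (2 * k) * t ^ k * (p : ℝ) ^ 2 + t ^ (2 * k) * (2 * k * Real.sqrt p) ^ 2) →
        Q * (p : ℝ) ^ (1 + ε) ≤ (m * π * b ^ 2) ^ 2 →
        E ≤ ((p : ℝ) ^ (-δ) * b) ^ 2 * a := by
  obtain ⟨k, p₀, δ, hk, hδ, key⟩ := asymp_core ε hε
  refine ⟨k, p₀, δ, hk, hδ, ?_⟩
  intro p hpp m t a π b Q E hm ht ha hπ hπa hb hQ hE h1 h2
  obtain ⟨hpR, key⟩ := key p hpp
  have hp0 : (0 : ℝ) < p := by linarith
  have htpos : 0 < t := lt_trans (Real.rpow_pos_of_pos hp0 _) ht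
  have h3 := key t (m * π * b ^ 2) Q (m * t * E) ht (by positivity) hQ (by positivity) h1 h2
  set d : ℝ := (p : ℝ) ^ (-δ) with hd
  have hd0 : 0 < d := Real.rpow_pos_of_pos hp0 _
  have hd1 : d ≤ 1 := Real.rpow_le_one_of_one_le_of_nonpos hpR.le (by linarith)
  have h4 : E ≤ d ^ 4 / 2 * (π * b ^ 2) := by
    have hmt : 0 < m * t := by positivity
    apply le_of_mul_le_mul_left _ hmt
    calc m * t * E ≤ d ^ 4 / 2 * (m * π * b ^ 2 * t) := h3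
      _ = m * t * (d ^ 4 / 2 * (π * b ^ 2)) := by ring
  have hd2 : d * (p : ℝ) ^ δ = 1 := by
    rw [mul_comm]; exact rpow_mul_neg hp0
  have hda : d * π ≤ a := by
    calc d * π ≤ d * ((p : ℝ) ^ δ * a) := mul_le_mul_of_nonneg_left hπa hd0.le
      _ = (d * (p : ℝ) ^ δ) * a := by ring
      _ = a := by rw [hd2, one_mul]
  calc E ≤ d ^ 4 / 2 * (π * b ^ 2) := h4
    _ = (d ^ 3 / 2 * b ^ 2) * (d * π) := by ring
    _ ≤ (d ^ 3 / 2 * b ^ 2) * a := mul_le_mul_of_nonneg_left hda (by positivity)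
    _ ≤ (d * b) ^ 2 * a := by
        apply mul_le_mul_of_nonneg_right _ ha
        have h5 : d ^ 3 / 2 ≤ d ^ 2 := by
          have h6 : d ^ 3 ≤ d ^ 2 := pow_le_pow_of_le_one hd0.le hd1 (by omega)
          have h7 : 0 ≤ d ^ 3 := by positivity
          linarith
        calc d ^ 3 / 2 * b ^ 2 ≤ d ^ 2 * b ^ 2 := mul_le_mul_of_nonneg_right h5 (by positivity)
          _ = (d * b) ^ 2 := by ring

end Pool.Agent.helper82.Weil
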